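import Pool.Agent.TH729.CV.Iso
import Mathlib.Algebra.MvPolynomial.Funext

/-!
# Local ideals of cylinders
-/

set_option autoImplicit false
set_option linter.unusedSimpArgs false
set_option linter.unusedTactic false
set_option linter.unusedSectionVars false

namespace Pool.Agent.TH729.CV

open Filter Topology MvPolynomial

variable {L : Type*} [NontriviallyNormedField L] [CompleteSpace L] [CharZero L]

variable {k : Type*} [Field k]

/-- substituting a part of the variables -/
lemma exists_ext {τ' τ'' : Type*} (φ : τ' → τ'' ⊕ k) (f : MvPolynomial τ' k) :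
    ∃ g : MvPolynomial τ'' k, ∀ v : τ'' → k,
      eval v g = eval (fun i => Sum.elim v id (φ i)) f := by
  refine ⟨aeval (fun i => Sum.elim X C (φ i)) f, fun v => ?_⟩
  have h1 : eval v (aeval (fun i => Sum.elim X C (φ i)) f : MvPolynomial τ'' k) =
      eval₂ (RingHom.id k) (fun i => eval v (Sum.elim X C (φ i))) f := by
    rw [aeval_def, eval₂_comp_left (eval v)]
    congr 1
    ext a
    simp
  rw [h1]
  change _ = eval₂ (RingHom.id k) _ f
  congr 1
  funext i
  rcases φ i with j | a
  · simp
  · simp

/-- **cylinders** -/
theorem FA.cyl {σ : k →+* L} (hσ : DenseRange σ) {τ τ' : Type*} [Finite τ] [Finite τ']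
    {D : Set (τ → k)} (h : FA σ D) {e : τ → τ'} (he : Function.Injective e) :
    FA σ {y : τ' → k | (fun i => y (e i)) ∈ D} := by
  classical
  set D' : Set (τ' → k) := {y : τ' → k | (fun i => y (e i)) ∈ D} with hD'
  set Ψ : Ideal (MvPolynomial τ k) → Set (MvPolynomial τ' k) := fun I =>
    {f | ∀ (w : τ' → k) (g : MvPolynomial τ k),
      (∀ v, eval v g = eval (Function.extend e v w) f) → g ∈ I} with hΨ
  have hinf : ∀ (a : L) (t : Set L), t ∈ 𝓝 a → {c : k | σ c ∈ t}.Infinite := by
    intro a t ht hfin
    obtain ⟨t', ht', ht'o, hat'⟩ := mem_nhds_iff.1 ht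
    have h1 : (σ '' {c : k | σ c ∈ t}).Finite := hfin.image _
    have h2 : a ∈ closure (t' \ σ '' {c : k | σ c ∈ t}) := by
      have h3 : a ∈ closure (t' \ {a}) := by
        rw [mem_closure_iff_frequently]
        have h4 : ∀ᶠ z in 𝓝[≠] a, z ∈ t' \ {a} := by
          filter_upwards [nhdsWithin_le_nhds (ht'o.mem_nhds hat'), self_mem_nhdsWithin]
            with z h5 h6
          exact ⟨h5, h6⟩
        exact h4.frequently.filter_mono nhdsWithin_le_nhds
      rw [mem_closure_iff_frequently]
      have h5 : ∀ᶠ z in 𝓝[≠] a, z ∈ t' \ σ '' {c : k | σ c ∈ t} := by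
        have h6 : (σ '' {c : k | σ c ∈ t} \ {a})ᶜ ∈ 𝓝 a :=
          (h1.subset Set.sdiff_subset).isClosed.isOpen_compl.mem_nhds fun h => h.2 rfl
        filter_upwards [nhdsWithin_le_nhds (ht'o.mem_nhds hat'), nhdsWithin_le_nhds h6,
          self_mem_nhdsWithin] with z h7 h8 h9
        exact ⟨h7, fun h => h8 ⟨h, h9⟩⟩
      exact h5.frequently.filter_mono nhdsWithin_le_nhds
    obtain ⟨z, hz⟩ : (t' \ σ '' {c : k | σ c ∈ t}).Nonempty := by
      by_contra hne
      rw [Set.not_nonempty_iff_eq_empty] at hne
      rw [hne, closure_empty] at h2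
      exact h2
    obtain ⟨c, hc⟩ := hσ.exists_mem_open (ht'o.inter h1.isClosed.isOpen_compl) ⟨z, hz⟩
    exact hc.2 ⟨c, ht' hc.1, rfl⟩
  have key : ∀ x, (IA σ D' x : Set (MvPolynomial τ' k)) = Ψ (IA σ D fun i => x (e i)) := by
    intro x
    ext f
    constructor
    · intro hf w g hg
      have hf' := mem_IA.1 hf
      rw [nhds_pi] at hf'
      obtain ⟨I, hI, t, ht, hsub⟩ := Filter.mem_pi.1 hf'
      rw [mem_IA]
      have h1 : ∀ᶠ z : τ → L in 𝓝 fun i => x (e i), ∀ i, z i ∈ t (e i) := by
        rw [Filter.eventually_all]
        intro i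
        exact (continuous_apply i).continuousAt (ht (e i))
      filter_upwards [h1] with z hz v hv hvz
      rw [hg]
      -- the polynomial in the other variables
      obtain ⟨p, hp⟩ := exists_ext (τ'' := τ')
        (fun i' => if h : ∃ i, e i = i' then Sum.inr (v h.choose) else Sum.inl i') f
      have hp' : ∀ w', eval w' p = eval (Function.extend e v w') f := by
        intro w'
        rw [hp]
        congr 1
        congr 1
        funext i'
        by_cases h : ∃ i, e i = i'
        · obtain ⟨i, rfl⟩ := h
          rw [dif_pos ⟨i, rfl⟩, he.extend_apply]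
          have : (⟨i, rfl⟩ : ∃ i₀, e i₀ = e i).choose = i :=
            he (⟨i, rfl⟩ : ∃ i₀, e i₀ = e i).choose_spec
          simp [this]
        · rw [dif_neg h, Function.extend_apply' _ _ _ h]
          rfl
      have hp0 : p = 0 := by
        refine MvPolynomial.funext_set (s := fun i' => {c : k | σ c ∈ t i'})
          (fun i' => hinf (x i') _ (ht i')) fun w' hw' => ?_
        rw [hp', map_zero]
        refine hsub (a := fun i' => σ (Function.extend e v w' i')) ?_ _ ?_ rfl
        · intro i' _
          by_cases h : ∃ i, e i = i'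
          · obtain ⟨i, rfl⟩ := h
            show σ (Function.extend e v w' (e i)) ∈ t (e i)
            rw [he.extend_apply]
            have := hz i
            rw [← hvz] at this
            exact this
          · show σ (Function.extend e v w' i') ∈ t i'
            rw [Function.extend_apply' _ _ _ h]
            exact hw' i' (Set.mem_univ _)
        · show (fun i => Function.extend e v w' (e i)) ∈ D
          have : (fun i => Function.extend e v w' (e i)) = v := by
            funext i
            rw [he.extend_apply]
          rw [this]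
          exact hv
      rw [← hp', hp0, map_zero]
    · intro hf
      show f ∈ IA σ D' x
      rw [mem_IA]
      have hc : Continuous fun z : τ' → L => (fun i => z (e i)) :=
        continuous_pi fun i => continuous_apply _
      filter_upwards [(hc.tendsto x).eventually (IA_stab σ D fun i => x (e i))] with z hz y hy hyz
      obtain ⟨g, hg⟩ := exists_ext (τ'' := τ)
        (fun i' => if h : ∃ i, e i = i' then Sum.inl h.choose else Sum.inr (y i')) f
      have hg' : ∀ v, eval v g = eval (Function.extend e v y) f := by
        intro v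
        rw [hg]
        congr 1
        congr 1
        funext i'
        by_cases h : ∃ i, e i = i'
        · obtain ⟨i, rfl⟩ := h
          rw [dif_pos ⟨i, rfl⟩, he.extend_apply]
          have : (⟨i, rfl⟩ : ∃ i₀, e i₀ = e i).choose = i :=
            he (⟨i, rfl⟩ : ∃ i₀, e i₀ = e i).choose_spec
          simp [this]
        · rw [dif_neg h, Function.extend_apply' _ _ _ h]
          rfl
      have h1 : g ∈ IA σ D fun i => x (e i) := hf y g hg'
      have h2 := hz (fun i => y (e i)) hy (by
        rw [← hyz]) g h1
      rw [hg'] at h2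
      have h3 : Function.extend e (fun i => y (e i)) y = y := by
        funext i'
        by_cases h : ∃ i, e i = i'
        · obtain ⟨i, rfl⟩ := h
          rw [he.extend_apply]
        · rw [Function.extend_apply' _ _ _ h]
      rwa [h3] at h2
  refine Set.Finite.of_finite_image (f := fun I : Ideal (MvPolynomial τ' k) =>
    (I : Set (MvPolynomial τ' k))) ((h.image Ψ).subset ?_) SetLike.coe_injective.injOn
  rintro _ ⟨_, ⟨x, rfl⟩, rfl⟩
  exact ⟨IA σ D fun i => x (e i), ⟨_, rfl⟩, (key x).symm⟩

end Pool.Agent.TH729.CV
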