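import Pool.Agent.TH729.BQ.Fam
import Mathlib.LinearAlgebra.Matrix.BilinearForm
import Mathlib.LinearAlgebra.Matrix.Nondegenerate
import Mathlib.LinearAlgebra.Matrix.Symmetric

/-!
# Families given by symmetric matrices
-/

set_option autoImplicit false
set_option linter.unusedSimpArgs false
set_option linter.unusedTactic false
set_option linter.unusedSectionVars false

namespace Pool.Agent.TH729.BQ

open Matrix

variable {K : Type*} [Field K] [CharZero K] {n : ℕ}

/-- the form of a symmetric matrix -/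
noncomputable def ofMat (A : Matrix (Fin n) (Fin n) K) (hA : A.IsSymm) : SB K n where
  f := Matrix.toBilin' A
  s a b := by
    rw [Matrix.toBilin'_apply', Matrix.toBilin'_apply', dotProduct_mulVec, ← mulVec_transpose,
      hA.eq, dotProduct_comm]

lemma ofMat_val (A : Matrix (Fin n) (Fin n) K) (hA : A.IsSymm) (v w : Fin n → K) :
    (ofMat A hA).f v w = v ⬝ᵥ A *ᵥ w := Matrix.toBilin'_apply' A v w

/-- the family of three symmetric matrices -/
noncomputable def matFam (A B C : Matrix (Fin n) (Fin n) K) (hA : A.IsSymm) (hB : B.IsSymm)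
    (hC : C.IsSymm) : Fam K n where
  A := ofMat A hA
  B := ofMat ((2 : K)⁻¹ • B) (hB.smul _)
  C := ofMat C hC

lemma matFam_val {A B C : Matrix (Fin n) (Fin n) K} (hA : A.IsSymm) (hB : B.IsSymm)
    (hC : C.IsSymm) (T : Fin 2 → K) (v w : Fin n → K) :
    ((matFam A B C hA hB hC).H T T).f v w =
      v ⬝ᵥ (T 0 ^ 2 • A + (T 0 * T 1) • B + T 1 ^ 2 • C) *ᵥ w := by
  rw [Fam.H_val]
  simp only [matFam, ofMat_val, add_mulVec, smul_mulVec, dotProduct_add, dotProduct_smul,
    smul_eq_mul]
  have : (2 : K)⁻¹ * 2 = 1 := inv_mul_cancel₀ two_ne_zero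
  linear_combination (T 0 * T 1 * (v ⬝ᵥ B *ᵥ w)) * this

lemma matFam_ind {A B C : Matrix (Fin n) (Fin n) K} (hA : A.IsSymm) (hB : B.IsSymm)
    (hC : C.IsSymm) (hind : LinearIndependent K ![A, B, C]) :
    (matFam A B C hA hB hC).Ind := by
  intro α β γ h
  set M : Matrix (Fin n) (Fin n) K := α • A + (β * 2⁻¹) • B + γ • C with hM
  have hMs : M.IsSymm := ((hA.smul α).add (hB.smul _)).add (hC.smul γ)
  have h1 : ∀ v : Fin n → K, v ⬝ᵥ M *ᵥ v = 0 := by
    intro v
    have h2 := h v
    simp only [matFam, ofMat_val, add_mulVec, smul_mulVec, dotProduct_add, dotProduct_smul,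
      smul_eq_mul] at h2
    rw [hM]
    simp only [add_mulVec, smul_mulVec, dotProduct_add, dotProduct_smul, smul_eq_mul]
    linear_combination h2
  have h2 : M = 0 := by
    ext i j
    have h3 := (ofMat M hMs).add_add (Pi.single i 1) (Pi.single j 1)
    simp only [ofMat_val, h1] at h3
    have h4 : (2 : K) * ((Pi.single i 1 : Fin n → K) ⬝ᵥ M *ᵥ Pi.single j 1) = 0 := by
      linear_combination -h3
    have h5 := (mul_eq_zero.1 h4).resolve_left two_ne_zero
    simpa using h5
  rw [hM] at h2
  have h3 := (Fintype.linearIndependent_iff.1 hind) ![α, β * 2⁻¹, γ] (by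
    rw [Fin.sum_univ_three]
    simpa using h2)
  have e0 := h3 0
  have e1 := h3 1
  have e2 := h3 2
  simp only [Matrix.cons_val_zero, Matrix.cons_val_one, Matrix.cons_val] at e0 e1 e2
  exact ⟨e0, (mul_eq_zero.1 e1).resolve_right (inv_ne_zero two_ne_zero), e2⟩

/-- the bad fibres -/
theorem matFam_bad {A B C : Matrix (Fin n) (Fin n) K} (hA : A.IsSymm) (hB : B.IsSymm)
    (hC : C.IsSymm) (hdet : ∃ t : K, (t ^ 2 • A + t • B + C).det ≠ 0) :
    ∃ 𝓑 : Finset (Fin 2 → K), (∀ R ∈ 𝓑, R ≠ 0) ∧
      ∀ T, (∀ R ∈ 𝓑, wedge T R ≠ 0) → ((matFam A B C hA hB hC).H T T).ND := by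
  classical
  set p : Polynomial K := ((Polynomial.X : Polynomial K) ^ 2 • A.map Polynomial.C +
    (Polynomial.X : Polynomial K) • B.map Polynomial.C + C.map Polynomial.C).det with hp
  have hev : ∀ t : K, p.eval t = (t ^ 2 • A + t • B + C).det := by
    intro t
    rw [hp, ← Polynomial.coe_evalRingHom, RingHom.map_det]
    congr 1
    ext i j
    simp
    ring
  have hp0 : p ≠ 0 := by
    rintro h
    obtain ⟨t, ht⟩ := hdet
    rw [← hev, h, Polynomial.eval_zero] at ht
    exact ht rfl
  refine ⟨insert ![1, 0] (p.roots.toFinset.image fun r => ![r, 1]), ?_, ?_⟩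
  · intro R hR h0
    rcases Finset.mem_insert.1 hR with rfl | hR
    · have := congrFun h0 0
      simp at this
    · obtain ⟨r, -, rfl⟩ := Finset.mem_image.1 hR
      have := congrFun h0 1
      simp at this
  · intro T hT
    have hT1 : T 1 ≠ 0 := by
      have := hT _ (Finset.mem_insert_self _ _)
      simpa [wedge] using this
    have hroot : p.eval (T 0 / T 1) ≠ 0 := by
      intro h
      have h1 := hT _ (Finset.mem_insert_of_mem (Finset.mem_image_of_mem _
        (Multiset.mem_toFinset.2 ((Polynomial.mem_roots hp0).2 h))))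
      apply h1
      simp only [wedge, Matrix.cons_val_zero, Matrix.cons_val_one, Matrix.cons_val_fin_one]
      field_simp
      ring
    rw [hev] at hroot
    intro v hv
    have h1 : v ᵥ* (T 0 ^ 2 • A + (T 0 * T 1) • B + T 1 ^ 2 • C) = 0 := by
      funext j
      have h2 := hv (Pi.single j 1)
      rw [matFam_val, dotProduct_mulVec] at h2
      simpa using h2
    have h2 : T 0 ^ 2 • A + (T 0 * T 1) • B + T 1 ^ 2 • C =
        T 1 ^ 2 • ((T 0 / T 1) ^ 2 • A + (T 0 / T 1) • B + C) := by
      simp only [smul_add, smul_smul]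
      congr 2
      · congr 1
        field_simp
      · congr 1
        field_simp
    rw [h2, vecMul_smul] at h1
    have h3 := (smul_eq_zero.1 h1).resolve_left (pow_ne_zero 2 hT1)
    exact Matrix.eq_zero_of_vecMul_eq_zero hroot h3

end Pool.Agent.TH729.BQ
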