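import Pool.Agent.TH729.BQ.R5
import Pool.Agent.TH729.CC.Dio

/-!
# Cylinders, products and values
-/

set_option autoImplicit false
set_option linter.unusedSimpArgs false
set_option linter.unusedTactic false
set_option linter.unusedSectionVars false

namespace Pool.Agent.TH729.BQ

open Filter Topology Set MvPolynomial Matrix Pool.Agent.H581R2 Pool.Agent.TH729.SQ
  Pool.Agent.TH729.CC

/-- the closure of a cylinder -/
lemma cyl_closure {K : Type*} [Field K] [CharZero K] (σ : K →+* ℝ) {τ τ' : Type} [Finite τ]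
    [Finite τ'] (D : Set (τ → K)) {e : τ → τ'} (he : Function.Injective e) :
    closure ((fun (y : τ' → K) i => σ (y i)) '' {y | (fun i => y (e i)) ∈ D}) =
      {x | (fun i => x (e i)) ∈ closure ((fun (y : τ → K) i => σ (y i)) '' D)} := by
  classical
  have hdense0 : DenseRange σ := by
    have h1 : DenseRange ((↑) : ℚ → ℝ) := Rat.denseRange_cast
    refine Dense.mono ?_ h1
    rintro _ ⟨q, rfl⟩
    exact ⟨(q : K), map_ratCast σ q⟩
  apply Subset.antisymm
  · intro x hx
    have hc : Continuous fun x : τ' → ℝ => (fun i => x (e i)) :=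
      continuous_pi fun i => continuous_apply _
    refine map_mem_closure (f := fun x : τ' → ℝ => (fun i => x (e i))) hc hx ?_
    rintro _ ⟨y, hy, rfl⟩
    exact ⟨fun i => y (e i), hy, rfl⟩
  · intro x hx
    rw [mem_closure_iff_nhds]
    intro N hN
    rw [nhds_pi] at hN
    obtain ⟨I, hI, t, ht, hsub⟩ := Filter.mem_pi.1 hN
    have h1 : {z : τ → ℝ | ∀ i, z i ∈ t (e i)} ∈ 𝓝 fun i => x (e i) := by
      have h2 : ∀ᶠ z : τ → ℝ in 𝓝 fun i => x (e i), ∀ i, z i ∈ t (e i) := by
        rw [Filter.eventually_all]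
        intro i
        exact (continuous_apply i).continuousAt (ht (e i))
      exact h2
    obtain ⟨_, hz, y, hy, rfl⟩ := mem_closure_iff_nhds.1 hx _ h1
    have h3 : ∀ i' : τ', ∃ c : K, σ c ∈ t i' := by
      intro i'
      obtain ⟨t', ht', ht'o, hxt'⟩ := mem_nhds_iff.1 (ht i')
      obtain ⟨c, hc⟩ := hdense0.exists_mem_open ht'o ⟨_, hxt'⟩
      exact ⟨c, ht' hc⟩
    choose c hc using h3
    refine ⟨fun i' => σ (Function.extend e y c i'), hsub fun i' _ => ?_,
      Function.extend e y c, ?_, rfl⟩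
    · by_cases h : ∃ i, e i = i'
      · obtain ⟨i, rfl⟩ := h
        rw [he.extend_apply]
        exact hz i
      · rw [Function.extend_apply' _ _ _ h]
        exact hc i'
    · show (fun i => Function.extend e y c (e i)) ∈ D
      have : (fun i => Function.extend e y c (e i)) = y := by
        funext i
        rw [he.extend_apply]
      rw [this]
      exact hy

/-- cylinders -/
lemma cyl_SA {K : Type*} [Field K] [CharZero K] (σ : K →+* ℝ) {τ τ' : Type} [Finite τ]
    [Finite τ'] {D : Set (τ → K)} (hD : SA (closure ((fun (y : τ → K) i => σ (y i)) '' D)))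
    {e : τ → τ'} (he : Function.Injective e) :
    SA (closure ((fun (y : τ' → K) i => σ (y i)) '' {y | (fun i => y (e i)) ∈ D})) := by
  rw [cyl_closure σ D he]
  exact SAP.preimage (p := fun v => v ∈ closure ((fun (y : τ → K) i => σ (y i)) '' D)) hD
    (φ := fun x i => x (e i)) fun i => PF.coord _

/-- one hypersurface -/
theorem twoTwo_SA {K : Type} [Field K] [CharZero K] [Algebra.IsAlgebraic ℚ K] (σ : K →+* ℝ)
    {n : ℕ} (hn : 2 ≤ n) {A B C : Matrix (Fin (n + 1)) (Fin (n + 1)) K} (hA : A.IsSymm)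
    (hB : B.IsSymm) (hC : C.IsSymm) (hind : LinearIndependent K ![A, B, C])
    (hdet : ∃ t : K, (t ^ 2 • A + t • B + C).det ≠ 0) {S : Set (Fin (n + 1) → K)}
    (hS : S = {y | Function.update y 0 1 ⬝ᵥ (y 0 ^ 2 • A + y 0 • B + C) *ᵥ
      Function.update y 0 1 = 0}) :
    SA (closure ((fun (r : Fin (n + 1) → K) i => σ (r i)) '' S)) := by
  have h1 := closure_SA σ (alg_of_alg K σ) hn hA hB hC hind hdet
  have h2 : Va A B C = S := by
    rw [hS]
    ext y
    show (_ = _) ↔ _ = _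
    simp only [fib, Matrix.cons_val_zero, Matrix.cons_val_one, Matrix.cons_val_fin_one, mul_one,
      one_pow, one_smul]
  rwa [h2] at h1

lemma rl_eq {n : Type} (D : Set (n → ℚ)) :
    rl D = (fun (r : n → ℚ) i => Rat.castHom ℝ (r i)) '' D := by
  ext x
  constructor
  · rintro ⟨r, hr, rfl⟩
    exact ⟨r, hr, rfl⟩
  · rintro ⟨r, hr, rfl⟩
    exact ⟨r, hr, rfl⟩

/-- values of rational functions at the rational points of products -/
theorem vals_SA {ι κ : Type} [Finite ι] [Finite κ] {n : Type} [Finite n] {S : ι → Set (n → ℚ)}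
    (hS : ∀ j, SA (closure ((fun (r : n → ℚ) i => Rat.castHom ℝ (r i)) '' S j))) {m : Type}
    [Finite m] (p : m → MvPolynomial ((ι × n) ⊕ κ) ℚ) (q : MvPolynomial ((ι × n) ⊕ κ) ℚ) :
    SA (closure {y : m → ℝ | ∃ (x : ι → n → ℚ) (u : κ → ℚ), (∀ j, x j ∈ S j) ∧
      eval (Sum.elim (fun r => x r.1 r.2) u) q ≠ 0 ∧
      ∀ k, y k = ((eval (Sum.elim (fun r => x r.1 r.2) u) (p k) /
        eval (Sum.elim (fun r => x r.1 r.2) u) q : ℚ) : ℝ)}) := by
  refine values_main S (fun j => ?_) p q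
  rw [rl_eq]
  exact hS j

/-- values of one rational function -/
theorem vals_line {ι κ : Type} [Finite ι] [Finite κ] {n : Type} [Finite n] {S : ι → Set (n → ℚ)}
    (hS : ∀ j, SA (closure ((fun (r : n → ℚ) i => Rat.castHom ℝ (r i)) '' S j)))
    (p q : MvPolynomial ((ι × n) ⊕ κ) ℚ) {D : Set ℚ}
    (hD : D = {t | ∃ (x : ι → n → ℚ) (u : κ → ℚ), (∀ j, x j ∈ S j) ∧
          eval (Sum.elim (fun r => x r.1 r.2) u) q ≠ 0 ∧
          t = eval (Sum.elim (fun r => x r.1 r.2) u) p /
            eval (Sum.elim (fun r => x r.1 r.2) u) q}) :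
    (frontier (closure (((↑) : ℚ → ℝ) '' D))).Finite ∧
      (∀ x ∈ frontier (closure (((↑) : ℚ → ℝ) '' D)), IsAlgebraic ℚ x) ∧
      (D.Nonempty → BddAbove (((↑) : ℚ → ℝ) '' D) →
        IsAlgebraic ℚ (sSup (((↑) : ℚ → ℝ) '' D))) := by
  have h2 := vals_SA hS (m := Fin 1) (fun _ => p) q
  set S' : Set (Fin 1 → ℝ) := {y : Fin 1 → ℝ | ∃ (x : ι → n → ℚ) (u : κ → ℚ),
    (∀ j, x j ∈ S j) ∧ eval (Sum.elim (fun r => x r.1 r.2) u) q ≠ 0 ∧
    ∀ k, y k = ((eval (Sum.elim (fun r => x r.1 r.2) u) ((fun _ => p) k) /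
      eval (Sum.elim (fun r => x r.1 r.2) u) q : ℚ) : ℝ)} with hS'
  have h3 := Pool.Agent.TH729.CC.line_SA h2
  have h4 : {t : ℝ | (fun _ => t) ∈ closure S'} = closure (((↑) : ℚ → ℝ) '' D) := by
    have h5 : (Homeomorph.funUnique (Fin 1) ℝ) '' S' = ((↑) : ℚ → ℝ) '' D := by
      ext t
      constructor
      · rintro ⟨y, ⟨x, u, hx, hq, hy⟩, rfl⟩
        refine ⟨_, ?_, (hy 0).symm⟩
        rw [hD]
        exact ⟨x, u, hx, hq, rfl⟩
      · rintro ⟨t, ht, rfl⟩
        rw [hD] at ht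
        obtain ⟨x, u, hx, hq, rfl⟩ := ht
        exact ⟨fun _ => _, ⟨x, u, hx, hq, fun _ => rfl⟩, rfl⟩
    rw [← h5, ← (Homeomorph.funUnique (Fin 1) ℝ).image_closure]
    ext t
    constructor
    · intro ht
      exact ⟨fun _ => t, ht, rfl⟩
    · rintro ⟨y, hy, rfl⟩
      have h6 : (fun _ => (Homeomorph.funUnique (Fin 1) ℝ) y) = y := by
        funext k
        rw [Subsingleton.elim k 0]
        rfl
      change (fun _ => (Homeomorph.funUnique (Fin 1) ℝ) y) ∈ closure S'
      rw [h6]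
      exact hy
  rw [h4] at h3
  refine ⟨h3.1, h3.2, fun hne hb => h3.2 _ ?_⟩
  set A : Set ℝ := ((↑) : ℚ → ℝ) '' D with hA
  have hAne : A.Nonempty := hne.image _
  have h5 : sSup A ∈ closure A := csSup_mem_closure hAne hb
  refine ⟨by rwa [closure_closure], fun h6 => ?_⟩
  obtain ⟨ε, hε, hball⟩ := Metric.mem_nhds_iff.1 (mem_interior_iff_mem_nhds.1 h6)
  have h7 : sSup A + ε / 2 ∈ closure A := by
    apply hball
    rw [Metric.mem_ball, Real.dist_eq, add_sub_cancel_left, abs_of_pos (by linarith)]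
    linarith
  have h8 : closure A ⊆ Set.Iic (sSup A) :=
    closure_minimal (fun a ha => le_csSup hb ha) isClosed_Iic
  have h9 := h8 h7
  rw [Set.mem_Iic] at h9
  linarith

end Pool.Agent.TH729.BQ
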