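import Mathlib.LinearAlgebra.BilinearMap
import Mathlib.LinearAlgebra.Dimension.Constructions
import Mathlib.LinearAlgebra.FiniteDimensional.Lemmas
import Mathlib.LinearAlgebra.Dual.Lemmas
import Mathlib.Algebra.Polynomial.Roots
import Mathlib.Tactic.LinearCombination
import Mathlib.Tactic.Module
import Mathlib.Tactic.FieldSimp

/-!
# Quadratic forms with a zero: the algebra of chords
-/

set_option autoImplicit false
set_option linter.unusedSimpArgs false
set_option linter.unusedTactic false
set_option linter.unusedSectionVars false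

namespace Pool.Agent.TH729.BQ

variable {K : Type*} [Field K] [CharZero K] {n : ℕ}

/-- symmetric bilinear forms -/
structure SB (K : Type*) [Field K] (n : ℕ) where
  /-- the form -/
  f : (Fin n → K) →ₗ[K] (Fin n → K) →ₗ[K] K
  s : ∀ a b, f a b = f b a

/-- nondegenerate forms -/
def SB.ND (q : SB K n) : Prop := ∀ v, (∀ w, q.f v w = 0) → v = 0

/-- the second intersection with the quadric of the line through the zero `P` of direction `v` -/
def SB.ch (q : SB K n) (P v : Fin n → K) : Fin n → K := q.f v v • P - (2 * q.f P v) • v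

lemma SB.add_add (q : SB K n) (a b : Fin n → K) :
    q.f (a + b) (a + b) = q.f a a + 2 * q.f a b + q.f b b := by
  simp only [map_add, LinearMap.add_apply, q.s b a]
  ring

lemma SB.line (q : SB K n) (a b : Fin n → K) (t : K) :
    q.f (a + t • b) (a + t • b) = q.f a a + 2 * t * q.f a b + t ^ 2 * q.f b b := by
  simp only [map_add, map_smul, LinearMap.add_apply, LinearMap.smul_apply, smul_eq_mul, q.s b a]
  ring

lemma SB.ch_val (q q' : SB K n) (P v : Fin n → K) :
    q'.f (q.ch P v) (q.ch P v) = q.f v v ^ 2 * q'.f P P - 4 * q.f v v * q.f P v * q'.f P v +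
      4 * q.f P v ^ 2 * q'.f v v := by
  simp only [SB.ch, map_sub, map_smul, LinearMap.sub_apply, LinearMap.smul_apply, smul_eq_mul,
    q'.s v P]
  ring

lemma SB.ch_zero (q : SB K n) {P : Fin n → K} (hP : q.f P P = 0) (v : Fin n → K) :
    q.f (q.ch P v) (q.ch P v) = 0 := by
  rw [SB.ch_val, hP]
  ring

lemma SB.f_ch (q : SB K n) {P : Fin n → K} (hP : q.f P P = 0) (v : Fin n → K) :
    q.f P (q.ch P v) = -2 * q.f P v ^ 2 := by
  simp only [SB.ch, map_sub, map_smul, smul_eq_mul, hP]
  ring

lemma SB.ch_of_zero (q : SB K n) {P v : Fin n → K} (hv : q.f v v = 0) :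
    q.ch P v = -(2 * q.f P v) • v := by
  rw [SB.ch, hv, zero_smul, zero_sub, neg_smul]

lemma SB.ch_smul (q : SB K n) (P v : Fin n → K) (t : K) : q.ch P (t • v) = t ^ 2 • q.ch P v := by
  simp only [SB.ch, map_smul, LinearMap.smul_apply, smul_eq_mul, smul_sub, smul_smul]
  congr 1
  · congr 1
    ring
  · congr 1
    ring

/-- a functional vanishing on the kernel of another one is a multiple of it -/
lemma fun_mul {l l' : (Fin n → K) →ₗ[K] K} {z : Fin n → K} (hz : l z = 1)
    (h : ∀ w, l w = 0 → l' w = 0) (v : Fin n → K) : l' v = l' z * l v := by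
  have h1 := h (v - l v • z) (by rw [map_sub, map_smul, hz, smul_eq_mul, mul_one, sub_self])
  rw [map_sub, map_smul, smul_eq_mul] at h1
  linear_combination h1

lemma SB.exists_one (q : SB K n) (hq : q.ND) {P : Fin n → K} (hP : P ≠ 0) :
    ∃ z, q.f P z = 1 := by
  obtain ⟨w, hw⟩ : ∃ w, q.f P w ≠ 0 := by
    by_contra hcon
    push Not at hcon
    exact hP (hq P hcon)
  exact ⟨(q.f P w)⁻¹ • w, by rw [map_smul, smul_eq_mul, inv_mul_cancel₀ hw]⟩

/-- a nonisotropic vector orthogonal to a zero -/
lemma SB.exists_perp (q : SB K n) (hq : q.ND) (hn : 3 ≤ n) {P : Fin n → K} (hP : P ≠ 0) :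
    ∃ w, q.f P w = 0 ∧ q.f w w ≠ 0 := by
  obtain ⟨z, hz⟩ := q.exists_one hq hP
  by_contra hcon
  push Not at hcon
  -- the hyperplane is totally isotropic
  have h1 : ∀ w w', q.f P w = 0 → q.f P w' = 0 → q.f w w' = 0 := by
    intro w w' hw hw'
    have h2 := hcon (w + w') (by rw [map_add, hw, hw', add_zero])
    rw [q.add_add, hcon w hw, hcon w' hw'] at h2
    have h3 : (2 : K) * q.f w w' = 0 := by linear_combination h2
    exact (mul_eq_zero.1 h3).resolve_left two_ne_zero
  have h2 : LinearMap.ker (q.f P) ≤ Submodule.span K {P} := by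
    intro w hw
    rw [LinearMap.mem_ker] at hw
    have h3 : ∀ v, q.f w v = q.f w z * q.f P v := fun_mul hz fun w' hw' => h1 w w' hw hw'
    have h4 : w - q.f w z • P = 0 := by
      refine hq _ fun v => ?_
      rw [map_sub, map_smul, LinearMap.sub_apply, LinearMap.smul_apply, smul_eq_mul, h3 v, sub_self]
    rw [Submodule.mem_span_singleton]
    exact ⟨q.f w z, (sub_eq_zero.1 h4).symm⟩
  have h3 : Module.finrank K (LinearMap.ker (q.f P)) ≤ 1 :=
    (Submodule.finrank_mono h2).trans (finrank_span_singleton (K := K) hP).le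
  have h4 := LinearMap.finrank_range_add_finrank_ker (q.f P)
  have h5 : Module.finrank K (LinearMap.range (q.f P)) ≤ 1 :=
    (Submodule.finrank_le _).trans (by rw [Module.finrank_self])
  rw [Module.finrank_fin_fun] at h4
  omega

/-- polynomial identities on a line without the origin -/
lemma poly3 {a b c : K} (h : ∀ t : K, t ≠ 0 → a + t * b + t ^ 2 * c = 0) : a = 0 ∧ b = 0 ∧ c = 0 := by
  have h1 := h 1 one_ne_zero
  have h2 := h (-1) (neg_ne_zero.2 one_ne_zero)
  have h3 := h 2 two_ne_zero
  have hb : (2 : K) * b = 0 := by linear_combination h1 - h2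
  have hb' : b = 0 := (mul_eq_zero.1 hb).resolve_left two_ne_zero
  subst hb'
  have hc : (3 : K) * c = 0 := by linear_combination h3 - h1
  have hc' : c = 0 := (mul_eq_zero.1 hc).resolve_left (by norm_num)
  subst hc'
  exact ⟨by linear_combination h1, rfl, rfl⟩

lemma poly4 {a b c d : K} (h : ∀ t : K, t ≠ 0 → a + t * b + t ^ 2 * c + t ^ 3 * d = 0) :
    a = 0 ∧ b = 0 ∧ c = 0 ∧ d = 0 := by
  have h1 := h 1 one_ne_zero
  have h2 := h (-1) (neg_ne_zero.2 one_ne_zero)
  have h3 := h 2 two_ne_zero
  have h4 := h (-2) (neg_ne_zero.2 two_ne_zero)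
  have e1 : a + c = 0 := by
    have : (2 : K) * (a + c) = 0 := by linear_combination h1 + h2
    exact (mul_eq_zero.1 this).resolve_left two_ne_zero
  have e2 : a + 4 * c = 0 := by
    have : (2 : K) * (a + 4 * c) = 0 := by linear_combination h3 + h4
    exact (mul_eq_zero.1 this).resolve_left two_ne_zero
  have e3 : c = 0 := by
    have : (3 : K) * c = 0 := by linear_combination e2 - e1
    exact (mul_eq_zero.1 this).resolve_left (by norm_num)
  subst e3
  have e4 : a = 0 := by linear_combination e1
  subst e4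
  have e5 : b + d = 0 := by linear_combination h1
  have e6 : b + 4 * d = 0 := by
    have : (2 : K) * (b + 4 * d) = 0 := by linear_combination h3
    exact (mul_eq_zero.1 this).resolve_left two_ne_zero
  have e7 : d = 0 := by
    have : (3 : K) * d = 0 := by linear_combination e6 - e5
    exact (mul_eq_zero.1 this).resolve_left (by norm_num)
  subst e7
  exact ⟨rfl, by linear_combination e5, rfl, rfl⟩

/-- **a quadratic form vanishing at the zeros of a nondegenerate isotropic one is a multiple** -/
theorem SB.prop (q q' : SB K n) (hq : q.ND) (hn : 3 ≤ n) {P : Fin n → K} (hP : P ≠ 0)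
    (hP0 : q.f P P = 0) (h : ∀ Z, q.f Z Z = 0 → q.f P Z ≠ 0 → q'.f Z Z = 0) :
    ∃ c : K, ∀ v, q'.f v v = c * q.f v v := by
  have h1 : ∀ v, q.f P v ≠ 0 → q.f v v ^ 2 * q'.f P P - 4 * q.f v v * q.f P v * q'.f P v +
      4 * q.f P v ^ 2 * q'.f v v = 0 := by
    intro v hv
    rw [← SB.ch_val]
    refine h _ (q.ch_zero hP0 v) ?_
    rw [q.f_ch hP0]
    exact mul_ne_zero (by norm_num) (pow_ne_zero 2 hv)
  obtain ⟨w0, hw0, hw0'⟩ := q.exists_perp hq hn hP
  obtain ⟨z, hz⟩ := q.exists_one hq hP
  -- `q'` vanishes at `P`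
  have hPP : q'.f P P = 0 := by
    by_contra hne
    -- a polynomial of degree four in `t`
    have h2 : ∀ t : K, t ≠ 0 → (q.f w0 w0 + 2 * t * q.f w0 z + t ^ 2 * q.f z z) ^ 2 * q'.f P P =
        t * (4 * (q.f w0 w0 + 2 * t * q.f w0 z + t ^ 2 * q.f z z) *
          (q'.f P w0 + t * q'.f P z) -
          4 * t * (q'.f w0 w0 + 2 * t * q'.f w0 z + t ^ 2 * q'.f z z)) := by
      intro t ht
      have e1 : q.f P (w0 + t • z) = t := by
        rw [map_add, map_smul, hw0, hz, smul_eq_mul, mul_one, zero_add]
      have h3 := h1 (w0 + t • z) (by rw [e1]; exact ht)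
      rw [e1, q.line, q'.line] at h3
      have e2 : q'.f P (w0 + t • z) = q'.f P w0 + t * q'.f P z := by
        rw [map_add, map_smul, smul_eq_mul]
      rw [e2] at h3
      linear_combination h3
    set p : Polynomial K := (Polynomial.C (q.f w0 w0) + Polynomial.C (2 * q.f w0 z) * Polynomial.X +
      Polynomial.C (q.f z z) * Polynomial.X ^ 2) ^ 2 * Polynomial.C (q'.f P P) -
      Polynomial.X * (4 * (Polynomial.C (q.f w0 w0) + Polynomial.C (2 * q.f w0 z) *
        Polynomial.X + Polynomial.C (q.f z z) * Polynomial.X ^ 2) *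
        (Polynomial.C (q'.f P w0) + Polynomial.C (q'.f P z) * Polynomial.X) -
        4 * Polynomial.X * (Polynomial.C (q'.f w0 w0) + Polynomial.C (2 * q'.f w0 z) *
          Polynomial.X + Polynomial.C (q'.f z z) * Polynomial.X ^ 2)) with hp
    have hp0 : p ≠ 0 := by
      intro h0
      have h3 := congrArg (Polynomial.eval 0) h0
      simp only [hp, Polynomial.eval_sub, Polynomial.eval_mul, Polynomial.eval_pow,
        Polynomial.eval_add, Polynomial.eval_C, Polynomial.eval_X, Polynomial.eval_zero,
        mul_zero, zero_mul, add_zero, sub_zero, ne_eq, OfNat.ofNat_ne_zero, not_false_eq_true,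
        zero_pow] at h3
      exact mul_ne_zero (pow_ne_zero 2 hw0') hne h3
    have hfin := (Polynomial.finite_setOfPred_isRoot hp0).union (Set.finite_singleton (0 : K))
    have : Infinite K := Infinite.of_injective _ (Nat.cast_injective (R := K))
    obtain ⟨t, ht⟩ := hfin.infinite_compl.nonempty
    rw [Set.mem_compl_iff, Set.mem_union, not_or] at ht
    apply ht.1
    change Polynomial.eval t p = 0
    have h3 := h2 t ht.2
    simp only [hp, Polynomial.eval_sub, Polynomial.eval_mul, Polynomial.eval_pow,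
      Polynomial.eval_add, Polynomial.eval_C, Polynomial.eval_X, Polynomial.eval_ofNat]
    linear_combination h3
  have h2 : ∀ v, q.f P v ≠ 0 → q.f P v * q'.f v v = q.f v v * q'.f P v := by
    intro v hv
    have h3 := h1 v hv
    rw [hPP] at h3
    have h4 : 4 * q.f P v * (q.f P v * q'.f v v - q.f v v * q'.f P v) = 0 := by
      linear_combination h3
    exact sub_eq_zero.1 ((mul_eq_zero.1 h4).resolve_left (mul_ne_zero (by norm_num) hv))
  -- `q'.f P` vanishes on the orthogonal complement
  have h3 : ∀ w, q.f P w = 0 → q.f w w * q'.f P w = 0 := by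
    intro w hw
    have h4 : ∀ t : K, t ≠ 0 → (-(q.f w w * q'.f P w)) +
        t * (q'.f w w - 2 * q.f w z * q'.f P w - q.f w w * q'.f P z) +
        t ^ 2 * (2 * q'.f w z - q.f z z * q'.f P w - 2 * q.f w z * q'.f P z) +
        t ^ 3 * (q'.f z z - q.f z z * q'.f P z) = 0 := by
      intro t ht
      have e1 : q.f P (w + t • z) = t := by
        rw [map_add, map_smul, hw, hz, smul_eq_mul, mul_one, zero_add]
      have h5 := h2 (w + t • z) (by rw [e1]; exact ht)
      rw [e1, q.line, q'.line] at h5
      have e2 : q'.f P (w + t • z) = q'.f P w + t * q'.f P z := by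
        rw [map_add, map_smul, smul_eq_mul]
      rw [e2] at h5
      linear_combination h5
    linear_combination -(poly4 h4).1
  have h4 : ∀ w, q.f P w = 0 → q'.f P w = 0 := by
    have h5 : q'.f P w0 = 0 := (mul_eq_zero.1 (h3 w0 hw0)).resolve_left hw0'
    intro w hw
    by_contra hne
    have h6 := h3 (w0 + w) (by rw [map_add, hw0, hw, add_zero])
    have h7 := h3 (w0 + (-1 : K) • w) (by rw [map_add, map_smul, hw0, hw, smul_zero, add_zero])
    rw [q.add_add, map_add, h5, zero_add] at h6
    rw [q.line, map_add, map_smul, h5, zero_add] at h7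
    have h8 := h3 w hw
    have e1 : q.f w w = 0 := (mul_eq_zero.1 h8).resolve_right hne
    have e2 : q.f w0 w0 + 2 * q.f w0 w + q.f w w = 0 := (mul_eq_zero.1 h6).resolve_right hne
    have e3 : q.f w0 w0 + 2 * (-1) * q.f w0 w + (-1) ^ 2 * q.f w w = 0 :=
      (mul_eq_zero.1 h7).resolve_right (smul_ne_zero (by norm_num) hne)
    apply hw0'
    have : (2 : K) * q.f w0 w0 = 0 := by linear_combination e2 + e3 - 2 * e1
    exact (mul_eq_zero.1 this).resolve_left two_ne_zero
  have h5 : ∀ v, q'.f P v = q'.f P z * q.f P v := fun_mul hz h4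
  have h6 : ∀ v, q.f P v ≠ 0 → q'.f v v = q'.f P z * q.f v v := by
    intro v hv
    have h7 := h2 v hv
    rw [h5 v] at h7
    apply mul_left_cancel₀ hv
    linear_combination h7
  refine ⟨q'.f P z, fun v => ?_⟩
  by_cases hv : q.f P v = 0
  · have e1 := h6 (v + (1 : K) • z) (by rw [map_add, map_smul, hv, hz]; simp)
    have e2 := h6 (v + (-1 : K) • z) (by rw [map_add, map_smul, hv, hz]; simp)
    have e3 := h6 z (by rw [hz]; exact one_ne_zero)
    rw [q.line, q'.line] at e1 e2
    have : (2 : K) * (q'.f v v - q'.f P z * q.f v v) = 0 := by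
      linear_combination e1 + e2 - 2 * e3
    exact sub_eq_zero.1 ((mul_eq_zero.1 this).resolve_left two_ne_zero)
  · exact h6 v hv

end Pool.Agent.TH729.BQ
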