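import Pool.Agent.TH729.BQ.Loc

/-!
# Local ideals in a product of projective spaces
-/

set_option autoImplicit false
set_option linter.unusedSimpArgs false
set_option linter.unusedTactic false
set_option linter.unusedSectionVars false

namespace Pool.Agent.TH729.BQ

open Filter Topology MvPolynomial Pool.Agent.TH729.CV

universe u

variable {K : Type u} [Field K] [CharZero K] {n : ℕ}

lemma BH.one : BH (1 : MvPolynomial (Fin n ⊕ Fin 2) K) 0 0 := by
  intro R _ _ v T b c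
  simp [ev]

lemma BH.zero (d e : ℕ) : BH (0 : MvPolynomial (Fin n ⊕ Fin 2) K) d e := by
  intro R _ _ v T b c
  simp [ev]

lemma BH.sum {ι : Type*} (s : Finset ι) {g : ι → MvPolynomial (Fin n ⊕ Fin 2) K} {d e : ℕ}
    (h : ∀ i ∈ s, BH (g i) d e) : BH (∑ i ∈ s, g i) d e := by
  classical
  induction s using Finset.induction_on with
  | empty => exact BH.zero d e
  | insert i s hi ih =>
    rw [Finset.sum_insert hi]
    exact (h i (Finset.mem_insert_self _ _)).add (ih fun j hj => h j (Finset.mem_insert_of_mem hj))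

/-- the bidegree of a monomial -/
lemma exists_deg (m : (Fin n ⊕ Fin 2) →₀ ℕ) :
    ∃ k : ℕ × ℕ, ∀ c : K, BH (monomial m c) k.1 k.2 := by
  classical
  have h1 : ∀ s : Finset (Fin n ⊕ Fin 2), ∃ k : ℕ × ℕ,
      BH (∏ i ∈ s, (X i : MvPolynomial (Fin n ⊕ Fin 2) K) ^ m i) k.1 k.2 := by
    intro s
    induction s using Finset.induction_on with
    | empty => exact ⟨(0, 0), BH.one⟩
    | insert i s hi ih =>
      obtain ⟨k, hk⟩ := ih
      rw [Finset.prod_insert hi]
      rcases i with i | j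
      · exact ⟨(m (Sum.inl i) * 1 + k.1, m (Sum.inl i) * 0 + k.2), ((BH.inl i).pow _).mul hk⟩
      · exact ⟨(m (Sum.inr j) * 0 + k.1, m (Sum.inr j) * 1 + k.2), ((BH.inr j).pow _).mul hk⟩
  obtain ⟨k, hk⟩ := h1 m.support
  refine ⟨(0 + k.1, 0 + k.2), fun c => ?_⟩
  rw [monomial_eq]
  exact (BH.const c).mul hk

/-- bihomogeneous components -/
lemma exists_comp (f : MvPolynomial (Fin n ⊕ Fin 2) K) :
    ∃ (S : Finset (ℕ × ℕ)) (g : ℕ × ℕ → MvPolynomial (Fin n ⊕ Fin 2) K),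
      (∀ k, BH (g k) k.1 k.2) ∧ f = ∑ k ∈ S, g k := by
  classical
  choose dg hdg using exists_deg (K := K) (n := n)
  refine ⟨f.support.image dg, fun k => ∑ m ∈ f.support with dg m = k, monomial m (coeff m f),
    fun k => BH.sum _ fun m hm => ?_, ?_⟩
  · have := (Finset.mem_filter.1 hm).2
    rw [← this]
    exact hdg m _
  · conv_lhs => rw [f.as_sum]
    exact (Finset.sum_fiberwise_of_maps_to (fun m hm => Finset.mem_image_of_mem dg hm) _).symm

/-- separation of the components -/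
lemma sep_comp {S : Finset (ℕ × ℕ)} {c : ℕ × ℕ → K}
    (h : ∀ a b : K, ∑ k ∈ S, a ^ k.1 * b ^ k.2 * c k = 0) : ∀ k ∈ S, c k = 0 := by
  classical
  have hinf := inf_K (K := K)
  intro k hk
  set φ : ℕ × ℕ → (Fin 2 →₀ ℕ) := fun k => Finsupp.single 0 k.1 + Finsupp.single 1 k.2 with hφ
  have hinj : Function.Injective φ := by
    intro k k' h
    have h0 := DFunLike.congr_fun h 0
    have h1 := DFunLike.congr_fun h 1
    simp [hφ] at h0 h1
    exact Prod.ext h0 h1
  have h1 : (∑ k ∈ S, monomial (φ k) (c k) : MvPolynomial (Fin 2) K) = 0 := by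
    refine MvPolynomial.funext fun x => ?_
    rw [map_sum, map_zero, ← h (x 0) (x 1)]
    refine Finset.sum_congr rfl fun k _ => ?_
    rw [eval_monomial, hφ]
    simp only
    rw [Finsupp.prod_add_index' (by simp) (by intro a b c; rw [pow_add]),
      Finsupp.prod_single_index (by simp), Finsupp.prod_single_index (by simp)]
    ring
  have h2 := congrArg (coeff (φ k)) h1
  rw [coeff_sum, coeff_zero] at h2
  rw [← h2, Finset.sum_eq_single k]
  · rw [coeff_monomial, if_pos rfl]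
  · intro k' _ hne
    rw [coeff_monomial, if_neg fun h => hne (hinj h)]
  · intro h
    exact (h hk).elim

lemma wedge_trans {T R S : Fin 2 → K} (hR : R ≠ 0) (h1 : wedge T R = 0) (h2 : wedge R S = 0) :
    wedge T S = 0 := by
  have h3 := wedge_dec T S R
  rw [h2, h1, zero_smul, zero_smul, add_zero] at h3
  exact (smul_eq_zero.1 h3).resolve_right hR

lemma exists_par {T R : Fin 2 → K} (hR : R ≠ 0) (h : wedge T R = 0) : ∃ c : K, T = c • R := by
  obtain ⟨S, hS⟩ := exists_wedge hR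
  refine ⟨(wedge R S)⁻¹ * wedge T S, ?_⟩
  have h3 := wedge_dec R S T
  rw [wedge_neg T R, h, neg_zero, zero_smul, add_zero] at h3
  rw [mul_smul, ← h3, smul_smul, inv_mul_cancel₀ hS, one_smul]

variable {L : Type*} [NontriviallyNormedField L] [CompleteSpace L] [CharZero L]

lemma wedge_map (σ : K →+* L) (T R : Fin 2 → K) :
    wedge (fun i => σ (T i)) (fun i => σ (R i)) = σ (wedge T R) := by
  simp [wedge]

/-- scaling by an element of the dense subfield -/
lemma exists_scale (σ : K →+* L) (hσ : DenseRange σ) {ι : Type*} [Finite ι] {U : Set (ι → L)}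
    (hU : IsOpen U) {Y : ι → K} {c : L} (hc : c ≠ 0) (h : (fun i => c * σ (Y i)) ∈ U) :
    ∃ c' : K, c' ≠ 0 ∧ (fun i => σ (c' * Y i)) ∈ U := by
  have hcont : Continuous fun c : L => (fun i => c * σ (Y i) : ι → L) :=
    continuous_pi fun i => continuous_id.mul continuous_const
  obtain ⟨c', hc1, hc2⟩ := hσ.exists_mem_open ((hU.preimage hcont).inter isOpen_compl_singleton)
    ⟨c, h, hc⟩
  refine ⟨c', fun h0 => hc2 (by simp [h0]), ?_⟩
  have h1 : (fun i => σ c' * σ (Y i)) ∈ U := hc1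
  have h2 : (fun i => σ (c' * Y i)) = fun i => σ c' * σ (Y i) := by
    funext i
    rw [map_mul]
  rw [h2]
  exact h1

/-- the local ideal at a point of the product of two projective spaces -/
def IB (σ : K →+* L) (D : (Fin n → K) → (Fin 2 → K) → Prop) (x : Fin n → L) (s : Fin 2 → L) :
    Set (MvPolynomial (Fin n ⊕ Fin 2) K) :=
  {f | ∃ U ∈ 𝓝 x, ∃ V ∈ 𝓝 s, ∀ (Y : Fin n → K) (T : Fin 2 → K), Y ≠ 0 → T ≠ 0 → D Y T →
    (∃ c : L, c ≠ 0 ∧ (fun i => c * σ (Y i)) ∈ U) →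
    (∃ c : L, c ≠ 0 ∧ (fun i => c * σ (T i)) ∈ V) →
      ∀ a b : K, eval (Sum.elim (a • Y) (b • T)) f = 0}

lemma ev_self (f : MvPolynomial (Fin n ⊕ Fin 2) K) (Y : Fin n → K) (T : Fin 2 → K) :
    ev f Y T = eval (Sum.elim Y T) f := by
  rw [ev, aeval_eq_eval]

/-- the quadratic polynomial of a quadratic form -/
lemma exists_quad' (q : SB K n) : ∃ g : MvPolynomial (Fin n) K,
    g.totalDegree ≤ 2 ∧ ∀ y, eval y g = q.f y y := by
  refine ⟨∑ i, ∑ j, C (q.f (Pi.single i 1) (Pi.single j 1)) * (X i * X j), ?_, fun y => ?_⟩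
  · refine totalDegree_finsetSum_le fun i _ => totalDegree_finsetSum_le fun j _ => ?_
    refine (totalDegree_mul _ _).trans ?_
    rw [totalDegree_C, zero_add]
    refine (totalDegree_mul _ _).trans ?_
    rw [totalDegree_X, totalDegree_X]
  · rw [q.sum]
    simp only [map_sum, map_mul, eval_C, eval_X]
    refine Finset.sum_congr rfl fun i _ => Finset.sum_congr rfl fun j _ => ?_
    ring

/-- substitution -/
lemma exists_sub' (f : MvPolynomial (Fin n ⊕ Fin 2) K) (a b : K) (R : Fin 2 → K) :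
    ∃ g : MvPolynomial (Fin n) K, ∀ Y, eval Y g = eval (Sum.elim (a • Y) (b • R)) f := by
  refine ⟨aeval (Sum.elim (fun i => C a * X i) fun j => C (b * R j)) f, fun Y => ?_⟩
  have h1 : ∀ p : MvPolynomial (Fin n) K, eval Y p = aeval Y p := fun p => by rw [aeval_eq_eval]
  rw [h1, MvPolynomial.comp_aeval_apply, ← aeval_eq_eval]
  congr 1
  congr 1
  funext i
  rcases i with i | j
  · simp
  · simp

section

variable (σ : K →+* L) (hσ : DenseRange σ)
  {F : Fam K n} (hF : F.Ind) (hn : 3 ≤ n) {𝓑 : Finset (Fin 2 → K)} (h𝓑 : ∀ R ∈ 𝓑, R ≠ 0)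
  (hbad : ∀ T, (∀ R ∈ 𝓑, wedge T R ≠ 0) → (F.H T T).ND)

include hσ hF hn h𝓑 hbad

lemma IB_good {x : Fin n → L} {s : Fin 2 → L}
    (hx : ∀ U ∈ 𝓝 x, ∀ V ∈ 𝓝 s, ∃ Y T, F.Good Y T ∧
      (∃ c : L, c ≠ 0 ∧ (fun i => c * σ (Y i)) ∈ U) ∧
      (∃ c : L, c ≠ 0 ∧ (fun i => c * σ (T i)) ∈ V))
    {f : MvPolynomial (Fin n ⊕ Fin 2) K}
    (hf : f ∈ IB σ (fun Y T => (F.H T T).f Y Y = 0) x s) :
    ∀ (Y : Fin n → K) (T : Fin 2 → K), Y ≠ 0 → T ≠ 0 → (F.H T T).f Y Y = 0 →
      ∀ a b : K, eval (Sum.elim (a • Y) (b • T)) f = 0 := by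
  obtain ⟨U, hU, V, hV, hUV⟩ := hf
  obtain ⟨U', hU', hU'o, hxU'⟩ := mem_nhds_iff.1 hU
  obtain ⟨V', hV', hV'o, hsV'⟩ := mem_nhds_iff.1 hV
  obtain ⟨Y0, T0, hg, ⟨c, hc, hcU⟩, ⟨d, hd, hdV⟩⟩ := hx U' (hU'o.mem_nhds hxU') V'
    (hV'o.mem_nhds hsV')
  obtain ⟨c', hc', hcU'⟩ := exists_scale σ hσ hU'o hc hcU
  obtain ⟨d', hd', hdV'⟩ := exists_scale σ hσ hV'o hd hdV
  have hT0 := hg.ne
  -- the good point
  have hY1 : c' • Y0 ≠ 0 := smul_ne_zero hc' hg.1
  have hT1 : d' • T0 ≠ 0 := smul_ne_zero hd' hT0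
  have hgood : F.Good (c' • Y0) (d' • T0) := by
    refine ⟨hY1, ?_, ?_⟩
    · rw [F.H_smul]
      simp only [map_smul, LinearMap.smul_apply, smul_eq_mul, hg.2.1, mul_zero]
    · intro v hv
      refine hg.2.2 v fun w => ?_
      have := hv w
      rw [F.H_smul] at this
      exact (mul_eq_zero.1 this).resolve_left (pow_ne_zero 2 hd')
  obtain ⟨S, g, hg1, hg2⟩ := exists_comp f
  have hval : ∀ (Y : Fin n → K) (T : Fin 2 → K) (a b : K),
      eval (Sum.elim (a • Y) (b • T)) f = ∑ k ∈ S, a ^ k.1 * b ^ k.2 * ev (g k) Y T := by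
    intro Y T a b
    rw [← ev_self, hg2, ev, map_sum]
    exact Finset.sum_congr rfl fun k _ => hg1 k K Y T a b
  have hcomp : ∀ k ∈ S, ∀ (Y : Fin n → K) (T : Fin 2 → K), Y ≠ 0 → T ≠ 0 →
      (F.H T T).f Y Y = 0 → ev (g k) Y T = 0 := by
    intro k hk Y T hY hT h0
    refine main' σ hσ F hF hn h𝓑 hbad hgood (hg1 k) (N := U') (M := V' ∩ {0}ᶜ)
      (hU'o.mem_nhds hcU') (inter_mem (hV'o.mem_nhds hdV') (isOpen_compl_singleton.mem_nhds ?_))
      ?_ hY hT h0
    · intro h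
      apply hT1
      funext i
      have := congrFun h i
      simp only [Pi.zero_apply, map_eq_zero] at this
      exact this
    · intro Y' T' hY'U hT'V hY' h0'
      have hT' : T' ≠ 0 := by
        rintro rfl
        apply hT'V.2
        funext i
        simp
      refine sep_comp (c := fun k => ev (g k) Y' T') (fun a b => ?_) k hk
      rw [← hval]
      exact hUV Y' T' hY' hT' h0' ⟨1, one_ne_zero, by simpa only [one_mul] using hU' hY'U⟩
        ⟨1, one_ne_zero, by simpa only [one_mul] using hV' hT'V.1⟩ a b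
  intro Y T hY hT h0 a b
  rw [hval]
  exact Finset.sum_eq_zero fun k hk => by rw [hcomp k hk Y T hY hT h0, mul_zero]

/-- **finitely many local ideals** -/
theorem fin_IB [ProperSpace L] : {J : Set (MvPolynomial (Fin n ⊕ Fin 2) K) |
    ∃ (x : Fin n → L) (s : Fin 2 → L), x ≠ 0 ∧ s ≠ 0 ∧
      J = IB σ (fun Y T => (F.H T T).f Y Y = 0) x s}.Finite := by
  classical
  set J0 : Set (MvPolynomial (Fin n ⊕ Fin 2) K) := {f | ∀ (Y : Fin n → K) (T : Fin 2 → K), Y ≠ 0 →
    T ≠ 0 → (F.H T T).f Y Y = 0 → ∀ a b : K, eval (Sum.elim (a • Y) (b • T)) f = 0} with hJ0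
  set DR : (Fin 2 → K) → Set (Fin n → K) := fun R => {y | (F.H R R).f y y = 0} with hDR
  have hDRf : ∀ R, FA σ (DR R) := by
    intro R
    obtain ⟨q, hq, hq'⟩ := exists_quad' (F.H R R)
    have h1 := FA.block σ hσ (f := q) (g := 0) (Or.inl ⟨hq, by simp⟩)
    convert h1 using 1
    ext y
    simp only [hDR, Set.mem_ofPred_eq, hq', map_zero, and_true]
  set Ψ : (Fin 2 → K) → Ideal (MvPolynomial (Fin n) K) → Set (MvPolynomial (Fin n ⊕ Fin 2) K) :=
    fun R I => {f | ∀ a b : K, ∀ g : MvPolynomial (Fin n) K,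
      (∀ Y, eval Y g = eval (Sum.elim (a • Y) (b • R)) f) → g ∈ I} with hΨ
  refine Set.Finite.subset (s := {J0} ∪ ({Set.univ} ∪ ⋃ R ∈ 𝓑, Ψ R '' (Set.range fun x : Fin n → L =>
    IA σ (DR R) x))) ?_ ?_
  · refine (Set.finite_singleton _).union ((Set.finite_singleton _).union ?_)
    exact Set.Finite.biUnion 𝓑.finite_toSet fun R _ => (hDRf R).image _
  rintro _ ⟨x, s, hx, hs, rfl⟩
  by_cases hgood : ∀ U ∈ 𝓝 x, ∀ V ∈ 𝓝 s, ∃ Y T, F.Good Y T ∧
      (∃ c : L, c ≠ 0 ∧ (fun i => c * σ (Y i)) ∈ U) ∧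
      (∃ c : L, c ≠ 0 ∧ (fun i => c * σ (T i)) ∈ V)
  · left
    rw [Set.mem_singleton_iff]
    ext f
    constructor
    · intro hf
      exact IB_good σ hσ hF hn h𝓑 hbad hgood hf
    · intro hf
      exact ⟨Set.univ, Filter.univ_mem, Set.univ, Filter.univ_mem,
        fun Y T hY hT h0 _ _ => hf Y T hY hT h0⟩
  right
  push Not at hgood
  obtain ⟨U, hU, V, hV, hUV⟩ := hgood
  -- the bad fibres which are far away
  obtain ⟨V', hV', hV'R⟩ : ∃ V' ∈ 𝓝 s, ∀ z ∈ V', ∀ R ∈ 𝓑, wedge s (fun i => σ (R i)) ≠ 0 →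
      wedge z (fun i => σ (R i)) ≠ 0 := by
    have h1 : ∀ᶠ z in 𝓝 s, ∀ R ∈ 𝓑, wedge s (fun i => σ (R i)) ≠ 0 →
        wedge z (fun i => σ (R i)) ≠ 0 := by
      rw [Filter.eventually_all_finset]
      intro R _
      by_cases h : wedge s (fun i => σ (R i)) = 0
      · exact Eventually.of_forall fun z hz => (hz h).elim
      · have hc : Continuous fun z : Fin 2 → L => wedge z (fun i => σ (R i)) := by
          unfold wedge
          fun_prop
        filter_upwards [hc.continuousAt.eventually_ne h] with z hz _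
        exact hz
    exact ⟨_, h1, fun z hz => hz⟩
  have hclose : ∀ (Y : Fin n → K) (T : Fin 2 → K), Y ≠ 0 → T ≠ 0 → (F.H T T).f Y Y = 0 →
      (∃ c : L, c ≠ 0 ∧ (fun i => c * σ (Y i)) ∈ U) →
      (∃ c : L, c ≠ 0 ∧ (fun i => c * σ (T i)) ∈ V ∩ V') →
      ∃ R ∈ 𝓑, wedge T R = 0 ∧ wedge s (fun i => σ (R i)) = 0 := by
    rintro Y T hY hT h0 hYU ⟨c, hc, hcV, hcV'⟩
    have h1 : ¬(F.H T T).ND := by
      intro h
      exact hUV Y T ⟨hY, h0, h⟩ hYU c hc hcV
    have h2 : ¬∀ R ∈ 𝓑, wedge T R ≠ 0 := fun h => h1 (hbad T h)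
    push Not at h2
    obtain ⟨R, hR, hR0⟩ := h2
    refine ⟨R, hR, hR0, ?_⟩
    by_contra hne
    have h3 := hV'R _ hcV' R hR hne
    apply h3
    have h4 : (fun i => c * σ (T i)) = c • fun i => σ (T i) := rfl
    rw [h4, wedge_smul, wedge_map, hR0, map_zero, mul_zero]
  by_cases hex : ∃ R ∈ 𝓑, wedge s (fun i => σ (R i)) = 0
  · right
    obtain ⟨R0, hR0, hsR0⟩ := hex
    rw [Set.mem_iUnion₂]
    refine ⟨R0, hR0, IA σ (DR R0) x, ⟨x, rfl⟩, ?_⟩
    have hR0ne := h𝓑 R0 hR0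
    -- the parallel bad fibres
    have hpar : ∀ (Y : Fin n → K) (T : Fin 2 → K), Y ≠ 0 → T ≠ 0 → (F.H T T).f Y Y = 0 →
        (∃ c : L, c ≠ 0 ∧ (fun i => c * σ (Y i)) ∈ U) →
        (∃ c : L, c ≠ 0 ∧ (fun i => c * σ (T i)) ∈ V ∩ V') → ∃ c : K, c ≠ 0 ∧ T = c • R0 := by
      intro Y T hY hT h0 hYU hTV
      obtain ⟨R, hR, hTR, hsR⟩ := hclose Y T hY hT h0 hYU hTV
      have h1 : wedge (fun i => σ (R i)) (fun i => σ (R0 i)) = 0 := by
        refine wedge_trans hs ?_ hsR0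
        rw [wedge_neg, hsR, neg_zero]
      rw [wedge_map, map_eq_zero] at h1
      have h2 : wedge T R0 = 0 := wedge_trans (h𝓑 R hR) hTR h1
      obtain ⟨c, hc⟩ := exists_par hR0ne h2
      refine ⟨c, ?_, hc⟩
      rintro rfl
      exact hT (by rw [hc, zero_smul])
    have hσR0 : (fun i => σ (R0 i)) ≠ 0 := by
      intro h
      apply hR0ne
      funext i
      have := congrFun h i
      simp only [Pi.zero_apply, map_eq_zero] at this
      exact this
    obtain ⟨μ, hμ⟩ := exists_par hσR0 hsR0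
    have hμ0 : μ ≠ 0 := by
      rintro rfl
      exact hs (by rw [hμ, zero_smul])
    ext f
    constructor
    · -- from the affine local ideal
      intro hf
      have hst := IA_stab σ (DR R0) x
      obtain ⟨W, hW, hWo, hxW⟩ := mem_nhds_iff.1 hst
      refine ⟨U ∩ W, inter_mem hU (hWo.mem_nhds hxW), V ∩ V', inter_mem hV hV', ?_⟩
      rintro Y T hY hT h0 ⟨c, hc, hcU, hcW⟩ hTV a b
      obtain ⟨c1, hc1, rfl⟩ := hpar Y T hY hT h0 ⟨c, hc, hcU⟩ hTV
      obtain ⟨c', hc', hcW'⟩ := exists_scale σ hσ hWo hc hcW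
      obtain ⟨g, hg⟩ := exists_sub' f (a * c'⁻¹) (b * c1) R0
      have h1 : g ∈ IA σ (DR R0) x := hf _ _ g hg
      have h2 : c' • Y ∈ DR R0 := by
        rw [F.H_smul] at h0
        have h3 := (mul_eq_zero.1 h0).resolve_left (pow_ne_zero 2 hc1)
        show (F.H R0 R0).f (c' • Y) (c' • Y) = 0
        simp only [map_smul, LinearMap.smul_apply, smul_eq_mul, h3, mul_zero]
      have h3 := hW hcW' (c' • Y) h2 rfl g h1
      rw [hg, smul_smul, mul_assoc, inv_mul_cancel₀ hc', mul_one] at h3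
      rw [smul_smul]
      exact h3
    · rintro ⟨U1, hU1, V1, hV1, hUV1⟩ a b g hg
      rw [mem_IA]
      filter_upwards [hU1, isOpen_compl_singleton.mem_nhds hx] with z hz1 hz2 Y hY hYz
      rw [hg]
      have hY0 : Y ≠ 0 := by
        rintro rfl
        apply hz2
        rw [Set.mem_singleton_iff, ← hYz]
        funext i
        simp
      refine hUV1 Y R0 hY0 hR0ne hY ⟨1, one_ne_zero, ?_⟩ ⟨μ, hμ0, ?_⟩ a b
      · simp only [one_mul]
        rw [hYz]
        exact hz1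
      · have : (fun i => μ * σ (R0 i)) = s := by
          rw [hμ]
          rfl
        rw [this]
        exact mem_of_mem_nhds hV1
  · left
    rw [Set.mem_singleton_iff, Set.eq_univ_iff_forall]
    intro f
    refine ⟨U, hU, V ∩ V', inter_mem hV hV', ?_⟩
    intro Y T hY hT h0 hYU hTV
    obtain ⟨R, hR, -, hsR⟩ := hclose Y T hY hT h0 hYU hTV
    exact (hex ⟨R, hR, hsR⟩).elim

end

end Pool.Agent.TH729.BQ
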