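import Pool.Agent.TH729.BQ.Poly
import Mathlib.Analysis.Normed.Field.Basic
import Mathlib.Topology.Algebra.Module.FiniteDimension

/-!
# Density of the zeros of isotropic quadratic forms
-/

set_option autoImplicit false
set_option linter.unusedSimpArgs false
set_option linter.unusedTactic false
set_option linter.unusedSectionVars false

namespace Pool.Agent.TH729.BQ

open Polynomial Filter Topology

universe u

variable {K : Type u} {n : ℕ}

section

variable [Field K] [CharZero K]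

/-- homogeneous polynomial functions -/
def PolyH (G : (Fin n → K) → K) : Prop :=
  (∃ d : ℕ, ∀ (s : K) v, G (s • v) = s ^ d * G v) ∧
    ∀ c : Fin n → K[X], ∃ p : K[X], ∀ t, p.eval t = G fun i => (c i).eval t

lemma PolyH.one : PolyH fun _ : Fin n → K => (1 : K) :=
  ⟨⟨0, fun s v => by simp⟩, fun c => ⟨1, fun t => by simp⟩⟩

lemma PolyH.mul {G G' : (Fin n → K) → K} (h : PolyH G) (h' : PolyH G') :
    PolyH fun v => G v * G' v := by
  obtain ⟨⟨d, h1⟩, h2⟩ := h
  obtain ⟨⟨d', h1'⟩, h2'⟩ := h'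
  refine ⟨⟨d + d', fun s v => ?_⟩, fun c => ?_⟩
  · show G (s • v) * G' (s • v) = s ^ (d + d') * (G v * G' v)
    rw [h1, h1', pow_add]
    ring
  · obtain ⟨p, hp⟩ := h2 c
    obtain ⟨p', hp'⟩ := h2' c
    exact ⟨p * p', fun t => by
      show (p * p').eval t = G (fun i => (c i).eval t) * G' fun i => (c i).eval t
      rw [eval_mul, hp, hp']⟩

lemma SB.sum (q : SB K n) (a b : Fin n → K) :
    q.f a b = ∑ i, ∑ j, a i * b j * q.f (Pi.single i 1) (Pi.single j 1) := by
  have e1 : ∀ x : Fin n → K, x = ∑ i, x i • (Pi.single i 1 : Fin n → K) := fun x => by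
    ext j
    simp [Finset.sum_apply, Pi.single_apply]
  conv_lhs => rw [e1 a, e1 b]
  simp only [map_sum, map_smul, LinearMap.sum_apply, LinearMap.smul_apply, smul_eq_mul,
    Finset.mul_sum]
  rw [Finset.sum_comm]
  refine Finset.sum_congr rfl fun i _ => Finset.sum_congr rfl fun j _ => ?_
  ring

lemma SB.polyH (q : SB K n) : PolyH fun v => q.f v v := by
  refine ⟨⟨2, fun s v => ?_⟩, fun c => ⟨∑ i, ∑ j, c i * c j *
    C (q.f (Pi.single i 1) (Pi.single j 1)), fun t => ?_⟩⟩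
  · simp only [map_smul, LinearMap.smul_apply, smul_eq_mul]
    ring
  · show _ = q.f (fun i => (c i).eval t) fun i => (c i).eval t
    rw [q.sum]
    simp only [eval_finsetSum, eval_mul, eval_C]

lemma ev_polyH (f : MvPolynomial (Fin n ⊕ Fin 2) K) {d e : ℕ} (hf : BH f d e) (T : Fin 2 → K) :
    PolyH fun v : Fin n → K => ev f v T := by
  refine ⟨⟨d, fun s v => ?_⟩, fun c => ⟨ev f c fun j => C (T j), fun t => ?_⟩⟩
  · have := hf K v T s 1
    rwa [one_smul, one_pow, mul_one] at this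
  · have := ev_map (aeval t : K[X] →ₐ[K] K) f c fun j => C (T j)
    simp only [coe_aeval_eq_eval, eval_C] at this
    exact this

/-- not vanishing at the zeros -/
def NV (q : SB K n) (P : Fin n → K) (G : (Fin n → K) → K) : Prop :=
  ∃ Z, q.f Z Z = 0 ∧ q.f P Z ≠ 0 ∧ G Z ≠ 0

/-- the polynomial on a chord curve -/
lemma ch_poly (q : SB K n) (P u w : Fin n → K) {G : (Fin n → K) → K} (hG : PolyH G) :
    ∃ p : K[X], ∀ t, p.eval t = G (q.ch P (u + t • w)) := by
  obtain ⟨p, hp⟩ := hG.2 fun i => (C (q.f u u) + C (2 * q.f u w) * X + C (q.f w w) * X ^ 2) *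
    C (P i) - 2 * (C (q.f P u) + C (q.f P w) * X) * (C (u i) + C (w i) * X)
  refine ⟨p, fun t => ?_⟩
  rw [hp]
  congr 1
  funext i
  have e1 := q.line u w t
  have e2 : q.f P (u + t • w) = q.f P u + t * q.f P w := by rw [map_add, map_smul, smul_eq_mul]
  rw [SB.ch, e1, e2]
  simp only [eval_sub, eval_mul, eval_add, eval_C, eval_X, eval_pow, eval_ofNat, Pi.sub_apply,
    Pi.smul_apply, Pi.add_apply, smul_eq_mul]
  ring

lemma inf_K : Infinite K := Infinite.of_injective _ (Nat.cast_injective (R := K))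

/-- the polynomial on a chord curve does not vanish -/
lemma ch_ne (q : SB K n) {P Z : Fin n → K} {G : (Fin n → K) → K} (hG : PolyH G)
    (h1 : q.f Z Z = 0) (h2 : q.f P Z ≠ 0) (h3 : G Z ≠ 0) (w : Fin n → K) (p : K[X])
    (hp : ∀ t, p.eval t = G (q.ch P (w + t • Z))) : p ≠ 0 := by
  rintro rfl
  obtain ⟨d, hd⟩ := hG.1
  obtain ⟨p', hp'⟩ := ch_poly q P Z w hG
  have h4 : ∀ t : K, t ≠ 0 → p'.eval t = 0 := by
    intro t ht
    rw [hp']
    have h5 := hp t⁻¹
    rw [eval_zero] at h5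
    have h6 : Z + t • w = t • (w + t⁻¹ • Z) := by
      rw [smul_add, smul_smul, mul_inv_cancel₀ ht, one_smul, add_comm]
    rw [h6, SB.ch_smul, hd, ← h5, mul_zero]
  have h5 : p' = 0 := by
    by_contra hne
    have := inf_K (K := K)
    obtain ⟨t, ht⟩ := ((Polynomial.finite_setOfPred_isRoot hne).union
      (Set.finite_singleton (0 : K))).infinite_compl.nonempty
    rw [Set.mem_compl_iff, Set.mem_union, not_or] at ht
    exact ht.1 (h4 t ht.2)
  have h6 := hp' 0
  rw [h5, eval_zero, zero_smul, add_zero, q.ch_of_zero h1, hd] at h6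
  exact mul_ne_zero (pow_ne_zero d (neg_ne_zero.2 (mul_ne_zero two_ne_zero h2))) h3 h6.symm

lemma NV.mul {q : SB K n} {P : Fin n → K} (hP : q.f P P = 0) {G G' : (Fin n → K) → K}
    (hG : PolyH G) (hG' : PolyH G') (h : NV q P G) (h' : NV q P G') :
    NV q P fun v => G v * G' v := by
  obtain ⟨Z, h1, h2, h3⟩ := h
  obtain ⟨Z', h1', h2', h3'⟩ := h'
  obtain ⟨p, hp⟩ := ch_poly q P Z Z' hG
  obtain ⟨p', hp'⟩ := ch_poly q P Z Z' hG'
  have e1 : p ≠ 0 := by
    rintro rfl
    obtain ⟨d, hd⟩ := hG.1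
    have h6 := hp 0
    rw [eval_zero, zero_smul, add_zero, q.ch_of_zero h1, hd] at h6
    exact mul_ne_zero (pow_ne_zero d (neg_ne_zero.2 (mul_ne_zero two_ne_zero h2))) h3 h6.symm
  have e2 : p' ≠ 0 := ch_ne q hG' h1' h2' h3' Z p' hp'
  have e3 : (C (q.f P Z) + C (q.f P Z') * X : K[X]) ≠ 0 := by
    intro h0
    have h7 := congrArg (eval 0) h0
    simp at h7
    exact h2 h7
  have := inf_K (K := K)
  obtain ⟨t, ht⟩ := (Polynomial.finite_setOfPred_isRoot
    (mul_ne_zero (mul_ne_zero e1 e2) e3)).infinite_compl.nonempty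
  have ht' : (p * p' * (C (q.f P Z) + C (q.f P Z') * X)).eval t ≠ 0 := ht
  rw [eval_mul, eval_mul, hp, hp'] at ht'
  simp only [eval_add, eval_mul, eval_C, eval_X] at ht'
  obtain ⟨h8, h9⟩ := mul_ne_zero_iff.1 ht'
  refine ⟨q.ch P (Z + t • Z'), q.ch_zero hP _, ?_, h8⟩
  rw [q.f_ch hP, map_add, map_smul, smul_eq_mul]
  refine mul_ne_zero (by norm_num) (pow_ne_zero 2 ?_)
  rwa [mul_comm t]

lemma NV.prod {q : SB K n} {P : Fin n → K} (hP : q.f P P = 0) {ι : Type*} (s : Finset ι)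
    {G : ι → (Fin n → K) → K} (hG : ∀ i, PolyH (G i)) (h0 : NV q P fun _ => 1)
    (h : ∀ i ∈ s, NV q P (G i)) :
    PolyH (fun v => ∏ i ∈ s, G i v) ∧ NV q P fun v => ∏ i ∈ s, G i v := by
  classical
  induction s using Finset.induction_on with
  | empty => exact ⟨by simpa using PolyH.one, by simpa using h0⟩
  | insert i s hi ih =>
    obtain ⟨h1, h2⟩ := ih fun j hj => h j (Finset.mem_insert_of_mem hj)
    simp only [Finset.prod_insert hi]
    exact ⟨(hG i).mul h1, NV.mul hP (hG i) h1 (h i (Finset.mem_insert_self _ _)) h2⟩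

end

variable [NontriviallyNormedField K] [CharZero K]

lemma SB.cont (q : SB K n) {X : Type*} [TopologicalSpace X] {a b : X → Fin n → K}
    (ha : Continuous a) (hb : Continuous b) : Continuous fun x => q.f (a x) (b x) := by
  have : (fun x => q.f (a x) (b x)) = fun x => ∑ i, ∑ j, a x i * b x j *
      q.f (Pi.single i 1) (Pi.single j 1) := by
    funext x
    exact q.sum _ _
  rw [this]
  refine continuous_finsetSum _ fun i _ => continuous_finsetSum _ fun j _ => ?_
  exact (((continuous_apply i).comp ha).mul ((continuous_apply j).comp hb)).mul continuous_const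

lemma ev_roots {p : K[X]} (hp : p ≠ 0) (a : K) : ∀ᶠ t in 𝓝[≠] a, p.eval t ≠ 0 := by
  have h1 : ({t | p.IsRoot t} \ {a}).Finite := (Polynomial.finite_setOfPred_isRoot hp).subset
    Set.sdiff_subset
  have h2 : ({t | p.IsRoot t} \ {a})ᶜ ∈ 𝓝 a := h1.isClosed.isOpen_compl.mem_nhds fun h => h.2 rfl
  filter_upwards [nhdsWithin_le_nhds h2, self_mem_nhdsWithin] with t ht ht'
  exact fun h => ht ⟨h, ht'⟩

/-- **zeros near a zero** -/
theorem near (q : SB K n) (hq : q.ND) (hn : 3 ≤ n) {P : Fin n → K} (hP : P ≠ 0)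
    (hP0 : q.f P P = 0) {G : (Fin n → K) → K} (hG : PolyH G) (hnv : NV q P G)
    {N : Set (Fin n → K)} (hN : N ∈ 𝓝 P) : ∃ Y ∈ N, q.f Y Y = 0 ∧ G Y ≠ 0 := by
  obtain ⟨Z, h1, h2, h3⟩ := hnv
  obtain ⟨w, hw, hw'⟩ := q.exists_perp hq hn hP
  obtain ⟨p, hp⟩ := ch_poly q P w Z hG
  have hp0 : p ≠ 0 := ch_ne q hG h1 h2 h3 w p hp
  have hc1 : Continuous fun t : K => q.f (w + t • Z) (w + t • Z) :=
    q.cont (by fun_prop) (by fun_prop)
  have hc2 : Continuous fun t : K => q.f P (w + t • Z) := q.cont continuous_const (by fun_prop)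
  have hlim : Tendsto (fun t : K => (q.f (w + t • Z) (w + t • Z))⁻¹ • q.ch P (w + t • Z)) (𝓝 0)
      (𝓝 P) := by
    have e1 : Tendsto (fun t : K => (q.f (w + t • Z) (w + t • Z))⁻¹) (𝓝 0) (𝓝 (q.f w w)⁻¹) := by
      have := hc1.tendsto 0
      rw [zero_smul, add_zero] at this
      exact this.inv₀ hw'
    have e2 : Tendsto (fun t : K => q.ch P (w + t • Z)) (𝓝 0) (𝓝 (q.f w w • P)) := by
      have e3 : Continuous fun t : K => q.ch P (w + t • Z) := by
        unfold SB.ch
        exact (hc1.smul continuous_const).sub ((continuous_const.mul hc2).smul (by fun_prop))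
      have := e3.tendsto 0
      rw [zero_smul, add_zero, SB.ch, hw, mul_zero, zero_smul, sub_zero] at this
      exact this
    have := e1.smul e2
    rwa [smul_smul, inv_mul_cancel₀ hw', one_smul] at this
  have hev1 : ∀ᶠ t in 𝓝[≠] (0 : K), (q.f (w + t • Z) (w + t • Z))⁻¹ • q.ch P (w + t • Z) ∈ N :=
    nhdsWithin_le_nhds (hlim.eventually hN)
  have hev2 : ∀ᶠ t in 𝓝[≠] (0 : K), q.f (w + t • Z) (w + t • Z) ≠ 0 := by
    refine nhdsWithin_le_nhds (hc1.continuousAt.eventually_ne ?_)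
    rwa [zero_smul, add_zero]
  obtain ⟨t, ht1, ht2, ht3⟩ := (hev1.and (hev2.and (ev_roots hp0 0))).exists
  refine ⟨_, ht1, ?_, ?_⟩
  · simp only [map_smul, LinearMap.smul_apply, smul_eq_mul, q.ch_zero hP0, mul_zero]
  · obtain ⟨d, hd⟩ := hG.1
    rw [hd, ← hp]
    exact mul_ne_zero (pow_ne_zero d (inv_ne_zero ht2)) ht3

end Pool.Agent.TH729.BQ
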