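import Pool.Agent.TH729.BQ.Den

/-!
# Families of quadratic forms
-/

set_option autoImplicit false
set_option linter.unusedSimpArgs false
set_option linter.unusedTactic false
set_option linter.unusedSectionVars false

namespace Pool.Agent.TH729.BQ

open Polynomial Filter Topology

universe u

/-- the family `T₀² A + 2 T₀ T₁ B + T₁² C` -/
structure Fam (K : Type*) [Field K] (n : ℕ) where
  A : SB K n
  B : SB K n
  C : SB K n

variable {K : Type u} {n : ℕ}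

section

variable [Field K] [CharZero K]

/-- the polarization in `T` -/
def Fam.H (F : Fam K n) (T S : Fin 2 → K) : SB K n where
  f := (T 0 * S 0) • F.A.f + (T 0 * S 1 + T 1 * S 0) • F.B.f + (T 1 * S 1) • F.C.f
  s a b := by
    simp only [LinearMap.add_apply, LinearMap.smul_apply, smul_eq_mul, F.A.s a b, F.B.s a b,
      F.C.s a b]

lemma Fam.H_val (F : Fam K n) (T S : Fin 2 → K) (a b : Fin n → K) : (F.H T S).f a b =
    T 0 * S 0 * F.A.f a b + (T 0 * S 1 + T 1 * S 0) * F.B.f a b + T 1 * S 1 * F.C.f a b := by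
  simp only [Fam.H, LinearMap.add_apply, LinearMap.smul_apply, smul_eq_mul]

/-- the determinant -/
def wedge (T S : Fin 2 → K) : K := T 0 * S 1 - T 1 * S 0

lemma wedge_self (T : Fin 2 → K) : wedge T T = 0 := by
  unfold wedge
  ring

lemma wedge_neg (T S : Fin 2 → K) : wedge S T = -wedge T S := by
  unfold wedge
  ring

lemma wedge_comb (T S R : Fin 2 → K) (a b : K) :
    wedge (a • T + b • S) R = a * wedge T R + b * wedge S R := by
  simp only [wedge, Pi.add_apply, Pi.smul_apply, smul_eq_mul]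
  ring

lemma wedge_smul (T R : Fin 2 → K) (a : K) : wedge (a • T) R = a * wedge T R := by
  simp only [wedge, Pi.smul_apply, smul_eq_mul]
  ring

lemma wedge_dec (T S R : Fin 2 → K) :
    wedge T S • R = wedge R S • T + wedge T R • S := by
  funext i
  fin_cases i
  · simp [wedge]
    ring
  · simp [wedge]
    ring

/-- linear independence -/
def Fam.Ind (F : Fam K n) : Prop := ∀ α β γ : K,
  (∀ v, α * F.A.f v v + β * F.B.f v v + γ * F.C.f v v = 0) → α = 0 ∧ β = 0 ∧ γ = 0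

lemma Fam.ind2 (F : Fam K n) (hF : F.Ind) {T S : Fin 2 → K} (h : wedge T S ≠ 0) {α β γ : K}
    (h0 : ∀ v, α * (F.H T T).f v v + β * (F.H T S).f v v + γ * (F.H S S).f v v = 0) :
    α = 0 ∧ β = 0 ∧ γ = 0 := by
  obtain ⟨h1, h2, h3⟩ := hF (α * (T 0 * T 0) + β * (T 0 * S 0) + γ * (S 0 * S 0))
    (α * (T 0 * T 1 + T 1 * T 0) + β * (T 0 * S 1 + T 1 * S 0) + γ * (S 0 * S 1 + S 1 * S 0))
    (α * (T 1 * T 1) + β * (T 1 * S 1) + γ * (S 1 * S 1)) (fun v => by
      have := h0 v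
      simp only [F.H_val] at this
      linear_combination this)
  have hw : (wedge T S) ^ 2 ≠ 0 := pow_ne_zero 2 h
  have e1 : α * wedge T S ^ 2 = 0 := by
    unfold wedge
    linear_combination S 1 ^ 2 * h1 - S 1 * S 0 * h2 + S 0 ^ 2 * h3
  have e3 : γ * wedge T S ^ 2 = 0 := by
    unfold wedge
    linear_combination T 1 ^ 2 * h1 - T 1 * T 0 * h2 + T 0 ^ 2 * h3
  have e2 : β * wedge T S ^ 2 = 0 := by
    have : α * wedge T S ^ 2 - β * wedge T S ^ 2 + γ * wedge T S ^ 2 = 0 := by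
      unfold wedge
      linear_combination (S 1 + T 1) ^ 2 * h1 - (S 1 + T 1) * (S 0 + T 0) * h2 +
        (S 0 + T 0) ^ 2 * h3
    linear_combination e1 + e3 - this
  exact ⟨(mul_eq_zero.1 e1).resolve_right hw, (mul_eq_zero.1 e2).resolve_right hw,
    (mul_eq_zero.1 e3).resolve_right hw⟩

lemma Fam.H_comb (F : Fam K n) (T S : Fin 2 → K) (a b : K) (v w : Fin n → K) :
    (F.H (a • T + b • S) (a • T + b • S)).f v w =
      a ^ 2 * (F.H T T).f v w + 2 * a * b * (F.H T S).f v w + b ^ 2 * (F.H S S).f v w := by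
  simp only [F.H_val, Pi.add_apply, Pi.smul_apply, smul_eq_mul]
  ring

lemma Fam.H_comb' (F : Fam K n) (T S : Fin 2 → K) (a b : K) (v w : Fin n → K) :
    (F.H (a • T + b • S) T).f v w = a * (F.H T T).f v w + b * (F.H T S).f v w := by
  simp only [F.H_val, Pi.add_apply, Pi.smul_apply, smul_eq_mul]
  ring

lemma Fam.H_smul (F : Fam K n) (T : Fin 2 → K) (a : K) (v w : Fin n → K) :
    (F.H (a • T) (a • T)).f v w = a ^ 2 * (F.H T T).f v w := by
  simp only [F.H_val, Pi.smul_apply, smul_eq_mul]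
  ring

/-- the other root -/
def Fam.oth (F : Fam K n) (Y : Fin n → K) (T S : Fin 2 → K) : Fin 2 → K :=
  (F.H S S).f Y Y • T + (-2 * (F.H T S).f Y Y) • S

lemma Fam.oth_root (F : Fam K n) {Y : Fin n → K} {T : Fin 2 → K} (S : Fin 2 → K)
    (h : (F.H T T).f Y Y = 0) : (F.H (F.oth Y T S) (F.oth Y T S)).f Y Y = 0 := by
  rw [Fam.oth, F.H_comb, h]
  ring

/-- the form `wedge (oth Y T S) R` -/
def Fam.wf (F : Fam K n) (T S R : Fin 2 → K) : SB K n where
  f := wedge T R • (F.H S S).f + (-2 * wedge S R) • (F.H T S).f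
  s a b := by
    simp only [LinearMap.add_apply, LinearMap.smul_apply, smul_eq_mul, (F.H S S).s a b,
      (F.H T S).s a b]

lemma Fam.wf_val (F : Fam K n) (T S R : Fin 2 → K) (Y : Fin n → K) :
    (F.wf T S R).f Y Y = wedge (F.oth Y T S) R := by
  rw [Fam.oth, wedge_comb]
  simp only [Fam.wf, LinearMap.add_apply, LinearMap.smul_apply, smul_eq_mul]
  ring

lemma nv_one (q : SB K n) (hq : q.ND) {P : Fin n → K} (hP : P ≠ 0) (hP0 : q.f P P = 0) :
    NV q P fun _ => 1 := by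
  obtain ⟨z, hz⟩ := q.exists_one hq hP
  refine ⟨q.ch P z, q.ch_zero hP0 z, ?_, one_ne_zero⟩
  rw [q.f_ch hP0, hz]
  norm_num

lemma Fam.nv_wf (F : Fam K n) (hF : F.Ind) (hn : 3 ≤ n) {T S R : Fin 2 → K} (hT : (F.H T T).ND)
    (hTS : wedge T S ≠ 0) (hR : R ≠ 0) {P : Fin n → K} (hP : P ≠ 0)
    (hP0 : (F.H T T).f P P = 0) : NV (F.H T T) P fun v => (F.wf T S R).f v v := by
  by_contra hcon
  have h1 : ∀ Z, (F.H T T).f Z Z = 0 → (F.H T T).f P Z ≠ 0 → (F.wf T S R).f Z Z = 0 := by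
    intro Z h1 h2
    by_contra h3
    exact hcon ⟨Z, h1, h2, h3⟩
  obtain ⟨c, hc⟩ := (F.H T T).prop (F.wf T S R) hT hn hP hP0 h1
  obtain ⟨-, h2, h3⟩ := F.ind2 hF hTS (α := -c) (β := -2 * wedge S R) (γ := wedge T R)
    (fun v => by
      have := hc v
      simp only [Fam.wf, LinearMap.add_apply, LinearMap.smul_apply, smul_eq_mul] at this
      linear_combination this)
  have h4 : wedge S R = 0 := (mul_eq_zero.1 h2).resolve_left (by norm_num)
  have h6 := wedge_dec T S R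
  rw [h3, wedge_neg S R, h4, neg_zero, zero_smul, zero_smul, add_zero] at h6
  exact hR ((smul_eq_zero.1 h6).resolve_left hTS)

/-- good points -/
def Fam.Good (F : Fam K n) (Y : Fin n → K) (T : Fin 2 → K) : Prop :=
  Y ≠ 0 ∧ (F.H T T).f Y Y = 0 ∧ (F.H T T).ND

lemma Fam.Good.ne {F : Fam K n} {Y : Fin n → K} {T : Fin 2 → K} (h : F.Good Y T) : T ≠ 0 := by
  rintro rfl
  refine h.1 (h.2.2 Y fun w => ?_)
  rw [F.H_val]
  simp

lemma exists_wedge {T : Fin 2 → K} (hT : T ≠ 0) : ∃ S : Fin 2 → K, wedge T S ≠ 0 := by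
  by_cases h : T 0 = 0
  · have h1 : T 1 ≠ 0 := by
      intro h1
      apply hT
      funext i
      fin_cases i
      · exact h
      · exact h1
    refine ⟨![1, 0], ?_⟩
    simp [wedge, h1]
  · refine ⟨![0, 1], ?_⟩
    simp [wedge, h]

/-- a functional -/
lemma fun_polyH (l : (Fin n → K) →ₗ[K] K) : PolyH fun v => l v := by
  refine ⟨⟨1, fun s v => by
    show l (s • v) = s ^ 1 * l v
    rw [map_smul, smul_eq_mul, pow_one]⟩, fun c => ⟨∑ i, c i * C (l (Pi.single i 1)), fun t => ?_⟩⟩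
  show _ = l fun i => (c i).eval t
  have e1 : ∀ x : Fin n → K, x = ∑ i, x i • (Pi.single i 1 : Fin n → K) := fun x => by
    ext j
    simp [Finset.sum_apply, Pi.single_apply]
  conv_rhs => rw [e1 fun i => (c i).eval t]
  simp only [map_sum, map_smul, smul_eq_mul, eval_finsetSum, eval_mul, eval_C]

/-- avoiding two hyperplanes -/
lemma avoid_two {l l' : (Fin n → K) →ₗ[K] K} (h : ∃ v, l v ≠ 0) (h' : ∃ v, l' v ≠ 0) :
    ∃ v, l v ≠ 0 ∧ l' v ≠ 0 := by
  obtain ⟨v, hv⟩ := h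
  obtain ⟨w, hw⟩ := h'
  by_cases h1 : l' v = 0
  · by_cases h2 : l w = 0
    · exact ⟨v + w, by rwa [map_add, h2, add_zero], by rwa [map_add, h1, zero_add]⟩
    · exact ⟨w, h2, hw⟩
  · exact ⟨v, hv, h1⟩

end

variable [NontriviallyNormedField K] [CharZero K]

/-- **moving to another fibre** -/
theorem stepA (F : Fam K n) (hF : F.Ind) (hn : 3 ≤ n) {T S : Fin 2 → K} (hT : (F.H T T).ND)
    (hTS : wedge T S ≠ 0) {P : Fin n → K} (hP : P ≠ 0) (hP0 : (F.H T T).f P P = 0)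
    (𝓡 : Finset (Fin 2 → K)) (h𝓡 : ∀ R ∈ 𝓡, R ≠ 0) {N : Set (Fin n → K)} (hN : N ∈ 𝓝 P) :
    ∃ Y ∈ N, (F.H T T).f Y Y = 0 ∧ ∀ R ∈ 𝓡, wedge (F.oth Y T S) R ≠ 0 := by
  obtain ⟨h1, h2⟩ := NV.prod hP0 𝓡 (G := fun R v => (F.wf T S R).f v v)
    (fun R => (F.wf T S R).polyH) (nv_one _ hT hP hP0)
    (fun R hR => F.nv_wf hF hn hT hTS (h𝓡 R hR) hP hP0)
  obtain ⟨Y, hY, hY0, hY1⟩ := near _ hT hn hP hP0 h1 h2 hN
  refine ⟨Y, hY, hY0, fun R hR => ?_⟩
  rw [Finset.prod_ne_zero_iff] at hY1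
  have := hY1 R hR
  rwa [F.wf_val] at this

lemma Fam.oth_cont (F : Fam K n) (T S : Fin 2 → K) : Continuous fun Y => F.oth Y T S := by
  unfold Fam.oth
  have h1 : Continuous fun Y : Fin n → K => (F.H S S).f Y Y :=
    (F.H S S).cont continuous_id continuous_id
  have h2 : Continuous fun Y : Fin n → K => (F.H T S).f Y Y :=
    (F.H T S).cont continuous_id continuous_id
  exact (h1.smul continuous_const).add ((continuous_const.mul h2).smul continuous_const)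

/-- **general position** -/
theorem stepC (F : Fam K n) (hF : F.Ind) (hn : 3 ≤ n) {𝓑 : Finset (Fin 2 → K)}
    (h𝓑 : ∀ R ∈ 𝓑, R ≠ 0) (hbad : ∀ T, (∀ R ∈ 𝓑, wedge T R ≠ 0) → (F.H T T).ND)
    {Y1 : Fin n → K} {T1 : Fin 2 → K} (h : F.Good Y1 T1) (𝓡 : Finset (Fin 2 → K))
    (h𝓡 : ∀ R ∈ 𝓡, R ≠ 0) {N : Set (Fin n → K)} (hN : N ∈ 𝓝 Y1) {M : Set (Fin 2 → K)}
    (hM : M ∈ 𝓝 T1) :
    ∃ Y3 ∈ N, ∃ T3 ∈ M, F.Good Y3 T3 ∧ ∀ R ∈ 𝓡, wedge T3 R ≠ 0 := by
  classical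
  have hT1 := h.ne
  obtain ⟨hY1, hY10, hT1'⟩ := h
  obtain ⟨S, hS⟩ := exists_wedge hT1
  obtain ⟨Y2, hY2, hY20, hY2R⟩ := stepA F hF hn hT1' hS hY1 hY10 (insert T1 𝓑)
    (by
      intro R hR
      rcases Finset.mem_insert.1 hR with rfl | hR
      · exact hT1
      · exact h𝓑 R hR)
    (N := {Y | N ∈ 𝓝 Y} ∩ {0}ᶜ)
    (inter_mem (eventually_eventually_nhds.2 hN) (isOpen_compl_singleton.mem_nhds hY1))
  set T' := F.oth Y2 T1 S with hT'
  have hT'T1 : wedge T' T1 ≠ 0 := hY2R T1 (Finset.mem_insert_self _ _)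
  have hT'ND : (F.H T' T').ND := hbad T' fun R hR => hY2R R (Finset.mem_insert_of_mem hR)
  have hT'0 : (F.H T' T').f Y2 Y2 = 0 := F.oth_root S hY20
  have hc : (F.H T' T1).f Y2 Y2 ≠ 0 := by
    rw [hT', Fam.oth, F.H_comb', hY20, mul_zero, zero_add]
    have h1 : (F.H T1 S).f Y2 Y2 ≠ 0 := by
      intro h1
      apply hT'T1
      rw [hT', Fam.oth, wedge_comb, wedge_self, h1]
      ring
    exact mul_ne_zero (mul_ne_zero (by norm_num) h1) h1
  set c : K := -2 * (F.H T' T1).f Y2 Y2 with hcdef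
  have hc0 : c ≠ 0 := mul_ne_zero (by norm_num) hc
  -- the point close to `T1`
  have hcont : Continuous fun Y => c⁻¹ • F.oth Y T' T1 := by
    have h := F.oth_cont T' T1
    fun_prop
  have hval : c⁻¹ • F.oth Y2 T' T1 = T1 := by
    have h1 : (F.H T1 T1).f Y2 Y2 = 0 := hY20
    rw [Fam.oth, h1, zero_smul, zero_add, smul_smul, ← hcdef, inv_mul_cancel₀ hc0, one_smul]
  have hM' : {Y | c⁻¹ • F.oth Y T' T1 ∈ M} ∈ 𝓝 Y2 := by
    have := hcont.tendsto Y2
    rw [hval] at this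
    exact this hM
  obtain ⟨Y3, hY3, hY30, hY3R⟩ := stepA F hF hn hT'ND hT'T1 hY2.2 hT'0 (𝓡 ∪ 𝓑)
    (by
      intro R hR
      rcases Finset.mem_union.1 hR with hR | hR
      · exact h𝓡 R hR
      · exact h𝓑 R hR)
    (inter_mem (inter_mem hY2.1 (isOpen_compl_singleton.mem_nhds hY2.2)) hM')
  have hw : ∀ R ∈ 𝓡 ∪ 𝓑, wedge (c⁻¹ • F.oth Y3 T' T1) R ≠ 0 := by
    intro R hR
    rw [wedge_smul]
    exact mul_ne_zero (inv_ne_zero hc0) (hY3R R hR)
  refine ⟨Y3, hY3.1.1, _, hY3.2, ⟨hY3.1.2, ?_, ?_⟩, fun R hR => hw R (Finset.mem_union_left _ hR)⟩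
  · rw [F.H_smul, F.oth_root T1 hY30, mul_zero]
  · exact hbad _ fun R hR => hw R (Finset.mem_union_right _ hR)

/-- **functions vanishing near a point** -/
theorem stepD (q : SB K n) (hq : q.ND) (hn : 3 ≤ n) {P : Fin n → K} (hP : P ≠ 0)
    (hP0 : q.f P P = 0) {G : (Fin n → K) → K} (hG : PolyH G) {N : Set (Fin n → K)}
    (hN : N ∈ 𝓝 P) (hvan : ∀ Y ∈ N, q.f Y Y = 0 → G Y = 0) {Z : Fin n → K}
    (hZ : q.f Z Z = 0) : G Z = 0 := by
  have key : ∀ {P : Fin n → K}, P ≠ 0 → q.f P P = 0 → N ∈ 𝓝 P → q.f P Z ≠ 0 → G Z = 0 := by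
    intro P hP hP0 hN hPZ
    by_contra hne
    obtain ⟨Y, hY, hY0, hY1⟩ := near q hq hn hP hP0 hG ⟨Z, hZ, hPZ, hne⟩ hN
    exact hY1 (hvan Y hY hY0)
  by_cases hPZ : q.f P Z = 0
  · by_cases hZ0 : Z = 0
    · obtain ⟨d, hd⟩ := hG.1
      have h1 := hd 0 P
      rw [zero_smul] at h1
      rw [hZ0, h1, hvan P (mem_of_mem_nhds hN) hP0, mul_zero]
    · obtain ⟨v, hv1, hv2⟩ := avoid_two (l := q.f P) (l' := q.f Z)
        ((q.exists_one hq hP).imp fun z hz => by rw [hz]; exact one_ne_zero)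
        ((q.exists_one hq hZ0).imp fun z hz => by rw [hz]; exact one_ne_zero)
      have hnv : NV q P fun v => q.f Z v := by
        refine ⟨q.ch P v, q.ch_zero hP0 v, ?_, ?_⟩
        · rw [q.f_ch hP0]
          exact mul_ne_zero (by norm_num) (pow_ne_zero 2 hv1)
        · show q.f Z (q.ch P v) ≠ 0
          rw [SB.ch, map_sub, map_smul, map_smul, q.s Z P, hPZ, smul_zero, zero_sub, smul_eq_mul]
          exact neg_ne_zero.2 (mul_ne_zero (mul_ne_zero two_ne_zero hv1) hv2)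
      obtain ⟨P2, hP2, hP20, hP2Z⟩ := near q hq hn hP hP0 (fun_polyH (q.f Z)) hnv
        (N := {Y | N ∈ 𝓝 Y} ∩ {0}ᶜ)
        (inter_mem (eventually_eventually_nhds.2 hN) (isOpen_compl_singleton.mem_nhds hP))
      exact key hP2.2 hP20 hP2.1 (by rw [q.s]; exact hP2Z)
  · exact key hP hP0 hN hPZ

end Pool.Agent.TH729.BQ
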