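import Pool.Agent.TH729.BQ.Main
import Pool.Agent.TH729.CV.Iso

/-!
# Local ideals of hypersurfaces of bidegree (2,2)
-/

set_option autoImplicit false
set_option linter.unusedSimpArgs false
set_option linter.unusedTactic false
set_option linter.unusedSectionVars false

namespace Pool.Agent.TH729.BQ

open Filter Topology MvPolynomial Pool.Agent.TH729.CV

universe u

variable {K : Type u} [Field K] [CharZero K]

section

variable {n : ℕ}

lemma BH.const (a : K) : BH (C a : MvPolynomial (Fin n ⊕ Fin 2) K) 0 0 := by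
  intro R _ _ v T b c
  simp [ev]

lemma BH.add {f g : MvPolynomial (Fin n ⊕ Fin 2) K} {d e : ℕ} (hf : BH f d e) (hg : BH g d e) :
    BH (f + g) d e := by
  intro R _ _ v T b c
  have h1 := hf R v T b c
  have h2 := hg R v T b c
  unfold ev at h1 h2 ⊢
  rw [map_add, map_add, h1, h2]
  ring

lemma BH.mul {f g : MvPolynomial (Fin n ⊕ Fin 2) K} {d e d' e' : ℕ} (hf : BH f d e)
    (hg : BH g d' e') : BH (f * g) (d + d') (e + e') := by
  intro R _ _ v T b c
  have h1 := hf R v T b c
  have h2 := hg R v T b c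
  unfold ev at h1 h2 ⊢
  rw [map_mul, map_mul, h1, h2]
  ring

lemma BH.inl (i : Fin n) : BH (X (Sum.inl i) : MvPolynomial (Fin n ⊕ Fin 2) K) 1 0 := by
  intro R _ _ v T b c
  simp [ev]

lemma BH.inr (j : Fin 2) : BH (X (Sum.inr j) : MvPolynomial (Fin n ⊕ Fin 2) K) 0 1 := by
  intro R _ _ v T b c
  simp [ev]

lemma BH.pow {f : MvPolynomial (Fin n ⊕ Fin 2) K} {d e : ℕ} (hf : BH f d e) (N : ℕ) :
    BH (f ^ N) (N * d) (N * e) := by
  intro R _ _ v T b c
  have h1 := hf R v T b c
  unfold ev at h1 ⊢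
  rw [map_pow, map_pow, h1]
  ring

end

/-- bihomogenization -/
lemma exists_bihom {m : ℕ} (f : MvPolynomial (Fin (m + 1)) K) :
    ∃ (g : MvPolynomial (Fin (m + 1) ⊕ Fin 2) K) (N M : ℕ), BH g N M ∧
      ∀ y : Fin (m + 1) → K, ev g (Function.update y 0 1) ![y 0, 1] = eval y f := by
  induction f using MvPolynomial.induction_on with
  | C a =>
    refine ⟨C a, 0, 0, BH.const a, fun y => ?_⟩
    rw [ev, aeval_C, eval_C]
    rfl
  | add p q hp hq =>
    obtain ⟨g, N, M, h, h'⟩ := hp
    obtain ⟨g', N', M', k, k'⟩ := hq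
    have e1 : BH ((X (Sum.inl 0) ^ N' * X (Sum.inr 1) ^ M') * g) (N + N') (M + M') := by
      have := (((BH.inl (K := K) (0 : Fin (m + 1))).pow N').mul
        ((BH.inr (K := K) (n := m + 1) 1).pow M')).mul h
      convert this using 1 <;> ring
    have e2 : BH ((X (Sum.inl 0) ^ N * X (Sum.inr 1) ^ M) * g') (N + N') (M + M') := by
      have := (((BH.inl (K := K) (0 : Fin (m + 1))).pow N).mul
        ((BH.inr (K := K) (n := m + 1) 1).pow M)).mul k
      convert this using 1 <;> ring
    refine ⟨_, _, _, e1.add e2, fun y => ?_⟩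
    have h1 := h' y
    have h2 := k' y
    unfold ev at h1 h2 ⊢
    simp only [map_add, map_mul, map_pow, aeval_X, h1, h2, Sum.elim_inl, Sum.elim_inr,
      Function.update_self, one_pow, one_mul, Matrix.cons_val_one, Matrix.cons_val_fin_one]
  | mul_X p i hp =>
    obtain ⟨g, N, M, h, h'⟩ := hp
    by_cases hi : i = 0
    · subst hi
      refine ⟨g * X (Sum.inr 0), _, _, h.mul (BH.inr 0), fun y => ?_⟩
      have h1 := h' y
      unfold ev at h1 ⊢
      simp only [map_mul, aeval_X, h1, Sum.elim_inl, Sum.elim_inr, Matrix.cons_val_zero, eval_X]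
    · refine ⟨g * X (Sum.inl i), _, _, h.mul (BH.inl i), fun y => ?_⟩
      have h1 := h' y
      unfold ev at h1 ⊢
      simp only [map_mul, aeval_X, h1, Sum.elim_inl, Sum.elim_inr, eval_X,
        Function.update_of_ne hi]

/-- the quadratic polynomial of a quadratic form -/
lemma exists_quad {m : ℕ} (q : SB K (m + 1)) : ∃ g : MvPolynomial (Fin (m + 1)) K,
    g.totalDegree ≤ 2 ∧
      ∀ y, eval y g = q.f (Function.update y 0 1) (Function.update y 0 1) := by
  have hX : ∀ i : Fin (m + 1),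
      (if i = 0 then 1 else X i : MvPolynomial (Fin (m + 1)) K).totalDegree ≤ 1 := by
    intro i
    split_ifs
    · simp
    · simp
  refine ⟨∑ i, ∑ j, C (q.f (Pi.single i 1) (Pi.single j 1)) *
    ((if i = 0 then 1 else X i) * (if j = 0 then 1 else X j)), ?_, fun y => ?_⟩
  · refine totalDegree_finsetSum_le fun i _ => totalDegree_finsetSum_le fun j _ => ?_
    refine (totalDegree_mul _ _).trans ?_
    rw [totalDegree_C, zero_add]
    exact (totalDegree_mul _ _).trans (add_le_add (hX i) (hX j))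
  · rw [q.sum]
    simp only [map_sum, map_mul, eval_C]
    have hv : ∀ i : Fin (m + 1), eval y (if i = 0 then 1 else X i : MvPolynomial (Fin (m + 1)) K) =
        Function.update y 0 1 i := by
      intro i
      by_cases hi : i = 0
      · subst hi
        simp
      · rw [if_neg hi, eval_X, Function.update_of_ne hi]
    refine Finset.sum_congr rfl fun i _ => Finset.sum_congr rfl fun j _ => ?_
    rw [hv, hv]
    ring

variable {L : Type*} [NontriviallyNormedField L]

/-- the main theorem for a dense subfield -/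
theorem main' (σ : K →+* L) (hσ : DenseRange σ) {n : ℕ} (F : Fam K n) (hF : F.Ind) (hn : 3 ≤ n)
    {𝓑 : Finset (Fin 2 → K)} (h𝓑 : ∀ R ∈ 𝓑, R ≠ 0)
    (hbad : ∀ T, (∀ R ∈ 𝓑, wedge T R ≠ 0) → (F.H T T).ND)
    {Y1 : Fin n → K} {T1 : Fin 2 → K} (h : F.Good Y1 T1)
    {f : MvPolynomial (Fin n ⊕ Fin 2) K} {d e : ℕ} (hf : BH f d e)
    {N : Set (Fin n → L)} (hN : N ∈ 𝓝 fun i => σ (Y1 i))
    {M : Set (Fin 2 → L)} (hM : M ∈ 𝓝 fun i => σ (T1 i))
    (hvan : ∀ Y T, (fun i => σ (Y i)) ∈ N → (fun i => σ (T i)) ∈ M → Y ≠ 0 →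
      (F.H T T).f Y Y = 0 → ev f Y T = 0)
    {Y : Fin n → K} {T : Fin 2 → K} (hY : Y ≠ 0) (hT : T ≠ 0) (h0 : (F.H T T).f Y Y = 0) :
    ev f Y T = 0 := by
  let I1 : NormedField K := NormedField.induced K L σ σ.injective
  have h1 : ∃ x : K, 1 < ‖x‖ := by
    obtain ⟨y, hy⟩ := NormedField.exists_one_lt_norm L
    obtain ⟨x, hx⟩ := hσ.exists_mem_open (isOpen_lt continuous_const continuous_norm) ⟨y, hy⟩
    exact ⟨x, hx⟩
  let I2 : NontriviallyNormedField K := { I1 with non_trivial := h1 }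
  have hc : Continuous σ := (AddMonoidHomClass.isometry_of_norm σ fun x => rfl).continuous
  have hcN : Continuous fun (Y : Fin n → K) i => σ (Y i) :=
    continuous_pi fun i => hc.comp (continuous_apply i)
  have hcM : Continuous fun (T : Fin 2 → K) i => σ (T i) :=
    continuous_pi fun i => hc.comp (continuous_apply i)
  exact main F hF hn h𝓑 hbad h hf (hcN.continuousAt hN) (hcM.continuousAt hM)
    (fun Y hY T hT hY0 h0 => hvan Y T hY hT hY0 h0) hY hT h0

/-- the affine chart -/
def Fam.V {m : ℕ} (F : Fam K (m + 1)) : Set (Fin (m + 1) → K) :=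
  {y | (F.H ![y 0, 1] ![y 0, 1]).f (Function.update y 0 1) (Function.update y 0 1) = 0}

section

variable [CompleteSpace L] [CharZero L] (σ : K →+* L) (hσ : DenseRange σ) {m : ℕ}
  {F : Fam K (m + 1)} (hF : F.Ind) (hm : 2 ≤ m) {𝓑 : Finset (Fin 2 → K)} (h𝓑 : ∀ R ∈ 𝓑, R ≠ 0)
  (hbad : ∀ T, (∀ R ∈ 𝓑, wedge T R ≠ 0) → (F.H T T).ND)

include hσ hF hm h𝓑 hbad

lemma IA_good {x : Fin (m + 1) → L}
    (hx : ∃ᶠ z in 𝓝 x, ∃ y ∈ F.V, (fun i => σ (y i)) = z ∧ (F.H ![y 0, 1] ![y 0, 1]).ND)
    {f : MvPolynomial (Fin (m + 1)) K} (hf : f ∈ IA σ F.V x) : ∀ y ∈ F.V, eval y f = 0 := by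
  obtain ⟨g, N, M, hg, hgf⟩ := exists_bihom f
  have h1 := (mem_IA.1 hf).eventually_nhds
  obtain ⟨_, ⟨y1, hy1, rfl, hND⟩, hz⟩ := (hx.and_eventually h1).exists
  -- the normalization
  set Φ : (Fin (m + 1) → L) × (Fin 2 → L) → (Fin (m + 1) → L) := fun p =>
    Function.update ((p.1 0)⁻¹ • p.1) 0 ((p.2 1)⁻¹ * p.2 0) with hΦdef
  set Y1 : Fin (m + 1) → K := Function.update y1 0 1 with hY1
  set T1 : Fin 2 → K := ![y1 0, 1] with hT1
  have hY10 : Y1 0 = 1 := by rw [hY1, Function.update_self]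
  have hT11 : T1 1 = 1 := by rw [hT1]; rfl
  have hc1 : ContinuousAt (fun p : (Fin (m + 1) → L) × (Fin 2 → L) => p.1 0)
      (fun i => σ (Y1 i), fun j => σ (T1 j)) :=
    ((continuous_apply 0).comp continuous_fst).continuousAt
  have hc2 : ContinuousAt (fun p : (Fin (m + 1) → L) × (Fin 2 → L) => p.2 1)
      (fun i => σ (Y1 i), fun j => σ (T1 j)) :=
    ((continuous_apply 1).comp continuous_snd).continuousAt
  have hn1 : (fun i => σ (Y1 i) : Fin (m + 1) → L) 0 ≠ 0 := by
    simp [hY10]
  have hn2 : (fun j => σ (T1 j) : Fin 2 → L) 1 ≠ 0 := by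
    simp [hT11]
  have hΦ : ContinuousAt Φ (fun i => σ (Y1 i), fun j => σ (T1 j)) := by
    refine ContinuousAt.update ?_ 0 ?_
    · exact (hc1.inv₀ hn1).smul continuous_fst.continuousAt
    · exact (hc2.inv₀ hn2).mul ((continuous_apply 0).comp continuous_snd).continuousAt
  have hval : Φ (fun i => σ (Y1 i), fun j => σ (T1 j)) = fun i => σ (y1 i) := by
    funext i
    by_cases hi : i = 0
    · subst hi
      simp [hΦdef, hT1]
    · simp [hΦdef, hi, hY1]
  have h2 : ∀ᶠ p in 𝓝 ((fun i => σ (Y1 i), fun j => σ (T1 j)) :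
      (Fin (m + 1) → L) × (Fin 2 → L)), p.1 0 ≠ 0 ∧ p.2 1 ≠ 0 ∧
        ∀ y ∈ F.V, (fun i => σ (y i)) = Φ p → eval y f = 0 := by
    have h3 := hΦ.tendsto
    rw [hval] at h3
    filter_upwards [hc1.eventually_ne hn1, hc2.eventually_ne hn2, h3.eventually hz]
      with p h4 h5 h6
    exact ⟨h4, h5, h6⟩
  rw [nhds_prod_eq] at h2
  obtain ⟨N', hN', M', hM', hNM⟩ := Filter.mem_prod_iff.1 h2
  intro y hy
  rw [← hgf y]
  refine main' σ hσ F hF (by omega) h𝓑 hbad (Y1 := Y1) (T1 := T1) ⟨?_, hy1, hND⟩ hg hN' hM' ?_ ?_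
    ?_ hy
  · intro h0
    rw [h0] at hY10
    exact zero_ne_one hY10
  · intro Y T hYN hTM hY0 h0
    obtain ⟨a1, a2, a3⟩ := hNM (Set.mk_mem_prod hYN hTM)
    have hY00 : Y 0 ≠ 0 := fun h => a1 (by simp [h])
    have hT10 : T 1 ≠ 0 := fun h => a2 (by simp [h])
    set y2 : Fin (m + 1) → K := Function.update ((Y 0)⁻¹ • Y) 0 ((T 1)⁻¹ * T 0) with hy2
    have e1 : Y = Y 0 • Function.update y2 0 1 := by
      funext i
      by_cases hi : i = 0
      · subst hi
        simp
      · simp [hy2, hi]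
        field_simp
    have e2 : T = T 1 • ![y2 0, 1] := by
      funext j
      fin_cases j
      · simp [hy2]
        field_simp
      · simp
    have hV : y2 ∈ F.V := by
      rw [e1] at h0
      have h3 : (F.H T T).f (Function.update y2 0 1) (Function.update y2 0 1) = 0 := by
        simp only [map_smul, LinearMap.smul_apply, smul_eq_mul] at h0
        exact (mul_eq_zero.1 ((mul_eq_zero.1 h0).resolve_left hY00)).resolve_left hY00
      have h4 : (F.H T T).f (Function.update y2 0 1) (Function.update y2 0 1) =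
          T 1 ^ 2 * (F.H ![y2 0, 1] ![y2 0, 1]).f (Function.update y2 0 1)
            (Function.update y2 0 1) := by
        conv_lhs => rw [e2]
        rw [F.H_smul]
      rw [h3] at h4
      exact (mul_eq_zero.1 h4.symm).resolve_left (pow_ne_zero 2 hT10)
    have hev : eval y2 f = 0 := by
      refine a3 y2 hV ?_
      funext i
      by_cases hi : i = 0
      · subst hi
        simp [hy2, hΦdef]
      · simp [hy2, hΦdef, hi]
    have h5 : ev g Y T = ev g (Y 0 • Function.update y2 0 1) (T 1 • ![y2 0, 1]) := by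
      rw [← e1, ← e2]
    rw [h5, hg, hgf, hev, mul_zero]
  · intro h0
    have := congrFun h0 0
    simp at this
  · intro h0
    have := congrFun h0 1
    simp at this

/-- **finitely many local ideals** -/
theorem FA_V [ProperSpace L] : FA σ F.V := by
  classical
  set 𝒢 : Set (Fin (m + 1) → L) := {x | ∃ᶠ z in 𝓝 x, ∃ y ∈ F.V, (fun i => σ (y i)) = z ∧
    (F.H ![y 0, 1] ![y 0, 1]).ND} with h𝒢
  -- bad fibres
  have hB : {r : K | ¬(F.H ![r, 1] ![r, 1]).ND}.Finite := by
    refine (𝓑.finite_toSet.image fun R => (R 1)⁻¹ * R 0).subset ?_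
    intro r hr
    have h1 : ¬∀ R ∈ 𝓑, wedge ![r, 1] R ≠ 0 := fun h => hr (hbad _ h)
    push Not at h1
    obtain ⟨R, hR, hR0⟩ := h1
    simp only [wedge, Matrix.cons_val_zero, Matrix.cons_val_one, Matrix.cons_val_fin_one,
      one_mul] at hR0
    have hR1 : R 1 ≠ 0 := by
      intro h1
      apply h𝓑 R hR
      funext j
      fin_cases j
      · rw [h1, mul_zero, zero_sub, neg_eq_zero] at hR0
        exact hR0
      · exact h1
    refine ⟨R, hR, ?_⟩
    have h2 : R 0 = r * R 1 := by linear_combination -hR0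
    show (R 1)⁻¹ * R 0 = r
    rw [h2]
    field_simp
  have hDr : ∀ r : K, FA σ {y : Fin (m + 1) → K | y 0 = r ∧
      (F.H ![r, 1] ![r, 1]).f (Function.update y 0 1) (Function.update y 0 1) = 0} := by
    intro r
    obtain ⟨q, hq, hq'⟩ := exists_quad (F.H ![r, 1] ![r, 1])
    have h1 := FA.block σ hσ (f := X 0 - C r) (g := q) (Or.inl ⟨?_, hq⟩)
    · convert h1 using 1
      ext y
      simp only [Set.mem_ofPred_eq, map_sub, eval_X, eval_C, hq', sub_eq_zero]
    · refine (totalDegree_sub _ _).trans ?_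
      simp
  have h1 : (Set.range fun x : Fin (m + 1) → L => IA σ F.V x) ⊆
      ((fun x => IA σ F.V x) '' 𝒢) ∪ ({⊤} ∪ ⋃ r ∈ {r : K | ¬(F.H ![r, 1] ![r, 1]).ND},
        Set.range fun x : Fin (m + 1) → L => IA σ {y : Fin (m + 1) → K | y 0 = r ∧
          (F.H ![r, 1] ![r, 1]).f (Function.update y 0 1) (Function.update y 0 1) = 0} x) := by
    rintro _ ⟨x, rfl⟩
    by_cases hx : x ∈ 𝒢
    · exact Or.inl ⟨x, hx, rfl⟩
    · right
      have hx' : ∀ᶠ z in 𝓝 x, ∀ y ∈ F.V, (fun i => σ (y i)) = z →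
          ¬(F.H ![y 0, 1] ![y 0, 1]).ND := by
        have h2 : ¬∃ᶠ z in 𝓝 x, ∃ y ∈ F.V, (fun i => σ (y i)) = z ∧
          (F.H ![y 0, 1] ![y 0, 1]).ND := hx
        rw [Filter.not_frequently] at h2
        filter_upwards [h2] with z hz y hy hyz hND
        exact hz ⟨y, hy, hyz, hND⟩
      -- the other bad fibres are far away
      have hfar : ∀ᶠ z in 𝓝 x, ∀ r ∈ {r : K | ¬(F.H ![r, 1] ![r, 1]).ND}, σ r ≠ x 0 →
          z 0 ≠ σ r := by
        rw [Filter.eventually_all_finite hB]
        intro r _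
        by_cases hr : σ r = x 0
        · exact Eventually.of_forall fun z h => (h hr).elim
        · filter_upwards [(continuous_apply (0 : Fin (m + 1))).continuousAt.eventually_ne
            (Ne.symm hr)] with z hz _
          exact hz
      by_cases hr : ∃ r ∈ {r : K | ¬(F.H ![r, 1] ![r, 1]).ND}, σ r = x 0
      · obtain ⟨r, hrB, hrx⟩ := hr
        right
        rw [Set.mem_iUnion₂]
        refine ⟨r, hrB, x, ?_⟩
        have hloc : ∀ᶠ z in 𝓝 x, ∀ y : Fin (m + 1) → K, (fun i => σ (y i)) = z →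
            (y ∈ F.V ↔ y ∈ {y : Fin (m + 1) → K | y 0 = r ∧
          (F.H ![r, 1] ![r, 1]).f (Function.update y 0 1) (Function.update y 0 1) = 0}) := by
          filter_upwards [hx', hfar] with z hz1 hz2 y hyz
          constructor
          · intro hy
            have hy0 : y 0 = r := by
              by_contra hne
              have h3 := hz2 (y 0) (hz1 y hy hyz) (by
                rw [← hrx]
                exact fun h => hne (σ.injective h))
              rw [← hyz] at h3
              exact h3 rfl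
            refine ⟨hy0, ?_⟩
            have h4 : (F.H ![y 0, 1] ![y 0, 1]).f (Function.update y 0 1)
              (Function.update y 0 1) = 0 := hy
            rwa [hy0] at h4
          · rintro ⟨h3, h4⟩
            rw [← h3] at h4
            exact h4
        ext f
        simp only [mem_IA]
        constructor
        · intro h
          filter_upwards [h, hloc] with z h3 h4 y hy hyz
          exact h3 y ((h4 y hyz).1 hy) hyz
        · intro h
          filter_upwards [h, hloc] with z h3 h4 y hy hyz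
          exact h3 y ((h4 y hyz).2 hy) hyz
      · left
        rw [Set.mem_singleton_iff, eq_top_iff]
        intro f _
        rw [mem_IA]
        filter_upwards [hx', hfar] with z hz1 hz2 y hy hyz
        exfalso
        push Not at hr
        have h3 := hz1 y hy hyz
        refine hz2 (y 0) h3 (hr (y 0) h3) ?_
        rw [← hyz]
  refine Set.Finite.subset ?_ h1
  refine Set.Finite.union ?_ (Set.Finite.union (Set.finite_singleton _) ?_)
  · refine Set.Subsingleton.finite ?_
    rintro _ ⟨x, hx, rfl⟩ _ ⟨x', hx', rfl⟩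
    have key : ∀ {x x' : Fin (m + 1) → L}, x ∈ 𝒢 → IA σ F.V x ≤ IA σ F.V x' := by
      intro x x' hx f hf
      have h2 := IA_good σ hσ hF hm h𝓑 hbad hx hf
      rw [mem_IA]
      exact Eventually.of_forall fun z y hy _ => h2 y hy
    exact le_antisymm (key hx) (key hx')
  · exact hB.biUnion fun r _ => hDr r

end

end Pool.Agent.TH729.BQ
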