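import Pool.Agent.TH729.BQ.Fam

/-!
# Polynomials vanishing near a good point
-/

set_option autoImplicit false
set_option linter.unusedSimpArgs false
set_option linter.unusedTactic false
set_option linter.unusedSectionVars false

namespace Pool.Agent.TH729.BQ

open Polynomial Filter Topology

universe u

variable {K : Type u} {n : ℕ} [NontriviallyNormedField K] [CharZero K]

/-- **polynomials vanishing at the points near a good point** -/
theorem main (F : Fam K n) (hF : F.Ind) (hn : 3 ≤ n) {𝓑 : Finset (Fin 2 → K)}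
    (h𝓑 : ∀ R ∈ 𝓑, R ≠ 0) (hbad : ∀ T, (∀ R ∈ 𝓑, wedge T R ≠ 0) → (F.H T T).ND)
    {Y1 : Fin n → K} {T1 : Fin 2 → K} (h : F.Good Y1 T1)
    {f : MvPolynomial (Fin n ⊕ Fin 2) K} {d e : ℕ} (hf : BH f d e)
    {N : Set (Fin n → K)} (hN : N ∈ 𝓝 Y1) {M : Set (Fin 2 → K)} (hM : M ∈ 𝓝 T1)
    (hvan : ∀ Y ∈ N, ∀ T ∈ M, Y ≠ 0 → (F.H T T).f Y Y = 0 → ev f Y T = 0)
    {Y : Fin n → K} {T : Fin 2 → K} (hY : Y ≠ 0) (hT : T ≠ 0) (h0 : (F.H T T).f Y Y = 0) :
    ev f Y T = 0 := by
  classical
  obtain ⟨R, hR⟩ := exists_wedge hT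
  -- a nonisotropic vector
  obtain ⟨e0, he0⟩ : ∃ v, (F.H T T).f v v ≠ 0 := by
    by_contra hcon
    push Not at hcon
    have := (F.ind2 hF hR (α := 1) (β := 0) (γ := 0) (fun v => by rw [hcon v]; ring)).1
    exact one_ne_zero this
  have hYe : ∀ c : K, Y ≠ c • e0 := by
    intro c hc
    have hc0 : c ≠ 0 := by
      rintro rfl
      exact hY (by rw [hc, zero_smul])
    apply he0
    rw [hc] at h0
    simp only [map_smul, LinearMap.smul_apply, smul_eq_mul] at h0
    exact (mul_eq_zero.1 ((mul_eq_zero.1 h0).resolve_left hc0)).resolve_left hc0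
  have hRne : R ≠ 0 := by
    rintro rfl
    apply hR
    simp [wedge]
  have hwTR : ∀ t : K, wedge (T + t • R) R = wedge T R := by
    intro t
    have := wedge_comb T R R 1 t
    rw [one_smul, wedge_self] at this
    rw [this]
    ring
  have hne : ∀ t : K, T + t • R ≠ 0 := by
    intro t h1
    apply hR
    rw [← hwTR t, h1]
    simp [wedge]
  -- the quadratic polynomials
  obtain ⟨pol, hpol⟩ : ∃ pol : (Fin n → K) → (Fin n → K) → K[X], ∀ v w t,
      (pol v w).eval t = (F.H (T + t • R) (T + t • R)).f v w := by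
    refine ⟨fun v w => C ((F.H T T).f v w) + C (2 * (F.H T R).f v w) * X +
      C ((F.H R R).f v w) * X ^ 2, fun v w t => ?_⟩
    have := F.H_comb T R 1 t v w
    rw [one_smul] at this
    rw [this]
    simp only [eval_add, eval_mul, eval_C, eval_X, eval_pow]
    ring
  set 𝒮 : Set K := {t | (F.H (T + t • R) (T + t • R)).ND ∧
    (∃ P, P ≠ 0 ∧ (F.H (T + t • R) (T + t • R)).f P P = 0) ∧
    ∀ Z, (F.H (T + t • R) (T + t • R)).f Z Z = 0 → ev f Z (T + t • R) = 0} with h𝒮
  have hinf : 𝒮.Infinite := by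
    intro hfin
    obtain ⟨Y3, hY3, T3, hT3, hg, hw⟩ := stepC F hF hn h𝓑 hbad h
      (insert R (hfin.toFinset.image fun t => T + t • R))
      (by
        intro R' hR'
        rcases Finset.mem_insert.1 hR' with rfl | hR'
        · exact hRne
        · obtain ⟨t, -, rfl⟩ := Finset.mem_image.1 hR'
          exact hne t)
      (N := {Y | N ∈ 𝓝 Y} ∩ {0}ᶜ)
      (inter_mem (eventually_eventually_nhds.2 hN) (isOpen_compl_singleton.mem_nhds h.1)) hM
    have hw1 : wedge T3 R ≠ 0 := hw R (Finset.mem_insert_self _ _)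
    set c : K := (wedge T R)⁻¹ * wedge T3 R with hc
    have hc0 : c ≠ 0 := mul_ne_zero (inv_ne_zero hR) hw1
    set t : K := (wedge T3 R)⁻¹ * wedge T T3 with ht
    have hT3' : T3 = c • (T + t • R) := by
      have h1 := wedge_dec T R T3
      have h2 : T3 = (wedge T R)⁻¹ • (wedge T R • T3) := by
        rw [smul_smul, inv_mul_cancel₀ hR, one_smul]
      rw [h2, h1, smul_add, smul_add, smul_smul, smul_smul, smul_smul]
      congr 2
      rw [hc, ht]
      field_simp
    have htS : t ∈ 𝒮 := by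
      have hH : ∀ v w, (F.H T3 T3).f v w = c ^ 2 * (F.H (T + t • R) (T + t • R)).f v w := by
        intro v w
        rw [hT3', F.H_smul]
      have hc2 : c ^ 2 ≠ 0 := pow_ne_zero 2 hc0
      refine ⟨?_, ⟨Y3, hg.1, ?_⟩, ?_⟩
      · intro v hv
        refine hg.2.2 v fun w => ?_
        rw [hH, hv w, mul_zero]
      · have := hg.2.1
        rw [hH] at this
        exact (mul_eq_zero.1 this).resolve_left hc2
      · intro Z hZ
        have h1 : (F.H T3 T3).f Z Z = 0 := by rw [hH, hZ, mul_zero]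
        have h2 : ev f Z T3 = 0 := by
          refine stepD (F.H T3 T3) hg.2.2 hn hg.1 hg.2.1 (ev_polyH f hf T3)
            (N := N ∩ {0}ᶜ) (inter_mem hY3.1 (isOpen_compl_singleton.mem_nhds hg.1)) ?_ h1
          intro Y' hY' hY'0
          exact hvan Y' hY'.1 T3 hT3 hY'.2 hY'0
        have h3 := hf K Z (T + t • R) 1 c
        rw [one_smul, ← hT3', h2, one_pow, one_mul] at h3
        exact (mul_eq_zero.1 h3.symm).resolve_left (pow_ne_zero e hc0)
    have h1 := hw (T + t • R) (Finset.mem_insert_of_mem (Finset.mem_image_of_mem _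
      (hfin.mem_toFinset.2 htS)))
    apply h1
    rw [hT3', wedge_smul, wedge_self, mul_zero]
  have hT0 : T + (0 : K) • R = T := by rw [zero_smul, add_zero]
  have ha0 : (pol e0 e0).eval 0 ≠ 0 := by
    rw [hpol, hT0]
    exact he0
  have hpe : pol e0 e0 ≠ 0 := by
    intro h1
    rw [h1, eval_zero] at ha0
    exact ha0 rfl
  have hinf' : (𝒮 \ {t | (pol e0 e0).IsRoot t}).Infinite :=
    hinf.sdiff (Polynomial.finite_setOfPred_isRoot hpe)
  -- the interpolated polynomial
  set FF : K[X][X] := ev f (fun i => C (C (Y i)) + C (C (e0 i)) * X)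
    (fun j => C (C (T j) + C (R j) * X)) with hFF
  have hmap : ∀ t : K, FF.map (evalRingHom t) =
      ev f (fun i => C (Y i) + C (e0 i) * X) fun j => C ((T + t • R) j) := by
    intro t
    have h1 := ev_map (Polynomial.mapAlgHom (aeval t : K[X] →ₐ[K] K)) f
      (fun i => C (C (Y i)) + C (C (e0 i)) * X) (fun j => C (C (T j) + C (R j) * X))
    rw [← hFF] at h1
    have h2 : Polynomial.mapAlgHom (aeval t : K[X] →ₐ[K] K) FF = FF.map (evalRingHom t) := by
      rw [Polynomial.coe_mapAlgHom]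
      congr 1
    rw [h2] at h1
    rw [h1]
    congr 1
    · funext i
      simp [Polynomial.coe_mapAlgHom]
    · funext j
      simp [Polynomial.coe_mapAlgHom]
      ring
  have hfinal := interp (pol e0 e0) (2 * pol Y e0) (pol Y Y) FF hinf' (by
    rintro t ⟨⟨h1, ⟨P, hP, hP0⟩, h3⟩, h4⟩
    have h4' : (pol e0 e0).eval t ≠ 0 := h4
    refine ⟨h4', ?_⟩
    rw [hmap]
    have h5 := quad_dvd _ h1 hn hP hP0 f hf (T + t • R) h3 (e := e0) (by rwa [← hpol]) hYe
    rw [hpol, hpol, eval_mul, hpol, eval_ofNat]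
    exact h5) ha0 (by rw [hpol, hT0]; exact h0)
  rw [hmap, hT0] at hfinal
  have h1 := ev_map (aeval (0 : K) : K[X] →ₐ[K] K) f (fun i => C (Y i) + C (e0 i) * X)
    fun j => C (T j)
  simp only [coe_aeval_eq_eval, eval_add, eval_mul, eval_C, eval_X, mul_zero, add_zero] at h1
  rw [← h1, hfinal]

end Pool.Agent.TH729.BQ
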