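import Pool.Agent.TH729.BQ.R2

/-!
# The closure of the rational points in a product of completions is open
-/

set_option autoImplicit false
set_option linter.unusedSimpArgs false
set_option linter.unusedTactic false
set_option linter.unusedSectionVars false

namespace Pool.Agent.TH729.BQ

open Filter Topology Set

lemma Fam.cont {L : Type*} [NontriviallyNormedField L] [CharZero L] {n : ℕ} (F : Fam L n)
    {X : Type*} [TopologicalSpace X] {T S : X → Fin 2 → L} {a b : X → Fin n → L}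
    (hT : Continuous T) (hS : Continuous S) (ha : Continuous a) (hb : Continuous b) :
    Continuous fun x => (F.H (T x) (S x)).f (a x) (b x) := by
  simp only [F.H_val]
  have h1 := F.A.cont ha hb
  have h2 := F.B.cont ha hb
  have h3 := F.C.cont ha hb
  fun_prop

variable {K : Type*} [Field K] {ι : Type*} {L : ι → Type*} [∀ i, NontriviallyNormedField (L i)]

/-- the local vectors given by a rational vector -/
def vec (σ : ∀ i, K →+* L i) {m : ℕ} (v : Fin m → K) : ∀ i, Fin m → L i := fun i j => σ i (v j)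

lemma dense_vec {σ : ∀ i, K →+* L i} (hσ : DenseRange fun (x : K) (i : ι) => σ i x) (m : ℕ) :
    DenseRange (vec σ (m := m)) := by
  have h1 : DenseRange fun (v : Fin m → K) (j : Fin m) (i : ι) => σ i (v j) :=
    DenseRange.piMap (f := fun (_ : Fin m) (x : K) (i : ι) => σ i x) fun _ => hσ
  have h2 : Continuous fun (f : Fin m → ∀ i, L i) (i : ι) (j : Fin m) => f j i :=
    continuous_pi fun i => continuous_pi fun j => (continuous_apply i).comp (continuous_apply j)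
  have h3 : Function.Surjective fun (f : Fin m → ∀ i, L i) (i : ι) (j : Fin m) => f j i :=
    fun g => ⟨fun j i => g i j, rfl⟩
  exact h3.denseRange.comp h1 h2

variable [CharZero K] [∀ i, CharZero (L i)] {n : ℕ}

/-- staying at a zero by two chords -/
lemma SB.stay {L : Type*} [Field L] [CharZero L] (q : SB L n) {Y : Fin n → L}
    (hY0 : q.f Y Y = 0) (hw : ∃ w, q.f w w ≠ 0) :
    ∃ (v v' : Fin n → L) (c : L), c • q.ch (q.ch Y v) v' = Y := by
  by_cases h : ∃ v, q.f Y v ≠ 0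
  · obtain ⟨v, hv⟩ := h
    have h1 : q.f (q.ch Y v) Y ≠ 0 := by
      rw [q.s, q.f_ch hY0]
      exact mul_ne_zero (by norm_num) (pow_ne_zero 2 hv)
    refine ⟨v, Y, (-(2 * q.f (q.ch Y v) Y))⁻¹, ?_⟩
    rw [q.ch_of_zero hY0, smul_smul,
      inv_mul_cancel₀ (neg_ne_zero.2 (mul_ne_zero two_ne_zero h1)), one_smul]
  · push Not at h
    obtain ⟨w, hw⟩ := hw
    refine ⟨w, w, (q.f w w * q.f w w)⁻¹, ?_⟩
    have h1 : q.ch Y w = q.f w w • Y := by rw [SB.ch, h w, mul_zero, zero_smul, sub_zero]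
    have h2 : q.ch (q.f w w • Y) w = (q.f w w * q.f w w) • Y := by
      rw [SB.ch, map_smul, LinearMap.smul_apply, h w, smul_zero, mul_zero, zero_smul, sub_zero,
        smul_smul]
    rw [h1, h2, smul_smul, inv_mul_cancel₀ (mul_ne_zero hw hw), one_smul]

/-- compatible families -/
def Compat (σ : ∀ i, K →+* L i) (F : Fam K n) (FL : ∀ i, Fam (L i) n) : Prop :=
  ∀ (T S : Fin 2 → K) (v w : Fin n → K) (i : ι),
    ((FL i).H (vec σ T i) (vec σ S i)).f (vec σ v i) (vec σ w i) = σ i ((F.H T S).f v w)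

/-- the closure of the rational points -/
def Cl (σ : ∀ i, K →+* L i) (F : Fam K n) : Set ((∀ i, Fin n → L i) × (∀ i, Fin 2 → L i)) :=
  closure {p | ∃ Y T, (F.H T T).f Y Y = 0 ∧ p = (vec σ Y, vec σ T)}

section

variable {σ : ∀ i, K →+* L i} {F : Fam K n} {FL : ∀ i, Fam (L i) n} (hc : Compat σ F FL)

include hc

lemma Cl.zero {p : (∀ i, Fin n → L i) × (∀ i, Fin 2 → L i)} (h : p ∈ Cl σ F) (i : ι) :
    ((FL i).H (p.2 i) (p.2 i)).f (p.1 i) (p.1 i) = 0 := by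
  have hcl : IsClosed {p : (∀ i, Fin n → L i) × (∀ i, Fin 2 → L i) |
      ((FL i).H (p.2 i) (p.2 i)).f (p.1 i) (p.1 i) = 0} := by
    refine isClosed_eq ?_ continuous_const
    exact (FL i).cont (by fun_prop) (by fun_prop) (by fun_prop) (by fun_prop)
  refine closure_minimal (t := {p : (∀ i, Fin n → L i) × (∀ i, Fin 2 → L i) |
      ((FL i).H (p.2 i) (p.2 i)).f (p.1 i) (p.1 i) = 0}) ?_ hcl h
  rintro _ ⟨Y, T, h0, rfl⟩
  show ((FL i).H (vec σ T i) (vec σ T i)).f (vec σ Y i) (vec σ Y i) = 0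
  rw [hc, h0, map_zero]

lemma Cl.chord (hσ : DenseRange fun (x : K) (i : ι) => σ i x)
    {Y : ∀ i, Fin n → L i} {T : ∀ i, Fin 2 → L i} (h : (Y, T) ∈ Cl σ F) (v : ∀ i, Fin n → L i) :
    ((fun i => ((FL i).H (T i) (T i)).ch (Y i) (v i)), T) ∈ Cl σ F := by
  let Φ : (∀ i, Fin n → L i) × (∀ i, Fin 2 → L i) → (∀ i, Fin n → L i) →
      (∀ i, Fin n → L i) × (∀ i, Fin 2 → L i) := fun p v =>
    ((fun i => ((FL i).H (p.2 i) (p.2 i)).ch (p.1 i) (v i)), p.2)
  have hcont : Continuous (Function.uncurry Φ) := by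
    refine Continuous.prodMk (continuous_pi fun i => ?_) (by fun_prop)
    simp only [SB.ch]
    have h1 : Continuous fun p : ((∀ i, Fin n → L i) × (∀ i, Fin 2 → L i)) × (∀ i, Fin n → L i) =>
        ((FL i).H (p.1.2 i) (p.1.2 i)).f (p.2 i) (p.2 i) :=
      (FL i).cont (by fun_prop) (by fun_prop) (by fun_prop) (by fun_prop)
    have h2 : Continuous fun p : ((∀ i, Fin n → L i) × (∀ i, Fin 2 → L i)) × (∀ i, Fin n → L i) =>
        ((FL i).H (p.1.2 i) (p.1.2 i)).f (p.1.1 i) (p.2 i) :=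
      (FL i).cont (by fun_prop) (by fun_prop) (by fun_prop) (by fun_prop)
    fun_prop
  have key : Φ (Y, T) v ∈ Cl σ F := by
    unfold Cl at h ⊢
    refine map_mem_closure₂ hcont h (dense_vec hσ n v) ?_
    rintro _ ⟨Y', T', h0, rfl⟩ _ ⟨v', rfl⟩
    refine ⟨(F.H T' T').ch Y' v', T', (F.H T' T').ch_zero h0 v', ?_⟩
    refine Prod.ext ?_ rfl
    funext i j
    show ((FL i).H (vec σ T' i) (vec σ T' i)).ch (vec σ Y' i) (vec σ v' i) j =
      σ i ((F.H T' T').ch Y' v' j)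
    have e1 := hc T' T' v' v' i
    have e2 := hc T' T' Y' v' i
    simp only [SB.ch, e1, e2, Pi.sub_apply, Pi.smul_apply, smul_eq_mul, map_sub, map_mul,
      map_ofNat]
    rfl
  exact key

lemma Cl.oth (hσ : DenseRange fun (x : K) (i : ι) => σ i x)
    {Y : ∀ i, Fin n → L i} {T : ∀ i, Fin 2 → L i} (h : (Y, T) ∈ Cl σ F) (S : ∀ i, Fin 2 → L i) :
    (Y, fun i => (FL i).oth (Y i) (T i) (S i)) ∈ Cl σ F := by
  let Φ : (∀ i, Fin n → L i) × (∀ i, Fin 2 → L i) → (∀ i, Fin 2 → L i) →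
      (∀ i, Fin n → L i) × (∀ i, Fin 2 → L i) := fun p S =>
    (p.1, fun i => (FL i).oth (p.1 i) (p.2 i) (S i))
  have hcont : Continuous (Function.uncurry Φ) := by
    refine Continuous.prodMk (by fun_prop) (continuous_pi fun i => ?_)
    simp only [Fam.oth]
    have h1 : Continuous fun p : ((∀ i, Fin n → L i) × (∀ i, Fin 2 → L i)) × (∀ i, Fin 2 → L i) =>
        ((FL i).H (p.2 i) (p.2 i)).f (p.1.1 i) (p.1.1 i) :=
      (FL i).cont (by fun_prop) (by fun_prop) (by fun_prop) (by fun_prop)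
    have h2 : Continuous fun p : ((∀ i, Fin n → L i) × (∀ i, Fin 2 → L i)) × (∀ i, Fin 2 → L i) =>
        ((FL i).H (p.1.2 i) (p.2 i)).f (p.1.1 i) (p.1.1 i) :=
      (FL i).cont (by fun_prop) (by fun_prop) (by fun_prop) (by fun_prop)
    fun_prop
  have key : Φ (Y, T) S ∈ Cl σ F := by
    unfold Cl at h ⊢
    refine map_mem_closure₂ hcont h (dense_vec hσ 2 S) ?_
    rintro _ ⟨Y', T', h0, rfl⟩ _ ⟨S', rfl⟩
    refine ⟨Y', F.oth Y' T' S', F.oth_root S' h0, ?_⟩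
    refine Prod.ext rfl ?_
    funext i j
    show (FL i).oth (vec σ Y' i) (vec σ T' i) (vec σ S' i) j = σ i (F.oth Y' T' S' j)
    have e1 := hc S' S' Y' Y' i
    have e2 := hc T' S' Y' Y' i
    simp only [Fam.oth, e1, e2, Pi.add_apply, Pi.smul_apply, smul_eq_mul, map_add, map_mul,
      map_ofNat, map_neg]
    rfl
  exact key

end

lemma Cl.scale {σ : ∀ i, K →+* L i} {F : Fam K n} (hσ : DenseRange fun (x : K) (i : ι) => σ i x)
    {Y : ∀ i, Fin n → L i} {T : ∀ i, Fin 2 → L i} (h : (Y, T) ∈ Cl σ F) (c d : ∀ i, L i) :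
    ((fun i => c i • Y i), fun i => d i • T i) ∈ Cl σ F := by
  let Φ : (∀ i, Fin n → L i) × (∀ i, Fin 2 → L i) → (∀ i, L i) × (∀ i, L i) →
      (∀ i, Fin n → L i) × (∀ i, Fin 2 → L i) := fun p c =>
    ((fun i => c.1 i • p.1 i), fun i => c.2 i • p.2 i)
  have hcont : Continuous (Function.uncurry Φ) := by
    refine Continuous.prodMk (continuous_pi fun i => ?_) (continuous_pi fun i => ?_)
    · fun_prop
    · fun_prop
  have key : Φ (Y, T) (c, d) ∈ Cl σ F := by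
    unfold Cl at h ⊢
    refine map_mem_closure₂ hcont h ((hσ.prodMap hσ) (c, d)) ?_
    rintro _ ⟨Y', T', h0, rfl⟩ _ ⟨⟨c', d'⟩, rfl⟩
    refine ⟨c' • Y', d' • T', ?_, ?_⟩
    · rw [F.H_smul]
      simp only [map_smul, LinearMap.smul_apply, smul_eq_mul, h0, mul_zero]
    · refine Prod.ext ?_ ?_
      · funext i j
        show σ i c' * σ i (Y' j) = σ i ((c' • Y') j)
        rw [Pi.smul_apply, smul_eq_mul, map_mul]
      · funext i j
        show σ i d' * σ i (T' j) = σ i ((d' • T') j)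
        rw [Pi.smul_apply, smul_eq_mul, map_mul]
  exact key

section

variable {σ : ∀ i, K →+* L i} {F : Fam K n} {FL : ∀ i, Fam (L i) n} (hc : Compat σ F FL)
  (hσ : DenseRange fun (x : K) (i : ι) => σ i x) (hn : 3 ≤ n)

include hc hσ hn

/-- all the zeros over a good `T` -/
lemma Cl.all {Y : ∀ i, Fin n → L i} {T : ∀ i, Fin 2 → L i} (h : (Y, T) ∈ Cl σ F)
    (hY : ∀ i, Y i ≠ 0) {Z : ∀ i, Fin n → L i}
    (hT : ∀ i, (∃ w, ((FL i).H (T i) (T i)).f w w ≠ 0) ∧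
      (Z i = Y i ∨ ((FL i).H (T i) (T i)).ND))
    (hZ : ∀ i, ((FL i).H (T i) (T i)).f (Z i) (Z i) = 0) : (Z, T) ∈ Cl σ F := by
  have h0 : ∀ i, ∃ (v v' : Fin n → L i) (c : L i),
      c • ((FL i).H (T i) (T i)).ch (((FL i).H (T i) (T i)).ch (Y i) v) v' = Z i := by
    intro i
    obtain ⟨hw, h1 | h1⟩ := hT i
    · obtain ⟨v, v', c, h2⟩ := SB.stay _ (Cl.zero hc h i) hw
      exact ⟨v, v', c, h2.trans h1.symm⟩
    · obtain ⟨v, c, h2⟩ := SB.reach _ h1 hn (hY i) (hZ i)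
      exact ⟨v, Z i, c, h2⟩
  choose v v' c hvc using h0
  have h1 := Cl.chord hc hσ (Cl.chord hc hσ h v) v'
  have h2 := Cl.scale hσ h1 c (fun _ => 1)
  simp only [hvc, one_smul] at h2
  exact h2

/-- **the closure contains box neighbourhoods of its points in the smooth fibres** -/
theorem Cl.open [∀ i, CompleteSpace (L i)] (hF : ∀ i, (FL i).Ind)
    {𝓑 : ∀ i, Finset (Fin 2 → L i)} (h𝓑 : ∀ i, ∀ R ∈ 𝓑 i, R ≠ 0)
    (hbad : ∀ i T, T ≠ 0 → (∀ R ∈ 𝓑 i, wedge T R ≠ 0) → ((FL i).H T T).ND)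
    {Y : ∀ i, Fin n → L i} {T : ∀ i, Fin 2 → L i} (h : (Y, T) ∈ Cl σ F)
    (hY : ∀ i, Y i ≠ 0) (hT0 : ∀ i, T i ≠ 0) (hT : ∀ i, ∀ R ∈ 𝓑 i, wedge (T i) R ≠ 0) :
    ∃ 𝒰 : ∀ i, Set (Fin 2 → L i), (∀ i, 𝒰 i ∈ 𝓝 (T i)) ∧ ∀ T' : ∀ i, Fin 2 → L i,
      (∀ i, T' i ∈ 𝒰 i) → ∀ Z : ∀ i, Fin n → L i,
        (∀ i, ((FL i).H (T' i) (T' i)).f (Z i) (Z i) = 0) → (Z, T') ∈ Cl σ F := by
  have hND : ∀ i, ((FL i).H (T i) (T i)).ND := fun i => hbad i _ (hT0 i) (hT i)
  have hw : ∀ i, ∀ T', ((FL i).H T' T').ND → ∃ w, ((FL i).H T' T').f w w ≠ 0 := by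
    intro i T' h1
    by_contra hcon
    push Not at hcon
    refine hY i (h1 _ fun w => ?_)
    have h2 := ((FL i).H T' T').add_add (Y i) w
    rw [hcon, hcon, hcon] at h2
    have h3 : (2 : L i) * ((FL i).H T' T').f (Y i) w = 0 := by linear_combination -h2
    exact (mul_eq_zero.1 h3).resolve_left two_ne_zero
  choose Y2 S h1 h2 h3 h4 using fun i => local_move (FL i) (hF i) hn (h𝓑 i) (hbad i) (hY i)
    (hT0 i) (hT i) (Cl.zero hc h i)
  have hev2 : ∀ i, ∀ᶠ T' : Fin 2 → L i in 𝓝 (T i), ((FL i).H T' T').ND := by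
    intro i
    have e1 : ∀ᶠ T' : Fin 2 → L i in 𝓝 (T i), T' ≠ 0 := isOpen_ne.mem_nhds (hT0 i)
    have e2 : ∀ᶠ T' : Fin 2 → L i in 𝓝 (T i), ∀ R ∈ 𝓑 i, wedge T' R ≠ 0 := by
      rw [Filter.eventually_all_finset]
      intro R hR
      have hc1 : Continuous fun T₀ : Fin 2 → L i => wedge T₀ R := by
        unfold wedge
        fun_prop
      exact hc1.continuousAt.eventually_ne (hT i R hR)
    filter_upwards [e1, e2] with T' g1 g2
    exact hbad i T' g1 g2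
  refine ⟨fun i => {T' | (∃ (Z : Fin n → L i) (c : L i), c ≠ 0 ∧
      ((FL i).H ((FL i).oth (Y2 i) (T i) (S i)) ((FL i).oth (Y2 i) (T i) (S i))).f Z Z = 0 ∧
        Z ≠ 0 ∧ (FL i).oth Z ((FL i).oth (Y2 i) (T i) (S i)) (T i) = c • T') ∧
          ((FL i).H T' T').ND}, fun i => (h4 i).and (hev2 i), ?_⟩
  intro T' hT' Z hZ
  have g1 := fun i => (hT' i).1
  have g2 := fun i => (hT' i).2
  choose Z' c k1 k2 k3 k4 using g1
  -- the moves
  have m1 : (Y2, T) ∈ Cl σ F := Cl.all hc hσ hn h hY (fun i => ⟨hw i _ (hND i), Or.inr (hND i)⟩) h1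
  have m2 := Cl.oth hc hσ m1 S
  have m3 : (Z', fun i => (FL i).oth (Y2 i) (T i) (S i)) ∈ Cl σ F :=
    Cl.all hc hσ hn m2 h2 (fun i => ⟨hw i _ (h3 i), Or.inr (h3 i)⟩) k2
  have m4 := Cl.oth hc hσ m3 T
  have m5 := Cl.scale hσ m4 (fun _ => 1) (fun i => (c i)⁻¹)
  have e1 : (fun i => (c i)⁻¹ • (FL i).oth (Z' i) ((FL i).oth (Y2 i) (T i) (S i)) (T i)) = T' := by
    funext i
    rw [k4 i, smul_smul, inv_mul_cancel₀ (k1 i), one_smul]
  simp only [one_smul] at m5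
  rw [e1] at m5
  exact Cl.all hc hσ hn m5 k3 (fun i => ⟨hw i _ (g2 i), Or.inr (g2 i)⟩) hZ

end

end Pool.Agent.TH729.BQ
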