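import Pool.Agent.TH729.BQ.Mat
import Pool.Agent.TH729.BQ.R3

/-!
# Families of matrices over several fields
-/

set_option autoImplicit false
set_option linter.unusedSimpArgs false
set_option linter.unusedTactic false
set_option linter.unusedSectionVars false

namespace Pool.Agent.TH729.BQ

open Matrix

variable {K : Type*} [Field K] [CharZero K] {n : ℕ}

/-- linear independence over an extension -/
lemma linInd_map {L : Type*} [Field L] (σ : K →+* L) {A B C : Matrix (Fin n) (Fin n) K}
    (h : LinearIndependent K ![A, B, C]) :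
    LinearIndependent L ![A.map σ, B.map σ, C.map σ] := by
  -- functionals over `K`
  obtain ⟨g, hg⟩ := LinearMap.exists_leftInverse_of_injective
    (Fintype.linearCombination K ![A, B, C]) (by
      rw [LinearMap.ker_eq_bot]
      exact linearIndependent_iff_injective_fintypeLinearCombination.1 h)
  have hg' : ∀ c : Fin 3 → K, g (∑ i, c i • ![A, B, C] i) = c := by
    intro c
    have := LinearMap.congr_fun hg c
    simpa [Fintype.linearCombination_apply] using this
  rw [Fintype.linearIndependent_iff]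
  intro c hc j
  -- the functionals over `L`
  have hfun : ∀ M : Matrix (Fin n) (Fin n) K, g M j =
      ∑ k, ∑ l, M k l * g (Matrix.single k l 1) j := by
    intro M
    conv_lhs => rw [matrix_eq_sum_single M]
    simp only [map_sum, Finset.sum_apply]
    refine Finset.sum_congr rfl fun k _ => Finset.sum_congr rfl fun l _ => ?_
    have : Matrix.single k l (M k l) = M k l • Matrix.single k l (1 : K) := by
      rw [Matrix.smul_single, smul_eq_mul, mul_one]
    rw [this, map_smul, Pi.smul_apply, smul_eq_mul]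
  have hval : ∀ i, σ (g (![A, B, C] i) j) =
      ∑ k, ∑ l, (![A.map σ, B.map σ, C.map σ] i) k l * σ (g (Matrix.single k l 1) j) := by
    intro i
    rw [hfun]
    simp only [map_sum, map_mul]
    refine Finset.sum_congr rfl fun k _ => Finset.sum_congr rfl fun l _ => ?_
    congr 1
    fin_cases i <;> rfl
  have hδ : ∀ i, g (![A, B, C] i) j = if i = j then 1 else 0 := by
    intro i
    have h1 := hg' (Pi.single i 1)
    have h2 : (∑ i', (Pi.single i 1 : Fin 3 → K) i' • ![A, B, C] i') = ![A, B, C] i := by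
      rw [Finset.sum_eq_single i]
      · rw [Pi.single_eq_same, one_smul]
      · intro b _ hb
        rw [Pi.single_eq_of_ne hb, zero_smul]
      · intro h
        exact (h (Finset.mem_univ _)).elim
    rw [h2] at h1
    rw [h1, Pi.single_apply]
    by_cases hij : i = j
    · rw [if_pos hij.symm, if_pos hij]
    · rw [if_neg (Ne.symm hij), if_neg hij]
  have h3 : ∑ i, c i * σ (g (![A, B, C] i) j) = 0 := by
    simp only [hval]
    have h4 : ∀ k l, ∑ i, c i * (![A.map σ, B.map σ, C.map σ] i) k l = 0 := by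
      intro k l
      have := congrFun (congrFun hc k) l
      simpa [Matrix.sum_apply] using this
    simp only [Finset.mul_sum]
    rw [Finset.sum_comm]
    refine Finset.sum_eq_zero fun k _ => ?_
    rw [Finset.sum_comm]
    refine Finset.sum_eq_zero fun l _ => ?_
    have := congrArg (fun x => x * σ (g (Matrix.single k l 1) j)) (h4 k l)
    simp only [Finset.sum_mul, zero_mul] at this
    rw [← this]
    refine Finset.sum_congr rfl fun i _ => ?_
    ring
  simp only [hδ] at h3
  simpa using h3

/-- the matrix of a fibre -/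
def fib {R : Type*} [CommRing R] (A B C : Matrix (Fin n) (Fin n) R) (T : Fin 2 → R) :
    Matrix (Fin n) (Fin n) R :=
  T 0 ^ 2 • A + (T 0 * T 1) • B + T 1 ^ 2 • C

lemma fib_smul {R : Type*} [CommRing R] (A B C : Matrix (Fin n) (Fin n) R) (T : Fin 2 → R)
    (c : R) : fib A B C (c • T) = c ^ 2 • fib A B C T := by
  ext i j
  simp only [fib, Pi.smul_apply, smul_eq_mul, Matrix.add_apply, Matrix.smul_apply]
  ring

/-- the bad fibres -/
theorem matFam_bad' {A B C : Matrix (Fin n) (Fin n) K} (hA : A.IsSymm) (hB : B.IsSymm)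
    (hC : C.IsSymm) (hdet : ∃ t : K, (t ^ 2 • A + t • B + C).det ≠ 0) :
    ∃ 𝓑 : Finset (Fin 2 → K), (∀ R ∈ 𝓑, R ≠ 0) ∧
      (∀ T, T ≠ 0 → (∀ R ∈ 𝓑, wedge T R ≠ 0) → ((matFam A B C hA hB hC).H T T).ND) ∧
      ∀ T, (fib A B C T).det ≠ 0 → ∀ R ∈ 𝓑, wedge T R ≠ 0 := by
  classical
  set p : Polynomial K := ((Polynomial.X : Polynomial K) ^ 2 • A.map Polynomial.C +
    (Polynomial.X : Polynomial K) • B.map Polynomial.C + C.map Polynomial.C).det with hp
  have hev : ∀ t : K, p.eval t = (t ^ 2 • A + t • B + C).det := by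
    intro t
    rw [hp, ← Polynomial.coe_evalRingHom, RingHom.map_det]
    congr 1
    ext i j
    simp
    ring
  have hp0 : p ≠ 0 := by
    rintro h
    obtain ⟨t, ht⟩ := hdet
    rw [← hev, h, Polynomial.eval_zero] at ht
    exact ht rfl
  have hnd : ∀ T, (fib A B C T).det ≠ 0 → ((matFam A B C hA hB hC).H T T).ND := by
    intro T hT v hv
    have h1 : v ᵥ* fib A B C T = 0 := by
      funext j
      have h2 := hv (Pi.single j 1)
      rw [matFam_val, dotProduct_mulVec] at h2
      simpa [fib] using h2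
    exact Matrix.eq_zero_of_vecMul_eq_zero hT h1
  set 𝓑 : Finset (Fin 2 → K) := (insert ![1, 0] (p.roots.toFinset.image fun r => ![r, 1])).filter
    fun R => (fib A B C R).det = 0 with h𝓑
  have hne : ∀ R ∈ 𝓑, R ≠ 0 := by
    intro R hR h0
    obtain ⟨hR, -⟩ := Finset.mem_filter.1 hR
    rcases Finset.mem_insert.1 hR with rfl | hR
    · have := congrFun h0 0
      simp at this
    · obtain ⟨r, -, rfl⟩ := Finset.mem_image.1 hR
      have := congrFun h0 1
      simp at this
  refine ⟨𝓑, hne, ?_, ?_⟩
  · intro T hT hTR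
    refine hnd T fun h0 => ?_
    by_cases hT1 : T 1 = 0
    · have hT0 : T 0 ≠ 0 := by
        intro h
        apply hT
        funext i
        fin_cases i
        · exact h
        · exact hT1
      have h1 : T = T 0 • ![1, 0] := by
        funext i
        fin_cases i
        · simp
        · simp [hT1]
      have h2 : (fib A B C ![1, 0]).det = 0 := by
        rw [h1, fib_smul, det_smul] at h0
        exact (mul_eq_zero.1 h0).resolve_left (pow_ne_zero _ (pow_ne_zero _ hT0))
      refine hTR ![1, 0] (Finset.mem_filter.2 ⟨Finset.mem_insert_self _ _, h2⟩) ?_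
      simp [wedge, hT1]
    · have h1 : T = T 1 • ![T 0 / T 1, 1] := by
        funext i
        fin_cases i
        · simp
          field_simp
        · simp
      have h2 : (fib A B C ![T 0 / T 1, 1]).det = 0 := by
        rw [h1, fib_smul, det_smul] at h0
        exact (mul_eq_zero.1 h0).resolve_left (pow_ne_zero _ (pow_ne_zero _ hT1))
      have h3 : p.eval (T 0 / T 1) = 0 := by
        rw [hev, ← h2]
        congr 1
        simp [fib]
      refine hTR ![T 0 / T 1, 1] (Finset.mem_filter.2 ⟨Finset.mem_insert_of_mem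
        (Finset.mem_image_of_mem _ (Multiset.mem_toFinset.2
          ((Polynomial.mem_roots hp0).2 h3))), h2⟩) ?_
      simp only [wedge, Matrix.cons_val_zero, Matrix.cons_val_one, Matrix.cons_val_fin_one]
      field_simp
      ring
  · intro T hT R hR h0
    obtain ⟨hR1, hR2⟩ := Finset.mem_filter.1 hR
    have hR0 := hne R hR
    obtain ⟨S, hS⟩ := exists_wedge hR0
    have h3 := wedge_dec R S T
    rw [wedge_neg T R, h0, neg_zero, zero_smul, add_zero] at h3
    have h4 : T = ((wedge R S)⁻¹ * wedge T S) • R := by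
      rw [mul_smul, ← h3, smul_smul, inv_mul_cancel₀ hS, one_smul]
    apply hT
    rw [h4, fib_smul, det_smul, hR2, mul_zero]

lemma map_dot {L : Type*} [Field L] (σ : K →+* L) (M : Matrix (Fin n) (Fin n) K)
    (v w : Fin n → K) :
    (fun i => σ (v i)) ⬝ᵥ (M.map σ) *ᵥ (fun i => σ (w i)) = σ (v ⬝ᵥ M *ᵥ w) := by
  simp only [dotProduct, mulVec, map_sum, map_mul, Matrix.map_apply]

/-- compatibility -/
lemma matFam_compat {ι : Type*} {L : ι → Type*} [∀ i, NontriviallyNormedField (L i)]
    [∀ i, CharZero (L i)] (σ : ∀ i, K →+* L i) {A B C : Matrix (Fin n) (Fin n) K}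
    (hA : A.IsSymm) (hB : B.IsSymm) (hC : C.IsSymm) :
    Compat σ (matFam A B C hA hB hC)
      fun i => matFam (A.map (σ i)) (B.map (σ i)) (C.map (σ i)) (hA.map _) (hB.map _)
        (hC.map _) := by
  intro T S v w i
  have hB' : ((2 : L i)⁻¹ • B.map (σ i)) = ((2 : K)⁻¹ • B).map (σ i) := by
    ext k l
    show (2 : L i)⁻¹ * σ i (B k l) = σ i ((2 : K)⁻¹ * B k l)
    rw [map_mul, map_inv₀, map_ofNat]
  simp only [Fam.H_val, matFam, ofMat_val]
  have e1 : vec σ v i ⬝ᵥ A.map (σ i) *ᵥ vec σ w i = σ i (v ⬝ᵥ A *ᵥ w) := map_dot (σ i) A v w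
  have e2 : vec σ v i ⬝ᵥ ((2 : K)⁻¹ • B).map (σ i) *ᵥ vec σ w i =
      σ i (v ⬝ᵥ ((2 : K)⁻¹ • B) *ᵥ w) := map_dot (σ i) ((2 : K)⁻¹ • B) v w
  have e3 : vec σ v i ⬝ᵥ C.map (σ i) *ᵥ vec σ w i = σ i (v ⬝ᵥ C *ᵥ w) := map_dot (σ i) C v w
  rw [hB', e1, e2, e3]
  simp only [map_add, map_mul]
  rfl

end Pool.Agent.TH729.BQ
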