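import Pool.Agent.TH729.BQ.Alg
import Mathlib.Algebra.MvPolynomial.Funext
import Mathlib.RingTheory.Ideal.Quotient.Operations
import Mathlib.RingTheory.Polynomial.Content
import Mathlib.Tactic.ComputeDegree

/-!
# Polynomials vanishing on quadrics
-/

set_option autoImplicit false
set_option linter.unusedSimpArgs false
set_option linter.unusedTactic false
set_option linter.unusedSectionVars false

namespace Pool.Agent.TH729.BQ

open Polynomial

universe u

variable {K : Type u} [Field K] [CharZero K] {n : ℕ}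

/-- the product of two functionals -/
def tens (l l' : (Fin n → K) →ₗ[K] K) : (Fin n → K) →ₗ[K] (Fin n → K) →ₗ[K] K :=
  LinearMap.mk₂ K (fun a b => l a * l' b)
    (fun a b c => by rw [map_add, add_mul])
    (fun c a b => by rw [map_smul, smul_eq_mul, smul_eq_mul, mul_assoc])
    (fun a b c => by rw [map_add, mul_add])
    (fun c a b => by rw [map_smul, smul_eq_mul, smul_eq_mul, mul_left_comm])

lemma tens_apply (l l' : (Fin n → K) →ₗ[K] K) (a b : Fin n → K) : tens l l' a b = l a * l' b := rfl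

/-- the resultant form -/
noncomputable def SB.res (q : SB K n) (Y e : Fin n → K) : SB K n where
  f := q.f Y Y • tens (q.f e) (q.f e) - q.f Y e • (tens (q.f Y) (q.f e) + tens (q.f e) (q.f Y)) +
    q.f e e • tens (q.f Y) (q.f Y)
  s a b := by
    simp only [LinearMap.add_apply, LinearMap.sub_apply, LinearMap.smul_apply, tens_apply,
      smul_eq_mul]
    ring

lemma SB.res_val (q : SB K n) (Y e a b : Fin n → K) : (q.res Y e).f a b =
    q.f Y Y * (q.f e a * q.f e b) - q.f Y e * (q.f Y a * q.f e b + q.f e a * q.f Y b) +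
      q.f e e * (q.f Y a * q.f Y b) := by
  simp only [SB.res, LinearMap.add_apply, LinearMap.sub_apply, LinearMap.smul_apply, tens_apply,
    smul_eq_mul]

lemma SB.polar (q : SB K n) (a b : Fin n → K) :
    2 * q.f a b = q.f (a + b) (a + b) - q.f a a - q.f b b := by
  rw [q.add_add]
  ring

/-- there is a zero with nonvanishing resultant form -/
theorem SB.exists_res (q : SB K n) (hq : q.ND) (hn : 3 ≤ n) {P0 : Fin n → K} (hP0 : P0 ≠ 0)
    (hP0' : q.f P0 P0 = 0) {Y e : Fin n → K} (he : q.f e e ≠ 0) (hY : ∀ c : K, Y ≠ c • e) :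
    ∃ P, q.f P P = 0 ∧ (q.res Y e).f P P ≠ 0 := by
  by_contra hcon
  push Not at hcon
  obtain ⟨c, hc⟩ := q.prop (q.res Y e) hq hn hP0 hP0' fun Z hZ _ => hcon Z hZ
  have hpol : ∀ a b, (q.res Y e).f a b = c * q.f a b := by
    intro a b
    have h1 := (q.res Y e).polar a b
    have h2 := q.polar a b
    rw [hc, hc, hc] at h1
    have h3 : (2 : K) * ((q.res Y e).f a b - c * q.f a b) = 0 := by
      linear_combination h1 - c * h2
    exact sub_eq_zero.1 ((mul_eq_zero.1 h3).resolve_left two_ne_zero)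
  -- the constant is zero
  obtain ⟨w, hw0, hw1, hw2⟩ : ∃ w, w ≠ 0 ∧ q.f Y w = 0 ∧ q.f e w = 0 := by
    have h1 : LinearMap.ker ((q.f Y).prod (q.f e)) ≠ ⊥ := by
      apply LinearMap.ker_ne_bot_of_finrank_lt
      rw [Module.finrank_prod, Module.finrank_self, Module.finrank_fin_fun]
      omega
    obtain ⟨w, hw, hw0⟩ := Submodule.exists_mem_ne_zero_of_ne_bot h1
    rw [LinearMap.mem_ker] at hw
    exact ⟨w, hw0, congrArg Prod.fst hw, congrArg Prod.snd hw⟩
  have hc0 : c = 0 := by
    obtain ⟨v, hv⟩ := q.exists_one hq hw0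
    have h1 := hpol w v
    rw [SB.res_val, hw1, hw2, hv] at h1
    linear_combination -h1
  -- a contradiction
  obtain ⟨v, hv1, hv2⟩ : ∃ v, q.f e v = 0 ∧ q.f Y v ≠ 0 := by
    by_contra hcon2
    push Not at hcon2
    have he0 : e ≠ 0 := by
      rintro rfl
      rw [map_zero] at he
      exact he rfl
    obtain ⟨z, hz⟩ := q.exists_one hq he0
    have h1 := fun_mul hz hcon2
    apply hY (q.f Y z)
    rw [← sub_eq_zero]
    refine hq _ fun v => ?_
    rw [map_sub, map_smul, LinearMap.sub_apply, LinearMap.smul_apply, smul_eq_mul, h1 v, sub_self]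
  have h1 := hpol v v
  rw [SB.res_val, hv1, hc0] at h1
  have h2 : q.f e e * q.f Y v ^ 2 = 0 := by linear_combination h1
  exact mul_ne_zero he (pow_ne_zero 2 hv2) h2

/-- the value of a polynomial -/
noncomputable def ev {R : Type u} [CommRing R] [Algebra K R] (f : MvPolynomial (Fin n ⊕ Fin 2) K)
    (v : Fin n → R) (T : Fin 2 → R) : R :=
  MvPolynomial.aeval (Sum.elim v T) f

lemma ev_map {R S : Type u} [CommRing R] [Algebra K R] [CommRing S] [Algebra K S]
    (φ : R →ₐ[K] S) (f : MvPolynomial (Fin n ⊕ Fin 2) K) (v : Fin n → R) (T : Fin 2 → R) :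
    φ (ev f v T) = ev f (fun i => φ (v i)) fun j => φ (T j) := by
  rw [ev, ev, MvPolynomial.comp_aeval_apply]
  congr 1
  congr 1
  funext i
  rcases i with i | i <;> rfl

/-- bihomogeneous polynomials -/
def BH (f : MvPolynomial (Fin n ⊕ Fin 2) K) (d e : ℕ) : Prop :=
  ∀ (R : Type u) [CommRing R] [Algebra K R] (v : Fin n → R) (T : Fin 2 → R) (a b : R),
    ev f (a • v) (b • T) = a ^ d * b ^ e * ev f v T

/-- **a bihomogeneous polynomial vanishing at the zeros of a nondegenerate isotropic quadratic form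
is divisible by it on every line with a nonisotropic direction** -/
theorem quad_dvd (q : SB K n) (hq : q.ND) (hn : 3 ≤ n) {P0 : Fin n → K} (hP0 : P0 ≠ 0)
    (hP0' : q.f P0 P0 = 0) (f : MvPolynomial (Fin n ⊕ Fin 2) K) {d d' : ℕ} (hf : BH f d d')
    (T : Fin 2 → K) (hvan : ∀ Z, q.f Z Z = 0 → ev f Z T = 0)
    {Y e : Fin n → K} (he : q.f e e ≠ 0) (hY : ∀ c : K, Y ≠ c • e) :
    (C (q.f Y Y) + C (2 * q.f Y e) * X + C (q.f e e) * X ^ 2 : K[X]) ∣
      ev f (fun i => C (Y i) + C (e i) * X) fun j => C (T j) := by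
  obtain ⟨P, hP, hres⟩ := q.exists_res hq hn hP0 hP0' he hY
  set Q : K[X] := C (q.f Y Y) + C (2 * q.f Y e) * X + C (q.f e e) * X ^ 2 with hQ
  set l : K[X] := C (q.f P Y) + C (q.f P e) * X with hl
  set v : Fin n → K[X] := fun i => C (Y i) + C (e i) * X with hv
  set τ : Fin 2 → K[X] := fun j => C (T j) with hτ
  have hinf : Infinite K := Infinite.of_injective _ (Nat.cast_injective (R := K))
  -- the identity
  have hid : ev f (fun i => Q * C (P i) - 2 * l * v i) τ = 0 := by
    refine Polynomial.funext fun s => ?_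
    have h1 := ev_map (aeval s : K[X] →ₐ[K] K) f (fun i => Q * C (P i) - 2 * l * v i) τ
    simp only [coe_aeval_eq_eval] at h1
    rw [h1, eval_zero]
    have h2 : (fun i => eval s (Q * C (P i) - 2 * l * v i)) = q.ch P (Y + s • e) := by
      funext i
      have e1 := q.line Y e s
      have e2 : q.f P (Y + s • e) = q.f P Y + s * q.f P e := by
        rw [map_add, map_smul, smul_eq_mul]
      rw [SB.ch, e1, e2]
      simp only [hQ, hl, hv, eval_sub, eval_mul, eval_add, eval_C, eval_X, eval_pow,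
        eval_ofNat, Pi.sub_apply, Pi.smul_apply, Pi.add_apply, smul_eq_mul]
      ring
    have h3 : (fun j => eval s (τ j)) = T := by
      funext j
      simp [hτ]
    rw [h2, h3]
    exact hvan _ (q.ch_zero hP _)
  -- modulo `Q`
  set φ : K[X] →ₐ[K] K[X] ⧸ Ideal.span {Q} := Ideal.Quotient.mkₐ K (Ideal.span {Q}) with hφ
  have hφQ : φ Q = 0 := Ideal.Quotient.eq_zero_iff_mem.2 (Ideal.mem_span_singleton_self Q)
  have h1 := congrArg φ hid
  rw [ev_map, map_zero] at h1
  have h2 : (fun i => φ (Q * C (P i) - 2 * l * v i)) = φ (-(2 * l)) • fun i => φ (v i) := by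
    funext i
    rw [map_sub, map_mul, hφQ, zero_mul, zero_sub, Pi.smul_apply, smul_eq_mul, ← map_mul,
      ← map_neg]
    congr 1
    ring
  have h3 : (fun j => φ (τ j)) = (1 : K[X] ⧸ Ideal.span {Q}) • fun j => φ (τ j) := by
    rw [one_smul]
  rw [h2, h3, hf, one_pow, mul_one, ← ev_map, ← map_pow, ← map_mul] at h1
  have h4 : Q ∣ (-(2 * l)) ^ d * ev f v τ :=
    Ideal.mem_span_singleton.1 (Ideal.Quotient.eq_zero_iff_mem.1 h1)
  -- coprimality
  have hcop : IsCoprime Q (-(2 * l)) := by
    have h5 : (C (q.f P e) ^ 2) * Q - (C (q.f e e) * C (q.f P e) * X +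
        (C (2 * q.f Y e) * C (q.f P e) - C (q.f e e) * C (q.f P Y))) * l =
        C ((q.res Y e).f P P) := by
      rw [SB.res_val, q.s e P, q.s Y P]
      simp only [hQ, hl, C_add, C_sub, C_mul, C_ofNat]
      ring
    have h6 : (C ((q.res Y e).f P P)⁻¹ * C ((q.res Y e).f P P) : K[X]) = 1 := by
      rw [← C_mul, inv_mul_cancel₀ hres, C_1]
    have h7 : (C (2 : K)⁻¹ * 2 : K[X]) = 1 := by
      have : (2 : K[X]) = C 2 := rfl
      rw [this, ← C_mul, inv_mul_cancel₀ two_ne_zero, C_1]
    refine ⟨C ((q.res Y e).f P P)⁻¹ * (C (q.f P e) ^ 2), C ((q.res Y e).f P P)⁻¹ * C (2 : K)⁻¹ *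
      (C (q.f e e) * C (q.f P e) * X +
        (C (2 * q.f Y e) * C (q.f P e) - C (q.f e e) * C (q.f P Y))), ?_⟩
    linear_combination (C ((q.res Y e).f P P)⁻¹) * h5 + h6 - C ((q.res Y e).f P P)⁻¹ *
      (C (q.f e e) * C (q.f P e) * X +
        (C (2 * q.f Y e) * C (q.f P e) - C (q.f e e) * C (q.f P Y))) * l * h7
  exact hcop.pow_right.dvd_of_dvd_mul_left h4

/-- pseudo-division by a quadratic polynomial -/
lemma pdiv {R : Type u} [CommRing R] (a b c : R) (f : R[X]) :
    ∃ (N : ℕ) (g : R[X]) (r1 r0 : R),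
      C (a ^ N) * f = (C c + C b * X + C a * X ^ 2) * g + (C r1 * X + C r0) := by
  induction f using Polynomial.induction_on' with
  | add p q hp hq =>
    obtain ⟨N, g, r1, r0, h⟩ := hp
    obtain ⟨N', g', r1', r0', h'⟩ := hq
    refine ⟨N + N', C (a ^ N') * g + C (a ^ N) * g', a ^ N' * r1 + a ^ N * r1',
      a ^ N' * r0 + a ^ N * r0', ?_⟩
    simp only [pow_add, C_mul, C_add]
    linear_combination C (a ^ N') * h + C (a ^ N) * h'
  | monomial k r =>
    induction k with
    | zero => exact ⟨0, 0, 0, r, by simp⟩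
    | succ k ih =>
      obtain ⟨N, g, r1, r0, h⟩ := ih
      refine ⟨N + 1, C a * X * g + C r1, a * r0 - b * r1, -(c * r1), ?_⟩
      rw [← C_mul_X_pow_eq_monomial] at h ⊢
      simp only [pow_succ (a : R), C_mul, C_sub, C_neg]
      linear_combination C a * X * h

/-- **interpolation** -/
theorem interp (a b c : K[X]) (F : K[X][X]) {S : Set K} (hS : S.Infinite)
    (h : ∀ t ∈ S, a.eval t ≠ 0 ∧ (C (c.eval t) + C (b.eval t) * X + C (a.eval t) * X ^ 2) ∣
      F.map (evalRingHom t)) (h0 : a.eval 0 ≠ 0) (h0' : c.eval 0 = 0) :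
    (F.map (evalRingHom 0)).eval 0 = 0 := by
  obtain ⟨N, g, r1, r0, hF⟩ := pdiv a b c F
  have hmap : ∀ t : K, C (a.eval t ^ N) * F.map (evalRingHom t) =
      (C (c.eval t) + C (b.eval t) * X + C (a.eval t) * X ^ 2) * g.map (evalRingHom t) +
        (C (r1.eval t) * X + C (r0.eval t)) := by
    intro t
    have h1 := congrArg (Polynomial.map (evalRingHom t)) hF
    simpa only [Polynomial.map_mul, Polynomial.map_add, Polynomial.map_pow, map_C, map_X,
      coe_evalRingHom, eval_pow] using h1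
  have hr : ∀ t ∈ S, r1.eval t = 0 ∧ r0.eval t = 0 := by
    intro t ht
    obtain ⟨h1, h2⟩ := h t ht
    have h3 : (C (c.eval t) + C (b.eval t) * X + C (a.eval t) * X ^ 2) ∣
        (C (r1.eval t) * X + C (r0.eval t)) := by
      have h4 := (h2.mul_left (C (a.eval t ^ N)))
      rw [hmap t] at h4
      exact (dvd_add_right (Dvd.intro _ rfl)).1 h4
    have h4 : (C (r1.eval t) * X + C (r0.eval t) : K[X]) = 0 := by
      by_contra hne
      have h5 := natDegree_le_of_dvd h3 hne
      have h6 : (C (c.eval t) + C (b.eval t) * X + C (a.eval t) * X ^ 2 : K[X]).natDegree = 2 := by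
        compute_degree!
      have h7 : (C (r1.eval t) * X + C (r0.eval t) : K[X]).natDegree ≤ 1 := by
        compute_degree
      omega
    constructor
    · have h5 := congrArg (fun p : K[X] => p.coeff 1) h4
      simpa using h5
    · have h5 := congrArg (fun p : K[X] => p.coeff 0) h4
      simpa using h5
  have hz : ∀ r : K[X], (∀ t ∈ S, r.eval t = 0) → r = 0 := by
    intro r hr
    by_contra hne
    exact hS ((Polynomial.finite_setOfPred_isRoot hne).subset fun t ht => hr t ht)
  have h1 : r1 = 0 := hz r1 fun t ht => (hr t ht).1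
  have h2 : r0 = 0 := hz r0 fun t ht => (hr t ht).2
  have h3 := congrArg (eval 0) (hmap 0)
  rw [h1, h2] at h3
  simp only [eval_mul, eval_add, eval_C, eval_X, eval_pow, eval_zero, C_0, h0', mul_zero, zero_mul,
    add_zero, ne_eq, OfNat.ofNat_ne_zero, not_false_eq_true, zero_pow] at h3
  exact (mul_eq_zero.1 h3).resolve_left (pow_ne_zero _ h0)

end Pool.Agent.TH729.BQ
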