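import Pool.Agent.TH729.BQ.Fam
import Mathlib.RingTheory.Polynomial.Wronskian
import Mathlib.FieldTheory.Separable

/-!
# Transversality
-/

set_option autoImplicit false
set_option linter.unusedSimpArgs false
set_option linter.unusedTactic false
set_option linter.unusedSectionVars false

namespace Pool.Agent.TH729.BQ

open Polynomial

variable {K : Type*} {n : ℕ} [Field K] [CharZero K]

/-- a vanishing Wronskian -/
lemma wr {N M : K[X]} (h : derivative N * M = N * derivative M) :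
    ∃ a b : K, (a ≠ 0 ∨ b ≠ 0) ∧ C a * N = C b * M := by
  classical
  by_cases hN : N = 0
  · exact ⟨1, 0, Or.inl one_ne_zero, by rw [hN]; simp⟩
  let _ : GCDMonoid K[X] := EuclideanDomain.gcdMonoid K[X]
  obtain ⟨x, y, hx, hy, hu⟩ := extract_gcd N M
  set g := gcd N M with hg
  have hg0 : g ≠ 0 := by
    rintro h0
    rw [h0, zero_mul] at hx
    exact hN hx
  have hcop : IsCoprime x y := by
    have := (EuclideanDomain.gcd_isUnit_iff (x := x) (y := y)).1 hu
    exact this
  have hw : wronskian x y = 0 := by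
    rw [hx, hy] at h
    simp only [derivative_mul] at h
    have h1 : (g * g) * (x * derivative y - derivative x * y) = 0 := by
      linear_combination -h
    rw [wronskian]
    exact (mul_eq_zero.1 h1).resolve_left (mul_ne_zero hg0 hg0)
  obtain ⟨h1, h2⟩ := hcop.wronskian_eq_zero_iff.1 hw
  have e1 := derivative_eq_zero.1 h1
  have e2 := derivative_eq_zero.1 h2
  obtain ⟨a, ha⟩ := natDegree_eq_zero.1 e1
  obtain ⟨b, hb⟩ := natDegree_eq_zero.1 e2
  refine ⟨b, a, ?_, ?_⟩
  · by_contra hcon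
    push Not at hcon
    rw [← ha, ← hb, hcon.1, hcon.2, C_0] at hcop
    exact not_isCoprime_zero_zero hcop
  · rw [hx, hy, ← ha, ← hb]
    ring

lemma wr_coeff {N M : K[X]} (h : derivative N * M = N * derivative M) (i j : ℕ) :
    N.coeff i * M.coeff j = N.coeff j * M.coeff i := by
  obtain ⟨a, b, hab, h1⟩ := wr h
  have e1 : ∀ i, a * N.coeff i = b * M.coeff i := by
    intro i
    have := congrArg (fun p : K[X] => p.coeff i) h1
    simpa using this
  have hi := e1 i
  have hj := e1 j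
  rcases hab with h0 | h0
  · apply mul_left_cancel₀ h0
    linear_combination M.coeff j * hi - M.coeff i * hj
  · apply mul_left_cancel₀ h0
    linear_combination N.coeff j * hi - N.coeff i * hj

/-- homogeneous polynomial functions of degree `d` -/
def PH (d : ℕ) (G : (Fin n → K) → K) : Prop :=
  (∀ (s : K) v, G (s • v) = s ^ d * G v) ∧
    ∀ c : Fin n → K[X], ∃ p : K[X], ∀ t, p.eval t = G fun i => (c i).eval t

lemma PH.toPolyH {d : ℕ} {G : (Fin n → K) → K} (h : PH d G) : PolyH G := ⟨⟨d, h.1⟩, h.2⟩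

lemma PH.mul {d e : ℕ} {G G' : (Fin n → K) → K} (h : PH d G) (h' : PH e G') :
    PH (d + e) fun v => G v * G' v := by
  refine ⟨fun s v => ?_, fun c => ?_⟩
  · show G (s • v) * G' (s • v) = s ^ (d + e) * (G v * G' v)
    rw [h.1, h'.1, pow_add]
    ring
  · obtain ⟨p, hp⟩ := h.2 c
    obtain ⟨p', hp'⟩ := h'.2 c
    exact ⟨p * p', fun t => by
      show (p * p').eval t = G (fun i => (c i).eval t) * G' fun i => (c i).eval t
      rw [eval_mul, hp, hp']⟩

lemma PH.sub {d : ℕ} {G G' : (Fin n → K) → K} (h : PH d G) (h' : PH d G') :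
    PH d fun v => G v - G' v := by
  refine ⟨fun s v => ?_, fun c => ?_⟩
  · show G (s • v) - G' (s • v) = s ^ d * (G v - G' v)
    rw [h.1, h'.1]
    ring
  · obtain ⟨p, hp⟩ := h.2 c
    obtain ⟨p', hp'⟩ := h'.2 c
    exact ⟨p - p', fun t => by
      show (p - p').eval t = G (fun i => (c i).eval t) - G' fun i => (c i).eval t
      rw [eval_sub, hp, hp']⟩

lemma PH.lin (l : (Fin n → K) →ₗ[K] K) : PH 1 fun v => l v :=
  ⟨fun s v => by
    show l (s • v) = s ^ 1 * l v
    rw [map_smul, smul_eq_mul, pow_one], (fun_polyH l).2⟩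

lemma PH.quad (q : SB K n) : PH 2 fun v => q.f v v := by
  refine ⟨fun s v => ?_, q.polyH.2⟩
  simp only [map_smul, LinearMap.smul_apply, smul_eq_mul]
  ring

/-- the transversality function -/
def Fam.tr (F : Fam K n) (T S : Fin 2 → K) (u w Y : Fin n → K) : K :=
  (F.H S S).f Y Y * ((F.H T T).f w Y * (F.H T S).f u Y - (F.H T T).f u Y * (F.H T S).f w Y) -
    (F.H T S).f Y Y * ((F.H T T).f w Y * (F.H S S).f u Y - (F.H T T).f u Y * (F.H S S).f w Y)

lemma Fam.tr_PH (F : Fam K n) (T S : Fin 2 → K) (u w : Fin n → K) : PolyH (F.tr T S u w) := by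
  have l1 := PH.lin ((F.H T T).f w)
  have l2 := PH.lin ((F.H T T).f u)
  have h := ((PH.quad (F.H S S)).mul ((l1.mul (PH.lin ((F.H T S).f u))).sub
    (l2.mul (PH.lin ((F.H T S).f w))))).sub ((PH.quad (F.H T S)).mul
      ((l1.mul (PH.lin ((F.H S S).f u))).sub (l2.mul (PH.lin ((F.H S S).f w)))))
  exact h.toPolyH

lemma quartic_coeff (a b c d e : K) :
    (C a + C b * X + C c * X ^ 2 + C d * X ^ 3 + C e * X ^ 4 : K[X]).coeff 0 = a ∧
      (C a + C b * X + C c * X ^ 2 + C d * X ^ 3 + C e * X ^ 4 : K[X]).coeff 4 = e := by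
  constructor
  · simp only [coeff_add, coeff_C_mul, coeff_X_pow, coeff_X, coeff_C]
    norm_num
  · simp only [coeff_add, coeff_C_mul, coeff_X_pow, coeff_X, coeff_C]
    norm_num

/-- values on a conic -/
lemma conic_val (h : SB K n) (Y0 Y1 Y2 : Fin n → K) (t : K) :
    h.f (Y0 + t • Y1 + t ^ 2 • Y2) (Y0 + t • Y1 + t ^ 2 • Y2) = h.f Y0 Y0 + 2 * h.f Y0 Y1 * t +
      (2 * h.f Y0 Y2 + h.f Y1 Y1) * t ^ 2 + 2 * h.f Y1 Y2 * t ^ 3 + h.f Y2 Y2 * t ^ 4 := by
  simp only [map_add, map_smul, LinearMap.add_apply, LinearMap.smul_apply, smul_eq_mul,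
    h.s Y1 Y0, h.s Y2 Y0, h.s Y2 Y1]
  ring

lemma conic_der (h : SB K n) (Y0 Y1 Y2 : Fin n → K) (t : K) :
    2 * h.f (Y1 + (2 * t) • Y2) (Y0 + t • Y1 + t ^ 2 • Y2) = 2 * h.f Y0 Y1 +
      2 * (2 * h.f Y0 Y2 + h.f Y1 Y1) * t + 3 * (2 * h.f Y1 Y2) * t ^ 2 +
        4 * h.f Y2 Y2 * t ^ 3 := by
  simp only [map_add, map_smul, LinearMap.add_apply, LinearMap.smul_apply, smul_eq_mul,
    h.s Y1 Y0, h.s Y2 Y0, h.s Y2 Y1]
  ring

/-- **transversality at some zero** -/
theorem nv_tr (F : Fam K n) (hF : F.Ind) (hn : 3 ≤ n) {T S : Fin 2 → K}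
    (hT : (F.H T T).ND) (hTS : wedge T S ≠ 0) {P : Fin n → K} (hP : P ≠ 0)
    (hP0 : (F.H T T).f P P = 0) : ∃ u w, NV (F.H T T) P (F.tr T S u w) := by
  by_contra hcon
  push Not at hcon
  set q := F.H T T with hq
  set h := F.H T S with hh
  set g := F.H S S with hg
  -- the derivative along tangent vectors
  have hD : ∀ Z v, q.f Z Z = 0 → q.f P Z ≠ 0 → q.f v Z = 0 →
      g.f Z Z * h.f v Z - h.f Z Z * g.f v Z = 0 := by
    intro Z v h1 h2 h3
    have hZ : Z ≠ 0 := by
      rintro rfl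
      exact h2 (map_zero _)
    obtain ⟨w, hw⟩ := q.exists_one hT hZ
    rw [q.s] at hw
    by_contra h4
    refine hcon v w ⟨Z, h1, h2, ?_⟩
    rw [Fam.tr, ← hq, ← hh, ← hg, hw, h3]
    intro h5
    apply h4
    linear_combination h5
  -- two zeros
  have hpair : ∀ Z1 Z2, q.f Z1 Z1 = 0 → q.f Z2 Z2 = 0 → q.f P Z1 ≠ 0 → q.f P Z2 ≠ 0 →
      h.f Z1 Z1 * g.f Z2 Z2 = h.f Z2 Z2 * g.f Z1 Z1 := by
    intro Z1 Z2 h1 h2 h3 h4
    set α := q.f P Z1 with hα
    set β := q.f P Z2 with hβ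
    set κ := q.f Z1 Z2 with hκ
    set Y0 : Fin n → K := (-α) • Z1 with hY0
    set Y1 : Fin n → K := κ • P + ((-β) • Z1 + (-α) • Z2) with hY1
    set Y2 : Fin n → K := (-β) • Z2 with hY2
    have hz : ∀ t : K, q.f (Y0 + t • Y1 + t ^ 2 • Y2) (Y0 + t • Y1 + t ^ 2 • Y2) = 0 := by
      intro t
      rw [conic_val]
      simp only [hY0, hY1, hY2, map_add, map_smul, LinearMap.add_apply, LinearMap.smul_apply,
        smul_eq_mul, q.s Z1 P, q.s Z2 P, q.s Z2 Z1, ← hα, ← hβ, ← hκ, h1, h2, hP0]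
      ring
    have hder : ∀ t : K, q.f (Y1 + (2 * t) • Y2) (Y0 + t • Y1 + t ^ 2 • Y2) = 0 := by
      intro t
      have h5 : (2 : K) * q.f (Y1 + (2 * t) • Y2) (Y0 + t • Y1 + t ^ 2 • Y2) = 0 := by
        rw [conic_der]
        simp only [hY0, hY1, hY2, map_add, map_smul, LinearMap.add_apply, LinearMap.smul_apply,
          smul_eq_mul, q.s Z1 P, q.s Z2 P, q.s Z2 Z1, ← hα, ← hβ, ← hκ, h1, h2, hP0]
        ring
      exact (mul_eq_zero.1 h5).resolve_left two_ne_zero
    have hPY : ∀ t : K, q.f P (Y0 + t • Y1 + t ^ 2 • Y2) = -(α + t * β) ^ 2 := by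
      intro t
      simp only [hY0, hY1, hY2, map_add, map_smul, LinearMap.add_apply, LinearMap.smul_apply,
        smul_eq_mul, ← hα, ← hβ, ← hκ, hP0]
      ring
    set N : K[X] := C (h.f Y0 Y0) + C (2 * h.f Y0 Y1) * X + C (2 * h.f Y0 Y2 + h.f Y1 Y1) * X ^ 2 +
      C (2 * h.f Y1 Y2) * X ^ 3 + C (h.f Y2 Y2) * X ^ 4 with hN
    set M : K[X] := C (g.f Y0 Y0) + C (2 * g.f Y0 Y1) * X + C (2 * g.f Y0 Y2 + g.f Y1 Y1) * X ^ 2 +
      C (2 * g.f Y1 Y2) * X ^ 3 + C (g.f Y2 Y2) * X ^ 4 with hM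
    have hWr : derivative N * M = N * derivative M := by
      rw [← sub_eq_zero]
      by_contra hne
      have := inf_K (K := K)
      obtain ⟨t, ht⟩ := ((Polynomial.finite_setOfPred_isRoot hne).union
        (Set.finite_singleton (-α / β))).infinite_compl.nonempty
      rw [Set.mem_compl_iff, Set.mem_union, not_or] at ht
      apply ht.1
      have ht2 : α + t * β ≠ 0 := by
        intro h5
        apply ht.2
        rw [Set.mem_singleton_iff]
        field_simp
        linear_combination h5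
      have h6 := hD _ (Y1 + (2 * t) • Y2) (hz t) (by
        rw [hPY]
        exact neg_ne_zero.2 (pow_ne_zero 2 ht2)) (hder t)
      have e1 := conic_val h Y0 Y1 Y2 t
      have e2 := conic_val g Y0 Y1 Y2 t
      have e3 := conic_der h Y0 Y1 Y2 t
      have e4 := conic_der g Y0 Y1 Y2 t
      show (derivative N * M - N * derivative M).eval t = 0
      have e5 : N.eval t = h.f (Y0 + t • Y1 + t ^ 2 • Y2) (Y0 + t • Y1 + t ^ 2 • Y2) := by
        rw [e1, hN]
        simp only [eval_add, eval_mul, eval_C, eval_X, eval_pow]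
      have e6 : M.eval t = g.f (Y0 + t • Y1 + t ^ 2 • Y2) (Y0 + t • Y1 + t ^ 2 • Y2) := by
        rw [e2, hM]
        simp only [eval_add, eval_mul, eval_C, eval_X, eval_pow]
      have e7 : (derivative N).eval t =
          2 * h.f (Y1 + (2 * t) • Y2) (Y0 + t • Y1 + t ^ 2 • Y2) := by
        rw [e3, hN]
        simp only [derivative_add, derivative_C, derivative_C_mul, derivative_X,
          derivative_X_pow, eval_add, eval_mul, eval_C, eval_X, eval_pow, eval_zero, eval_one,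
          Nat.cast_ofNat, eval_ofNat, Nat.add_one_sub_one]
        norm_num
        ring
      have e8 : (derivative M).eval t =
          2 * g.f (Y1 + (2 * t) • Y2) (Y0 + t • Y1 + t ^ 2 • Y2) := by
        rw [e4, hM]
        simp only [derivative_add, derivative_C, derivative_C_mul, derivative_X,
          derivative_X_pow, eval_add, eval_mul, eval_C, eval_X, eval_pow, eval_zero, eval_one,
          Nat.cast_ofNat, eval_ofNat, Nat.add_one_sub_one]
        norm_num
        ring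
      rw [eval_sub, eval_mul, eval_mul, e5, e6, e7, e8]
      linear_combination 2 * h6
    have h7 := wr_coeff hWr 0 4
    have c1 : N.coeff 0 = α ^ 2 * h.f Z1 Z1 := by
      rw [hN, (quartic_coeff _ _ _ _ _).1, hY0]
      simp only [map_smul, LinearMap.smul_apply, smul_eq_mul]
      ring
    have c2 : N.coeff 4 = β ^ 2 * h.f Z2 Z2 := by
      rw [hN, (quartic_coeff _ _ _ _ _).2, hY2]
      simp only [map_smul, LinearMap.smul_apply, smul_eq_mul]
      ring
    have c3 : M.coeff 0 = α ^ 2 * g.f Z1 Z1 := by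
      rw [hM, (quartic_coeff _ _ _ _ _).1, hY0]
      simp only [map_smul, LinearMap.smul_apply, smul_eq_mul]
      ring
    have c4 : M.coeff 4 = β ^ 2 * g.f Z2 Z2 := by
      rw [hM, (quartic_coeff _ _ _ _ _).2, hY2]
      simp only [map_smul, LinearMap.smul_apply, smul_eq_mul]
      ring
    rw [c1, c2, c3, c4] at h7
    have h8 : (α ^ 2 * β ^ 2) * (h.f Z1 Z1 * g.f Z2 Z2 - h.f Z2 Z2 * g.f Z1 Z1) = 0 := by
      linear_combination h7
    exact sub_eq_zero.1 ((mul_eq_zero.1 h8).resolve_left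
      (mul_ne_zero (pow_ne_zero 2 h3) (pow_ne_zero 2 h4)))
  -- a zero with a nonzero value
  obtain ⟨Z1, hZ1, hPZ1, hne⟩ : ∃ Z1, q.f Z1 Z1 = 0 ∧ q.f P Z1 ≠ 0 ∧
      ¬(h.f Z1 Z1 = 0 ∧ g.f Z1 Z1 = 0) := by
    by_contra hcon2
    push Not at hcon2
    obtain ⟨c, hc⟩ := q.prop h hT hn hP hP0 fun Z h1 h2 => (hcon2 Z h1 h2).1
    have := (F.ind2 hF hTS (α := -c) (β := 1) (γ := 0) (fun v => by
      have := hc v
      linear_combination this)).2.1
    exact one_ne_zero this
  set k : SB K n :=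
    { f := g.f Z1 Z1 • h.f + (-(h.f Z1 Z1)) • g.f
      s := fun a b => by
        simp only [LinearMap.add_apply, LinearMap.smul_apply, smul_eq_mul, h.s a b, g.s a b] }
    with hk
  have hkv : ∀ v, k.f v v = g.f Z1 Z1 * h.f v v - h.f Z1 Z1 * g.f v v := by
    intro v
    simp only [hk, LinearMap.add_apply, LinearMap.smul_apply, smul_eq_mul]
    ring
  obtain ⟨c, hc⟩ := q.prop k hT hn hP hP0 fun Z h1 h2 => by
    rw [hkv]
    linear_combination -(hpair Z1 Z hZ1 h1 hPZ1 h2)
  obtain ⟨-, e1, e2⟩ := F.ind2 hF hTS (α := -c) (β := g.f Z1 Z1) (γ := -(h.f Z1 Z1)) (fun v => by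
    have := hc v
    rw [hkv] at this
    linear_combination this)
  exact hne ⟨neg_eq_zero.1 e2, e1⟩

end Pool.Agent.TH729.BQ
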