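import Pool.Agent.TH729.BQ.R1
import Mathlib.Analysis.Calculus.InverseFunctionTheorem.Deriv
import Mathlib.Analysis.Calculus.Deriv.Polynomial
import Mathlib.Analysis.Calculus.Deriv.Inv

/-!
# Moving in the fibres over a complete field
-/

set_option autoImplicit false
set_option linter.unusedSimpArgs false
set_option linter.unusedTactic false
set_option linter.unusedSectionVars false

namespace Pool.Agent.TH729.BQ

open Polynomial Filter Topology

variable {L : Type*} [NontriviallyNormedField L] [CharZero L] {n : ℕ}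

/-- reaching a zero by two chords -/
lemma SB.reach (q : SB L n) (hq : q.ND) (hn : 3 ≤ n) {Y Z : Fin n → L} (hY : Y ≠ 0)
    (hZ0 : q.f Z Z = 0) :
    ∃ (v : Fin n → L) (c : L), c • q.ch (q.ch Y v) Z = Z := by
  by_cases hZ : Z = 0
  · exact ⟨0, 0, by rw [zero_smul, hZ]⟩
  obtain ⟨v, hv⟩ : ∃ v, q.f (q.ch Y v) Z ≠ 0 := by
    by_cases hYZ : q.f Y Z = 0
    · obtain ⟨v, hv1, hv2⟩ := avoid_two (l := q.f Y) (l' := q.f Z)
        ((q.exists_one hq hY).imp fun z hz => by rw [hz]; exact one_ne_zero)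
        ((q.exists_one hq hZ).imp fun z hz => by rw [hz]; exact one_ne_zero)
      refine ⟨v, ?_⟩
      rw [q.s, SB.ch, map_sub, map_smul, map_smul, q.s Z Y, hYZ, smul_zero, zero_sub, smul_eq_mul]
      exact neg_ne_zero.2 (mul_ne_zero (mul_ne_zero two_ne_zero hv1) hv2)
    · obtain ⟨w, hw, hw'⟩ := q.exists_perp hq hn hY
      refine ⟨w, ?_⟩
      rw [SB.ch, hw, mul_zero, zero_smul, sub_zero, map_smul, LinearMap.smul_apply, smul_eq_mul]
      exact mul_ne_zero hw' hYZ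
  refine ⟨v, (-(2 * q.f (q.ch Y v) Z))⁻¹, ?_⟩
  rw [q.ch_of_zero hZ0, smul_smul, inv_mul_cancel₀ (neg_ne_zero.2 (mul_ne_zero two_ne_zero hv)),
    one_smul]

/-- **the fibre through a zero moves** -/
theorem local_move [CompleteSpace L] (F : Fam L n) (hF : F.Ind) (hn : 3 ≤ n)
    {𝓑 : Finset (Fin 2 → L)} (h𝓑 : ∀ R ∈ 𝓑, R ≠ 0)
    (hbad : ∀ T, T ≠ 0 → (∀ R ∈ 𝓑, wedge T R ≠ 0) → (F.H T T).ND)
    {Y : Fin n → L} {T : Fin 2 → L} (hY : Y ≠ 0) (hT0 : T ≠ 0) (hT : ∀ R ∈ 𝓑, wedge T R ≠ 0)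
    (hY0 : (F.H T T).f Y Y = 0) :
    ∃ (Y2 : Fin n → L) (S : Fin 2 → L), (F.H T T).f Y2 Y2 = 0 ∧ Y2 ≠ 0 ∧
      (F.H (F.oth Y2 T S) (F.oth Y2 T S)).ND ∧
      ∀ᶠ T' in 𝓝 T, ∃ (Z : Fin n → L) (c : L), c ≠ 0 ∧
        (F.H (F.oth Y2 T S) (F.oth Y2 T S)).f Z Z = 0 ∧ Z ≠ 0 ∧
          F.oth Z (F.oth Y2 T S) T = c • T' := by
  classical
  obtain ⟨S, hS⟩ := exists_wedge hT0
  have hND := hbad T hT0 hT
  obtain ⟨u, w, hnv⟩ := nv_tr F hF hn hND hS hY hY0
  obtain ⟨g1, g2⟩ := NV.prod hY0 (insert T 𝓑) (G := fun R v => (F.wf T S R).f v v)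
    (fun R => (F.wf T S R).polyH) (nv_one _ hND hY hY0)
    (fun R hR => F.nv_wf hF hn hND hS (by
      rcases Finset.mem_insert.1 hR with rfl | hR
      · exact hT0
      · exact h𝓑 R hR) hY hY0)
  obtain ⟨Y2, hY20, hYY2, hG⟩ := NV.mul hY0 g1 (F.tr_PH T S u w) g2 hnv
  obtain ⟨hG1, hG2⟩ := mul_ne_zero_iff.1 hG
  rw [Finset.prod_ne_zero_iff] at hG1
  have hY2 : Y2 ≠ 0 := by
    rintro rfl
    exact hYY2 (map_zero _)
  set T' := F.oth Y2 T S with hT'
  have hwR : ∀ R ∈ insert T 𝓑, wedge T' R ≠ 0 := by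
    intro R hR
    have := hG1 R hR
    rwa [F.wf_val] at this
  have hT'T : wedge T' T ≠ 0 := hwR T (Finset.mem_insert_self _ _)
  have hTT' : wedge T T' ≠ 0 := by
    rw [wedge_neg]
    exact neg_ne_zero.2 hT'T
  have hT'0 : T' ≠ 0 := by
    intro h
    apply hT'T
    rw [h]
    simp [wedge]
  have hND' : (F.H T' T').ND := hbad T' hT'0 fun R hR => hwR R (Finset.mem_insert_of_mem hR)
  refine ⟨Y2, S, hY20, hY2, hND', ?_⟩
  set q := F.H T T with hq
  set q' := F.H T' T' with hq'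
  set p := F.H T' T with hp
  have hY2q' : q'.f Y2 Y2 = 0 := F.oth_root S hY20
  -- the value of the other root
  set a := (F.H S S).f Y2 Y2 with ha
  set b := -2 * (F.H T S).f Y2 Y2 with hb
  have hT'ab : T' = a • T + b • S := rfl
  have hb0 : b ≠ 0 := by
    intro h
    apply hT'T
    rw [hT'ab, wedge_comb, wedge_self, h]
    ring
  have hh0 : (F.H T S).f Y2 Y2 ≠ 0 := by
    intro h
    exact hb0 (by rw [hb, h, mul_zero])
  have hpY2 : p.f Y2 Y2 ≠ 0 := by
    rw [hp, hT'ab, F.H_comb']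
    change a * q.f Y2 Y2 + b * (F.H T S).f Y2 Y2 ≠ 0
    rw [hY20, mul_zero, zero_add]
    exact mul_ne_zero hb0 hh0
  -- a tangent vector
  set v0 : Fin n → L := q.f w Y2 • u + (-(q.f u Y2)) • w with hv0
  have hqv0 : q.f v0 Y2 = 0 := by
    simp only [hv0, map_add, map_smul, LinearMap.add_apply, LinearMap.smul_apply, smul_eq_mul]
    ring
  have hq'v0 : q'.f v0 Y2 ≠ 0 := by
    have h1 : q'.f v0 Y2 = 2 * b * F.tr T S u w Y2 := by
      rw [hq', hT'ab, F.H_comb]
      change a ^ 2 * q.f v0 Y2 + _ + _ = _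
      rw [hqv0, Fam.tr, ← hq, ← ha]
      simp only [hv0, map_add, map_smul, LinearMap.add_apply, LinearMap.smul_apply, smul_eq_mul]
      rw [hb]
      ring
    rw [h1]
    exact mul_ne_zero (mul_ne_zero two_ne_zero hb0) hG2
  obtain ⟨z, hz⟩ := q.exists_one hND hY2
  set v' : Fin n → L := z + (-(q'.f z Y2) / q'.f v0 Y2) • v0 with hv'
  have hq'v' : q'.f Y2 v' = 0 := by
    rw [q'.s, hv', map_add, map_smul, LinearMap.add_apply, LinearMap.smul_apply, smul_eq_mul]
    field_simp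
    try ring
  have hqv' : q.f Y2 v' = 1 := by
    rw [hv', map_add, map_smul, q.s Y2 v0, hqv0, hz, smul_zero, add_zero]
  obtain ⟨w', hw'0, hw'1, -⟩ := nv_one q' hND' hY2 hY2q'
  set a0 := q'.f w' Y2 with ha0
  have ha00 : a0 ≠ 0 := by
    rw [ha0, q'.s]
    exact hw'1
  -- the polynomials
  obtain ⟨pβ, hpβ⟩ := ch_poly q' w' Y2 v' (p.polyH)
  set pα : L[X] := (C (q'.f v' v') * X ^ 2) ^ 2 * C (q.f w' w') -
    4 * (C (q'.f v' v') * X ^ 2) * (C a0 + C (q'.f w' v') * X) *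
      (C (q.f w' Y2) + C (q.f w' v') * X) +
    4 * (C a0 + C (q'.f w' v') * X) ^ 2 * (C 2 * X + C (q.f v' v') * X ^ 2) with hpα
  have hα : ∀ t, pα.eval t = q.f (q'.ch w' (Y2 + t • v')) (q'.ch w' (Y2 + t • v')) := by
    intro t
    have e1 : q'.f (Y2 + t • v') (Y2 + t • v') = q'.f v' v' * t ^ 2 := by
      rw [q'.line, hY2q', hq'v']
      ring
    have e2 : q.f (Y2 + t • v') (Y2 + t • v') = 2 * t + q.f v' v' * t ^ 2 := by
      rw [q.line]
      rw [show q.f Y2 Y2 = 0 from hY20, hqv']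
      ring
    have e3 : q'.f w' (Y2 + t • v') = a0 + q'.f w' v' * t := by
      rw [map_add, map_smul, smul_eq_mul, ← ha0]
      ring
    have e4 : q.f w' (Y2 + t • v') = q.f w' Y2 + q.f w' v' * t := by
      rw [map_add, map_smul, smul_eq_mul]
      ring
    rw [q'.ch_val q, e1, e2, e3, e4, hpα]
    simp only [eval_sub, eval_add, eval_mul, eval_C, eval_X, eval_pow, eval_ofNat]
  have hα0 : pα.eval 0 = 0 := by
    rw [hpα]
    simp
  have hα1 : (derivative pα).eval 0 = 8 * a0 ^ 2 := by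
    rw [hpα]
    simp only [derivative_add, derivative_sub, derivative_mul, derivative_C, derivative_X,
      derivative_X_pow, derivative_pow, eval_add, eval_sub, eval_mul, eval_pow, eval_C, eval_X,
      eval_zero, eval_one, eval_ofNat, derivative_ofNat]
    norm_num
    ring
  have hβ0 : pβ.eval 0 ≠ 0 := by
    rw [hpβ, zero_smul, add_zero, SB.ch, hY2q', zero_smul, zero_sub]
    simp only [map_neg, map_smul, LinearMap.neg_apply, LinearMap.smul_apply, smul_eq_mul]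
    intro h
    have : (2 * a0) * (2 * a0) * p.f Y2 Y2 = 0 := by linear_combination h
    exact mul_ne_zero (mul_ne_zero (mul_ne_zero two_ne_zero ha00) (mul_ne_zero two_ne_zero ha00))
      hpY2 this
  -- the ratio
  set τ : L → L := fun t => pα.eval t / (C 2 * pβ).eval t with hτ
  have h2β : ∀ t, (C 2 * pβ).eval t = 2 * pβ.eval t := fun t => by rw [eval_mul, eval_C]
  have h2β0 : (C 2 * pβ).eval 0 ≠ 0 := by
    rw [h2β]
    exact mul_ne_zero two_ne_zero hβ0
  have hder : HasStrictDerivAt τ (((derivative pα).eval 0 * (C 2 * pβ).eval 0 -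
      pα.eval 0 * (derivative (C 2 * pβ)).eval 0) / ((C 2 * pβ).eval 0) ^ 2) 0 :=
    (pα.hasStrictDerivAt 0).fun_div ((C 2 * pβ).hasStrictDerivAt 0) h2β0
  have hderne : ((derivative pα).eval 0 * (C 2 * pβ).eval 0 -
      pα.eval 0 * (derivative (C 2 * pβ)).eval 0) / ((C 2 * pβ).eval 0) ^ 2 ≠ 0 := by
    rw [hα0, zero_mul, sub_zero, hα1]
    exact div_ne_zero (mul_ne_zero (mul_ne_zero (by norm_num) (pow_ne_zero 2 ha00)) h2β0)
      (pow_ne_zero 2 h2β0)
  have hmap := hder.map_nhds_eq hderne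
  have hτ0 : τ 0 = 0 := by
    rw [hτ]
    simp only [hα0, zero_div]
  rw [hτ0] at hmap
  have hev : ∀ᶠ t in 𝓝 (0 : L), pβ.eval t ≠ 0 := (pβ.hasStrictDerivAt 0).hasDerivAt.continuousAt.eventually_ne hβ0
  have him : τ '' {t | pβ.eval t ≠ 0} ∈ 𝓝 (0 : L) := by
    rw [← hmap]
    exact Filter.image_mem_map hev
  -- the target
  have hc1 : Continuous fun T₀ : Fin 2 → L => wedge T₀ T := by
    unfold wedge
    fun_prop
  have hc2 : Continuous fun T₀ : Fin 2 → L => wedge T₀ T' := by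
    unfold wedge
    fun_prop
  have hρ : Tendsto (fun T₀ : Fin 2 → L => wedge T₀ T / wedge T₀ T') (𝓝 T) (𝓝 0) := by
    have := (hc1.tendsto T).div (hc2.tendsto T) hTT'
    rwa [wedge_self, zero_div] at this
  filter_upwards [hρ.eventually him, hc2.continuousAt.eventually_ne hTT'] with T₀ h1 h2
  obtain ⟨t, ht1, ht2⟩ := h1
  have ht1' : pβ.eval t ≠ 0 := ht1
  set Z := q'.ch w' (Y2 + t • v') with hZ
  have hpZ : p.f Z Z ≠ 0 := by
    rw [← hpβ]
    exact ht1'
  have hαZ : q.f Z Z = τ t * (2 * p.f Z Z) := by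
    have e5 : pα.eval t = q.f Z Z := hα t
    have e6 : pβ.eval t = p.f Z Z := hpβ t
    rw [hτ]
    simp only [h2β]
    rw [e5, e6]
    field_simp
  set W := F.oth Z T' T with hW
  have hWab : W = q.f Z Z • T' + (-2 * p.f Z Z) • T := rfl
  have hW1 : wedge W T = q.f Z Z * wedge T' T := by
    rw [hWab, wedge_comb, wedge_self, mul_zero, add_zero]
  have hW2 : wedge W T' = -2 * p.f Z Z * wedge T T' := by
    rw [hWab, wedge_comb, wedge_self, mul_zero, zero_add]
  set c := wedge W T' / wedge T₀ T' with hc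
  have hWT' : wedge W T' ≠ 0 := by
    rw [hW2]
    exact mul_ne_zero (mul_ne_zero (by norm_num) hpZ) hTT'
  have hcT' : wedge W T' = c * wedge T₀ T' := by
    rw [hc]
    field_simp
  have hcT : wedge W T = c * wedge T₀ T := by
    have h3 : wedge T₀ T = τ t * wedge T₀ T' := by
      rw [ht2]
      field_simp
    rw [h3, ← mul_assoc, mul_comm c, mul_assoc, ← hcT', hW1, hW2, hαZ, wedge_neg T T']
    ring
  refine ⟨Z, c, div_ne_zero hWT' h2, q'.ch_zero hw'0 _, ?_, ?_⟩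
  · intro h
    rw [h] at hpZ
    exact hpZ (map_zero _)
  · have e1 := wedge_dec T T' W
    have e2 := wedge_dec T T' T₀
    have e3 : wedge T T' • W = wedge T T' • (c • T₀) := by
      rw [e1, smul_comm, e2, smul_add, smul_smul, smul_smul, hcT', wedge_neg W T, wedge_neg T₀ T,
        hcT]
      congr 1
      congr 1
      ring
    exact smul_right_injective _ hTT' e3

end Pool.Agent.TH729.BQ
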