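import Pool.Agent.TH729.BQ.Mat2
import Pool.Agent.TH729.CC.TQ

/-!
# The real closure of the rational points is semialgebraic
-/

set_option autoImplicit false
set_option linter.unusedSimpArgs false
set_option linter.unusedTactic false
set_option linter.unusedSectionVars false

namespace Pool.Agent.TH729.BQ

open Filter Topology Set MvPolynomial Matrix Pool.Agent.H581R2 Pool.Agent.TH729.SQ
  Pool.Agent.TH729.CC

section

variable {R : Type*} [CommRing R] {m : ℕ}

/-- the quadratic polynomial of a matrix, in the variables `1, x₁, …, x_m` -/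
noncomputable def qp (M : Matrix (Fin (m + 1)) (Fin (m + 1)) R) : MvPolynomial (Fin (m + 1)) R :=
  ∑ i, ∑ j, C (M i j) * ((if i = 0 then 1 else X i) * (if j = 0 then 1 else X j))

lemma qp_eval₂ {S : Type*} [CommRing S] (σ : R →+* S) (M : Matrix (Fin (m + 1)) (Fin (m + 1)) R)
    (y : Fin (m + 1) → S) : eval₂ σ y (qp M) =
      Function.update y 0 1 ⬝ᵥ (M.map σ) *ᵥ Function.update y 0 1 := by
  have hv : ∀ i : Fin (m + 1), eval₂ σ y (if i = 0 then 1 else X i : MvPolynomial (Fin (m + 1)) R) =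
      Function.update y 0 1 i := by
    intro i
    by_cases hi : i = 0
    · subst hi
      simp
    · rw [if_neg hi, eval₂_X, Function.update_of_ne hi]
  simp only [qp, MvPolynomial.eval₂_sum, eval₂_mul, eval₂_C, hv, dotProduct, mulVec, Matrix.map_apply,
    Finset.mul_sum]
  refine Finset.sum_congr rfl fun i _ => Finset.sum_congr rfl fun j _ => ?_
  ring

lemma qp_eval (M : Matrix (Fin (m + 1)) (Fin (m + 1)) R) (y : Fin (m + 1) → R) :
    eval y (qp M) = Function.update y 0 1 ⬝ᵥ M *ᵥ Function.update y 0 1 := by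
  have h1 := qp_eval₂ (RingHom.id R) M y
  have h2 : M.map (RingHom.id R) = M := by
    ext i j
    rfl
  rw [h2] at h1
  exact h1

lemma qp_deg [Nontrivial R] (M : Matrix (Fin (m + 1)) (Fin (m + 1)) R) :
    (qp M).totalDegree ≤ 2 := by
  have hX : ∀ i : Fin (m + 1),
      (if i = 0 then 1 else X i : MvPolynomial (Fin (m + 1)) R).totalDegree ≤ 1 := by
    intro i
    split_ifs
    · simp
    · simp
  refine totalDegree_finsetSum_le fun i _ => totalDegree_finsetSum_le fun j _ => ?_
  refine (totalDegree_mul _ _).trans ?_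
  rw [totalDegree_C, zero_add]
  exact (totalDegree_mul _ _).trans (add_le_add (hX i) (hX j))

end

/-- polynomials with algebraic coefficients -/
lemma PA_eval₂ {K : Type*} [Field K] (σ : K →+* ℝ) (hσ : ∀ r, IsAlgebraic ℚ (σ r)) {ι : Type}
    (q : MvPolynomial ι K) : PA fun v : ι → ℝ => eval₂ σ v q := by
  induction q using MvPolynomial.induction_on with
  | C a =>
    simp only [eval₂_C]
    exact PA.const (hσ a)
  | add p q hp hq =>
    simp only [eval₂_add]
    exact hp.add hq
  | mul_X p i hp =>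
    simp only [eval₂_mul, eval₂_X]
    exact hp.mul (PA.coord i)

variable {K : Type*} [Field K] [CharZero K] {m : ℕ}

/-- the affine hypersurface -/
def Va {R : Type*} [CommRing R] (A B C : Matrix (Fin (m + 1)) (Fin (m + 1)) R) :
    Set (Fin (m + 1) → R) :=
  {y | Function.update y 0 1 ⬝ᵥ fib A B C ![y 0, 1] *ᵥ Function.update y 0 1 = 0}

/-- its points in the smooth fibres -/
def Vg {R : Type*} [CommRing R] (A B C : Matrix (Fin (m + 1)) (Fin (m + 1)) R) :
    Set (Fin (m + 1) → R) :=
  {y | y ∈ Va A B C ∧ (fib A B C ![y 0, 1]).det ≠ 0}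

lemma fib_map {R S : Type*} [CommRing R] [CommRing S] {n : ℕ} (σ : R →+* S)
    (A B C : Matrix (Fin n) (Fin n) R) (T : Fin 2 → R) :
    fib (A.map σ) (B.map σ) (C.map σ) (fun i => σ (T i)) = (fib A B C T).map σ := by
  ext k l
  simp [fib]

lemma vec2 {R S : Type*} [CommRing R] [CommRing S] (σ : R →+* S) (r : R) :
    ![σ r, 1] = fun i => σ (![r, 1] i) := by
  funext i
  fin_cases i
  · simp
  · simp

lemma upd_map {R S : Type*} [CommRing R] [CommRing S] (σ : R →+* S) (y : Fin (m + 1) → R) :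
    Function.update (fun i => σ (y i)) 0 1 = fun i => σ (Function.update y 0 1 i) := by
  funext i
  by_cases hi : i = 0
  · subst hi
    simp
  · simp [hi]

lemma dot_map {R S : Type*} [CommRing R] [CommRing S] {n : ℕ} (σ : R →+* S)
    (M : Matrix (Fin n) (Fin n) R) (v w : Fin n → R) :
    (fun i => σ (v i)) ⬝ᵥ (M.map σ) *ᵥ (fun i => σ (w i)) = σ (v ⬝ᵥ M *ᵥ w) := by
  simp only [dotProduct, mulVec, map_sum, map_mul, Matrix.map_apply]

lemma mem_Va_map {S : Type*} [Field S] (σ : K →+* S)
    (A B C : Matrix (Fin (m + 1)) (Fin (m + 1)) K) (y : Fin (m + 1) → K) :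
    (fun i => σ (y i)) ∈ Va (A.map σ) (B.map σ) (C.map σ) ↔ y ∈ Va A B C := by
  show _ = _ ↔ _ = _
  have h1 : (![(fun i => σ (y i)) 0, 1] : Fin 2 → S) = fun i => σ (![y 0, 1] i) := vec2 σ (y 0)
  rw [h1, fib_map, upd_map, dot_map, map_eq_zero]

lemma mem_Vg_map {S : Type*} [Field S] (σ : K →+* S)
    (A B C : Matrix (Fin (m + 1)) (Fin (m + 1)) K) (y : Fin (m + 1) → K) :
    (fun i => σ (y i)) ∈ Vg (A.map σ) (B.map σ) (C.map σ) ↔ y ∈ Vg A B C := by
  refine and_congr (mem_Va_map σ A B C y) ?_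
  have h1 : (![(fun i => σ (y i)) 0, 1] : Fin 2 → S) = fun i => σ (![y 0, 1] i) := vec2 σ (y 0)
  have h2 : ((fib A B C ![y 0, 1]).map σ).det = σ (fib A B C ![y 0, 1]).det := by
    rw [← RingHom.mapMatrix_apply, ← RingHom.map_det]
  rw [h1, fib_map, h2, Ne, map_eq_zero]

/-- the real points of the affine hypersurface in the smooth fibres form a semialgebraic set -/
lemma sa_Vg (σ : K →+* ℝ) (hσ : ∀ r, IsAlgebraic ℚ (σ r))
    (A B C : Matrix (Fin (m + 1)) (Fin (m + 1)) K) : SA (Vg (A.map σ) (B.map σ) (C.map σ)) := by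
  refine SAP.and ?_ (SAP.not ?_)
  · refine SAP.congr (SAP.eq_zeroA (PA_eval₂ σ hσ
      (X 0 ^ 2 * qp A + X 0 * qp B + qp C))) fun y => ?_
    simp only [eval₂_add, eval₂_mul, eval₂_pow, eval₂_X, qp_eval₂, Va, Set.mem_ofPred_eq]
    simp only [fib, Matrix.cons_val_zero, Matrix.cons_val_one, Matrix.cons_val_fin_one, mul_one,
      one_pow, one_smul, add_mulVec, smul_mulVec, dotProduct_add, dotProduct_smul, smul_eq_mul]
  · refine SAP.congr (SAP.eq_zeroA (PA_eval₂ σ hσ
      (fib (A.map MvPolynomial.C) (B.map MvPolynomial.C) (C.map MvPolynomial.C)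
        ![(X 0 : MvPolynomial (Fin (m + 1)) K), 1]).det)) fun y => ?_
    have h1 : ∀ M : Matrix (Fin (m + 1)) (Fin (m + 1)) (MvPolynomial (Fin (m + 1)) K),
        eval₂ σ y M.det = (M.map (eval₂Hom σ y)).det := by
      intro M
      rw [← coe_eval₂Hom, RingHom.map_det, RingHom.mapMatrix_apply]
    rw [h1]
    have h2 : (fib (A.map MvPolynomial.C) (B.map MvPolynomial.C) (C.map MvPolynomial.C)
        ![(X 0 : MvPolynomial (Fin (m + 1)) K), 1]).map (eval₂Hom σ y) =
        fib (A.map σ) (B.map σ) (C.map σ) ![y 0, 1] := by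
      ext k l
      simp [fib]
    rw [h2]

/-- **the closure of the rational points is semialgebraic** -/
theorem closure_SA (σ : K →+* ℝ) (hσ : ∀ r, IsAlgebraic ℚ (σ r)) (hm : 2 ≤ m)
    {A B C : Matrix (Fin (m + 1)) (Fin (m + 1)) K} (hA : A.IsSymm) (hB : B.IsSymm)
    (hC : C.IsSymm) (hind : LinearIndependent K ![A, B, C])
    (hdet : ∃ t : K, (t ^ 2 • A + t • B + C).det ≠ 0) :
    SA (closure ((fun (y : Fin (m + 1) → K) i => σ (y i)) '' Va A B C)) := by
  classical
  set im : (Fin (m + 1) → K) → (Fin (m + 1) → ℝ) := fun y i => σ (y i) with him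
  -- the family of completions
  set σ' : ∀ _ : Unit, K →+* ℝ := fun _ => σ with hσ'
  have hdense0 : DenseRange σ := by
    have h1 : DenseRange ((↑) : ℚ → ℝ) := Rat.denseRange_cast
    refine Dense.mono ?_ h1
    rintro _ ⟨q, rfl⟩
    exact ⟨(q : K), map_ratCast σ q⟩
  have hdense : DenseRange fun (x : K) (i : Unit) => σ' i x := by
    have h1 : Continuous fun (x : ℝ) (_ : Unit) => x := continuous_pi fun _ => continuous_id
    have h2 : Function.Surjective fun (x : ℝ) (_ : Unit) => x := fun g => ⟨g (), by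
      funext i
      rfl⟩
    exact h2.denseRange.comp hdense0 h1
  have hc := matFam_compat σ' hA hB hC
  have hindL : LinearIndependent ℝ ![A.map σ, B.map σ, C.map σ] := linInd_map σ hind
  have hIL := matFam_ind (hA.map σ) (hB.map σ) (hC.map σ) hindL
  have hdetL : ∃ t : ℝ, (t ^ 2 • A.map σ + t • B.map σ + C.map σ).det ≠ 0 := by
    obtain ⟨t, ht⟩ := hdet
    refine ⟨σ t, ?_⟩
    have h1 : (σ t) ^ 2 • A.map σ + (σ t) • B.map σ + C.map σ =
        σ.mapMatrix (t ^ 2 • A + t • B + C) := by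
      ext k l
      simp
    rw [h1, ← RingHom.map_det]
    exact (map_ne_zero σ).2 ht
  obtain ⟨𝓑, h𝓑, hbad, hgood⟩ := matFam_bad' (hA.map σ) (hB.map σ) (hC.map σ) hdetL
  set FK := matFam A B C hA hB hC with hFK
  set FR := matFam (A.map σ) (B.map σ) (C.map σ) (hA.map σ) (hB.map σ) (hC.map σ) with hFR
  -- homogeneous coordinates
  set Yh : (Fin (m + 1) → ℝ) → Unit → Fin (m + 1) → ℝ := fun y _ => Function.update y 0 1 with hYh
  set Th : (Fin (m + 1) → ℝ) → Unit → Fin 2 → ℝ := fun y _ => ![y 0, 1] with hTh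
  have hThc : Continuous Th := by
    refine continuous_pi fun _ => continuous_pi fun j => ?_
    fin_cases j
    · exact continuous_apply 0
    · exact continuous_const
  have hYhc : Continuous Yh := continuous_pi fun _ => continuous_id.update 0 continuous_const
  have hY0 : ∀ y i, Yh y i ≠ 0 := by
    intro y i h
    have := congrFun h 0
    simp [hYh] at this
  have hT0 : ∀ y i, Th y i ≠ 0 := by
    intro y i h
    have := congrFun h 1
    simp [hTh] at this
  set G : Set (Fin (m + 1) → K) := Vg A B C with hG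
  -- from the affine to the projective closure
  have hto : ∀ y ∈ closure (im '' G), (Yh y, Th y) ∈ Cl σ' FK := by
    intro y hy
    refine map_mem_closure (f := fun y => (Yh y, Th y)) (hYhc.prodMk hThc) hy ?_
    rintro _ ⟨y', hy', rfl⟩
    refine ⟨Function.update y' 0 1, ![y' 0, 1], ?_, ?_⟩
    · rw [matFam_val]
      exact hy'.1
    · refine Prod.ext ?_ ?_
      · funext _
        exact upd_map σ y'
      · funext _
        exact vec2 σ (y' 0)
  -- and back
  have hfrom : ∀ y, (Yh y, Th y) ∈ Cl σ' FK →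
      (fib (A.map σ) (B.map σ) (C.map σ) ![y 0, 1]).det ≠ 0 → y ∈ closure (im '' G) := by
    intro y hy hdy
    rw [mem_closure_iff_nhds]
    intro N hN
    set Φ : (Unit → Fin (m + 1) → ℝ) × (Unit → Fin 2 → ℝ) → (Fin (m + 1) → ℝ) := fun p =>
      Function.update ((p.1 () 0)⁻¹ • p.1 ()) 0 ((p.2 () 1)⁻¹ * p.2 () 0) with hΦdef
    have hc1 : ContinuousAt (fun p : (Unit → Fin (m + 1) → ℝ) × (Unit → Fin 2 → ℝ) => p.1 () 0)
        (Yh y, Th y) := by
      have : Continuous fun p : (Unit → Fin (m + 1) → ℝ) × (Unit → Fin 2 → ℝ) => p.1 () 0 := by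
        fun_prop
      exact this.continuousAt
    have hc2 : ContinuousAt (fun p : (Unit → Fin (m + 1) → ℝ) × (Unit → Fin 2 → ℝ) => p.2 () 1)
        (Yh y, Th y) := by
      have : Continuous fun p : (Unit → Fin (m + 1) → ℝ) × (Unit → Fin 2 → ℝ) => p.2 () 1 := by
        fun_prop
      exact this.continuousAt
    have hn1 : Yh y () 0 ≠ 0 := by simp [hYh]
    have hn2 : Th y () 1 ≠ 0 := by simp [hTh]
    have hΦ : ContinuousAt Φ (Yh y, Th y) := by
      refine ContinuousAt.update ?_ 0 ?_
      · refine (hc1.inv₀ hn1).smul ?_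
        have : Continuous fun p : (Unit → Fin (m + 1) → ℝ) × (Unit → Fin 2 → ℝ) => p.1 () := by
          fun_prop
        exact this.continuousAt
      · refine (hc2.inv₀ hn2).mul ?_
        have : Continuous fun p : (Unit → Fin (m + 1) → ℝ) × (Unit → Fin 2 → ℝ) => p.2 () 0 := by
          fun_prop
        exact this.continuousAt
    have hΦv : Φ (Yh y, Th y) = y := by
      funext i
      by_cases hi : i = 0
      · subst hi
        simp [hΦdef, hTh]
      · simp [hΦdef, hi, hYh]
    have hcd : Continuous fun z : Fin (m + 1) → ℝ =>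
        (fib (A.map σ) (B.map σ) (C.map σ) ![z 0, 1]).det := by
      refine Continuous.matrix_det ?_
      refine continuous_matrix fun k l => ?_
      simp only [fib, Matrix.add_apply, Matrix.smul_apply, Matrix.cons_val_zero,
        Matrix.cons_val_one, Matrix.cons_val_fin_one, smul_eq_mul]
      fun_prop
    have hNd : ∀ᶠ z in 𝓝 y, z ∈ N ∧
        (fib (A.map σ) (B.map σ) (C.map σ) ![z 0, 1]).det ≠ 0 := by
      filter_upwards [hN, hcd.continuousAt.eventually_ne hdy] with z h1 h2
      exact ⟨h1, h2⟩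
    have hev : ∀ᶠ p in 𝓝 (Yh y, Th y), p.1 () 0 ≠ 0 ∧ p.2 () 1 ≠ 0 ∧ Φ p ∈ N ∧
        (fib (A.map σ) (B.map σ) (C.map σ) ![Φ p 0, 1]).det ≠ 0 := by
      have h1 : Tendsto Φ (𝓝 (Yh y, Th y)) (𝓝 y) := by
        have := hΦ.tendsto
        rwa [hΦv] at this
      filter_upwards [hc1.eventually_ne hn1, hc2.eventually_ne hn2, h1.eventually hNd]
        with p h2 h3 h4
      exact ⟨h2, h3, h4.1, h4.2⟩
    obtain ⟨p, ⟨hp1, hp2, hp3, hp4⟩, Y, T, h0, rfl⟩ := mem_closure_iff_nhds.1 hy _ hev
    have hY00 : Y 0 ≠ 0 := fun h => hp1 (by simp [vec, h])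
    have hT10 : T 1 ≠ 0 := fun h => hp2 (by simp [vec, h])
    set y2 : Fin (m + 1) → K := Function.update ((Y 0)⁻¹ • Y) 0 ((T 1)⁻¹ * T 0) with hy2
    have e0 : Φ (vec σ' Y, vec σ' T) = im y2 := by
      funext i
      by_cases hi : i = 0
      · subst hi
        simp [hΦdef, hy2, him, vec, hσ']
      · simp [hΦdef, hy2, him, vec, hσ', hi]
    rw [e0] at hp3 hp4
    have e1 : Function.update y2 0 1 = (Y 0)⁻¹ • Y := by
      funext i
      by_cases hi : i = 0
      · subst hi
        simp [hY00]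
      · simp [hy2, hi]
    have e2 : ![y2 0, 1] = (T 1)⁻¹ • T := by
      funext j
      fin_cases j
      · simp [hy2]
      · simp [hT10]
    have hV : y2 ∈ Va A B C := by
      show _ = _
      rw [e1, e2, fib_smul]
      rw [matFam_val] at h0
      have h0' : Y ⬝ᵥ fib A B C T *ᵥ Y = 0 := h0
      simp only [smul_mulVec, mulVec_smul, dotProduct_smul, smul_dotProduct, h0', smul_zero]
    refine ⟨im y2, hp3, y2, ?_, rfl⟩
    rw [hG, ← mem_Vg_map σ]
    exact ⟨(mem_Va_map σ A B C y2).2 hV, hp4⟩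
  -- the relatively clopen set
  set VR := Vg (A.map σ) (B.map σ) (C.map σ) with hVR
  set W : Set (Fin (m + 1) → ℝ) := VR ∩ closure (im '' G) with hW
  have hLC : LC VR W := by
    intro y hy
    by_cases hyW : y ∈ W
    · obtain ⟨𝒰, h𝒰, h1⟩ := Cl.open hc hdense (by omega) (fun _ => hIL) (fun _ => h𝓑)
        (fun _ => hbad) (hto y hyW.2) (hY0 y) (hT0 y) (fun _ => hgood _ hy.2)
      have h2 : ∀ᶠ y' in 𝓝 y, Th y' () ∈ 𝒰 () := by
        have : Continuous fun y' => Th y' () := (continuous_apply ()).comp hThc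
        exact this.continuousAt.eventually (h𝒰 ())
      filter_upwards [self_mem_nhdsWithin, nhdsWithin_le_nhds h2] with y' hy' h3
      refine ⟨fun _ => hyW, fun _ => ⟨hy', hfrom y' ?_ hy'.2⟩⟩
      refine h1 (Th y') (fun _ => h3) (Yh y') fun _ => ?_
      rw [matFam_val]
      exact hy'.1
    · have hy' : y ∉ closure (im '' G) := fun h => hyW ⟨hy, h⟩
      have hop : (closure (im '' G))ᶜ ∈ 𝓝 y := isClosed_closure.isOpen_compl.mem_nhds hy'
      filter_upwards [nhdsWithin_le_nhds hop] with y' h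
      exact ⟨fun h2 => (h h2.2).elim, fun h2 => (hyW h2).elim⟩
  have hWSA : SA W := sa_of_lc _ _ _ (sa_Vg σ hσ A B C) (fun y hy => hy.1) hLC
  -- the bad fibres
  have hBf : {r : K | (fib A B C ![r, 1]).det = 0}.Finite := by
    obtain ⟨𝓑', h𝓑', hbad', hgood'⟩ := matFam_bad' hA hB hC hdet
    refine (𝓑'.finite_toSet.image fun R => (R 1)⁻¹ * R 0).subset ?_
    intro r hr
    by_contra hcon
    have h1 : ∀ R ∈ 𝓑', wedge ![r, 1] R ≠ 0 := by
      intro R hR h0
      simp only [wedge, Matrix.cons_val_zero, Matrix.cons_val_one, Matrix.cons_val_fin_one,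
        one_mul] at h0
      have hR1 : R 1 ≠ 0 := by
        intro h1
        apply h𝓑' R hR
        funext j
        fin_cases j
        · rw [h1, mul_zero, zero_sub, neg_eq_zero] at h0
          exact h0
        · exact h1
      apply hcon
      refine ⟨R, hR, ?_⟩
      have h2 : R 0 = r * R 1 := by linear_combination -h0
      show (R 1)⁻¹ * R 0 = r
      rw [h2]
      field_simp
    have h2 := hbad' ![r, 1] (by
      intro h
      have := congrFun h 1
      simp at this) h1
    -- the determinant vanishes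
    have h3 : (fib A B C ![r, 1]).det = 0 := hr
    obtain ⟨v, hv, hv'⟩ := Matrix.exists_vecMul_eq_zero_iff.2 h3
    apply hv
    refine h2 v fun w => ?_
    rw [matFam_val]
    change v ⬝ᵥ fib A B C ![r, 1] *ᵥ w = 0
    rw [dotProduct_mulVec, hv', zero_dotProduct]
  have hbr : ∀ r : K, SA (closure (im '' {y | y ∈ Va A B C ∧ y 0 = r})) := by
    intro r
    have h1 := affine_SA2 σ hσ (X 0 - MvPolynomial.C r) (qp (fib A B C ![r, 1]))
      ((totalDegree_sub _ _).trans (by simp)) (qp_deg _)
    have h2 : {x : Fin (m + 1) → ℝ | ∃ y : Fin (m + 1) → K,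
        (eval y (X 0 - MvPolynomial.C r) = 0 ∧ eval y (qp (fib A B C ![r, 1])) = 0) ∧
          x = fun i => σ (y i)} = im '' {y | y ∈ Va A B C ∧ y 0 = r} := by
      ext x
      constructor
      · rintro ⟨y, ⟨h3, h4⟩, rfl⟩
        rw [map_sub, eval_X, eval_C, sub_eq_zero] at h3
        rw [qp_eval] at h4
        refine ⟨y, ⟨?_, h3⟩, rfl⟩
        show _ = _
        rw [h3]
        exact h4
      · rintro ⟨y, ⟨h3, h4⟩, rfl⟩
        refine ⟨y, ⟨?_, ?_⟩, rfl⟩
        · rw [map_sub, eval_X, eval_C, h4, sub_self]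
        · rw [qp_eval]
          have h5 : _ = _ := h3
          rw [h4] at h5
          exact h5
    rwa [h2] at h1
  -- the closure
  have heq : closure (im '' Va A B C) = closure W ∪
      {x | ∃ r ∈ hBf.toFinset, x ∈ closure (im '' {y | y ∈ Va A B C ∧ y 0 = r})} := by
    apply Subset.antisymm
    · have hcl : IsClosed (closure W ∪
          {x | ∃ r ∈ hBf.toFinset, x ∈ closure (im '' {y | y ∈ Va A B C ∧ y 0 = r})}) := by
        refine isClosed_closure.union ?_
        have : {x | ∃ r ∈ hBf.toFinset, x ∈ closure (im '' {y | y ∈ Va A B C ∧ y 0 = r})} =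
            ⋃ r ∈ hBf.toFinset, closure (im '' {y | y ∈ Va A B C ∧ y 0 = r}) := by
          ext x
          simp only [Set.mem_ofPred_eq, Set.mem_iUnion, exists_prop]
        rw [this]
        exact Set.Finite.isClosed_biUnion (hBf.toFinset.finite_toSet) fun r _ => isClosed_closure
      refine closure_minimal ?_ hcl
      rintro _ ⟨y, hy, rfl⟩
      by_cases hdy : (fib A B C ![y 0, 1]).det = 0
      · right
        exact ⟨y 0, hBf.mem_toFinset.2 hdy, subset_closure ⟨y, ⟨hy, rfl⟩, rfl⟩⟩
      · left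
        refine subset_closure ⟨?_, subset_closure ⟨y, ⟨hy, hdy⟩, rfl⟩⟩
        exact (mem_Vg_map σ A B C y).2 ⟨hy, hdy⟩
    · refine union_subset ?_ ?_
      · refine closure_minimal ?_ isClosed_closure
        intro y hy
        exact closure_mono (image_mono fun z hz => hz.1) hy.2
      · rintro x ⟨r, -, hx⟩
        exact closure_mono (image_mono fun z hz => hz.1) hx
  rw [heq]
  exact SA.union (SA.closure hWSA) (SAP.exists_mem hBf.toFinset
    (p := fun r x => x ∈ closure (im '' {y | y ∈ Va A B C ∧ y 0 = r})) fun r _ => hbr r)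

end Pool.Agent.TH729.BQ
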